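import Pool.Agent.P.MP_08fd93_co.FB.C12
import Pool.Agent.P.MP_08fd93_co.FD.DA

/-! Cells under a static edge: a good edge or the canonical cap; loaded caps. -/

set_option autoImplicit false

namespace Pool.Agent.P.MP_08fd93_co.FB

open OV FU OV.PkIndP

variable {W : Type} {H : SimpleGraph W} {d dL dR : DD W} {K : Set W} {u v z h q ql qj : W}

/-- The inner vertex `z` sees both ends of the second path and the first path on both sides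
of `e`. -/
def Bad (H : SimpleGraph W) (d : DD W) (z : W) (e : Sym2 W) : Prop :=
  z ∈ d.I ∧ H.Adj z d.a' ∧ H.Adj z d.b' ∧ ∃ q ∈ d.X, ∃ q' ∈ d.X, H.Adj z q ∧ H.Adj z q' ∧
    ∀ x ∈ e, d.ρ q ≤ d.ρ x ∧ d.ρ x ≤ d.ρ q'

/-- Lemma K1 as a one-sided output. -/
theorem outX_k1 (hP : Pl H Set.univ) (T : TA H) (D : Disc H d) (st : H.Adj d.a' d.b')
    {e : Sym2 W} (he : e ∈ PE H d.X) (g : ∀ z, ¬ Bad H d z e) :
    ∃ X' P, OutX H d {e} X' P fun _ _ => True := by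
  obtain ⟨o, O⟩ := k1 hP T D.swap st he fun z hz a b q hq q' hq' r r' k =>
    g z ⟨DD.swap_I d ▸ hz, a, b, q, hq, q', hq', r, r', k⟩
  exact ⟨_, _, (out_top2 (S0 := {e}) D O.swap st (by simp) (Set.singleton_subset_iff.2 he)).imp'
    fun _ _ _ _ => Or.inl (Or.inl rfl)⟩

/-- at most one inner common neighbour of the two top vertices sees two bottom vertices -/
theorem hub_uniq (hP : Pl H Set.univ) (D : Disc H d) (ne : d.a' ≠ d.b') {z' r r' : W}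
    (hz : z ∈ d.I) (a : H.Adj z d.a') (b : H.Adj z d.b') (hq : q ∈ d.X) (g : H.Adj z q)
    (hz' : z' ∈ d.I) (a' : H.Adj z' d.a') (b' : H.Adj z' d.b') (hr : r ∈ d.X) (hr' : r' ∈ d.X)
    (k : H.Adj z' r) (k' : H.Adj z' r') (l : d.ρ r < d.ρ r') : z' = z := by
  by_contra n
  have lt := D.py.lt_hi D.py.ha ne
  have t := fun y (hy : y ∈ d.Y) (e : H.Adj z y) x x' m m' => (D.theta hP hq hy (T := {z})
    (E := {z'}) (Set.singleton_subset_iff.2 hz) (isConn_single z)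
    (Or.inr ⟨⟨z, rfl, g.symm⟩, ⟨z, rfl, e.symm⟩⟩) (Set.singleton_subset_iff.2 hz')
    (isConn_single z') (Set.disjoint_singleton.2 n) (x := x) (y := x') m m').2
  by_cases c : d.ρ r < d.ρ q
  · exact t _ D.py.ha a r d.b' (Or.inl ⟨hr, c⟩) (Or.inr ⟨D.py.hb, lt⟩)
      ⟨⟨z', rfl, k.symm⟩, ⟨z', rfl, b'.symm⟩⟩
  · exact t _ D.py.hb b d.a' r' (Or.inr ⟨D.py.ha, lt⟩) (Or.inl ⟨hr', by omega⟩)
      ⟨⟨z', rfl, a'.symm⟩, ⟨z', rfl, k'.symm⟩⟩

theorem Bad.lt (D : Disc H d) {e : Sym2 W} (he : e ∈ PE H d.X) (b : Bad H d z e) :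
    ∃ q ∈ d.X, ∃ q' ∈ d.X, H.Adj z q ∧ H.Adj z q' ∧ d.ρ q < d.ρ q' ∧
      ∀ x ∈ e, d.ρ q ≤ d.ρ x ∧ d.ρ x ≤ d.ρ q' := by
  obtain ⟨-, -, -, q, hq, q', hq', a, a', k⟩ := b
  obtain ⟨p, -, p', -, -, l, rfl⟩ := pe_ord D.px he
  have := (k p (Sym2.mem_mk_left _ _)).1
  have := (k p' (Sym2.mem_mk_right _ _)).2
  exact ⟨q, hq, q', hq', a, a', by omega, k⟩

theorem Bad.uniq (hP : Pl H Set.univ) (D : Disc H d) (ne : d.a' ≠ d.b') {z' : W} {e e' : Sym2 W}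
    (he : e ∈ PE H d.X) (b : Bad H d z e) (b' : Bad H d z' e') : z = z' := by
  obtain ⟨q, hq, q', hq', a, a', l, -⟩ := b.lt D he
  obtain ⟨h1, h2, h3, r, hr, -, -, k, -⟩ := b'
  exact hub_uniq hP D ne h1 h2 h3 hr k b.1 b.2.1 b.2.2.1 hq hq' a a' l

/-- a disc over one vertex: any set of at most one edge together with a given edge -/
theorem ty_sub (hP : Pl H Set.univ) (T : TA H) (D : Disc H d) (hY : d.a' = d.b') {e : Sym2 W}
    (he : e ∈ PE H d.X) {S : Set (Sym2 W)} (s : S ⊆ PE H d.X) (s1 : S.Subsingleton) :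
    ∃ o, Out H d (insert e S) o := by
  rcases s1.eq_empty_or_singleton with rfl | ⟨f, rfl⟩
  · obtain ⟨o, O⟩ := ty hP T D hY he he
    exact ⟨o, O.mono (by simp)⟩
  · exact ty hP T D hY he (s rfl)

/-- the two parts at a hub that sees both top vertices -/
theorem hub_parts (hP : Pl H Set.univ) (T : TA H) (st : H.Adj d.a' d.b') (zb : H.Adj z d.b')
    (C : Cut H d.swap z d.a' ql qj dL dR K) {S1 S2 : Set (Sym2 W)}
    (s1 : S1 ⊆ PE H {x | x ∈ d.X ∧ d.ρ x ≤ d.ρ ql}) (t1 : S1.Subsingleton)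
    (s2 : S2 ⊆ PE H {x | x ∈ d.X ∧ d.ρ qj ≤ d.ρ x}) (t2 : S2.Subsingleton) :
    (∃ X' P, OutX H dL.swap (insert s(ql, z) S1) X' P fun _ _ => True) ∧
      ∃ X' P, OutX H dR.swap (insert s(qj, z) S2) X' P fun _ _ => True := by
  have DL := C.l.disc
  have DR := C.r.disc
  have ra : dR.a = d.a' := C.r.ea
  have rb : dR.b = d.b' := C.r.eb
  have m1 : s(ql, z) ∈ PE H dL.Y := mem_PE.2 ⟨C.lL, C.uL, C.hub.ul.symm⟩
  have m2 : s(qj, z) ∈ PE H dR.Y := mem_PE.2 ⟨C.jR, C.uR, C.hub.uj.symm⟩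
  have s1' : S1 ⊆ PE H dL.Y := s1.trans (PE.mono fun x k => (C.l.eY x).2 (Or.inl k))
  have s2' : S2 ⊆ PE H dR.Y := s2.trans (PE.mono fun x k => (C.r.eY x).2 (Or.inl k))
  obtain ⟨o1, O1⟩ := ty_sub hP T DL.swap (C.l.ea.trans C.l.eb.symm) m1 s1' t1
  refine ⟨⟨_, _, out_top1 DL.swap O1 (C.l.ea.trans C.l.eb.symm) subset_rfl
    (Set.insert_subset m1 s1')⟩, ?_⟩
  have tR : H.Adj dR.a dR.b := ra ▸ rb ▸ st
  have m3 : s(dR.a, dR.b) ∈ PE H dR.X := mem_PE.2 ⟨DR.px.ha, DR.px.hb, tR⟩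
  have sub : insert s(qj, z) S2 ⊆ PE H dR.Y := Set.insert_subset m2 s2'
  have ss : ∀ e ∈ PE H dR.Y, SS H dR.swap s(dR.a, dR.b) e := fun e k =>
    Or.inl ⟨z, C.uR, dR.b, DR.px.hb, rb ▸ zb,
      fun x m => Or.inr ⟨PE.ends m3 m, DR.px.hi x (PE.ends m3 m)⟩,
      fun x m => Or.inl ⟨PE.ends k m, C.r.ea' ▸ DR.py.lo x (PE.ends k m)⟩⟩
  have fan : ∀ e ∈ PE H dR.Y, ∀ e' ∈ PE H dR.Y, Pr H dR.swap e e' := fun e k e' k' =>
    Or.inl ⟨z, C.uR, dR.b', DR.py.hb, dR.b, DR.px.hb, rb ▸ zb, DR.rb.symm, fun x m => by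
      have g : x ∈ dR.Y := m.elim (PE.ends k) (PE.ends k')
      exact ⟨g, C.r.ea' ▸ DR.py.lo x g, DR.py.hi x g⟩⟩
  obtain ⟨o2, O2⟩ := tp hP T DR.swap (S := insert s(dR.a, dR.b) (insert s(qj, z) S2)) ⟨
    Set.insert_subset (Or.inr m3) fun e k => Or.inl (sub k), by
      rintro e (rfl | k) e' (rfl | k') n
      exacts [absurd rfl n, Or.inl (ss _ (sub k')), Or.inl (ss _ (sub k)).symm,
        Or.inr (Or.inl (fan _ (sub k) _ (sub k')))], by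
      rintro e1 (rfl | k1) e2 (rfl | k2) e3 (rfl | k3) n1 n2 n3
      · exact absurd rfl n1
      · exact absurd rfl n1
      · exact absurd rfl n2
      · exact Or.inl (ss _ (sub k2))
      · exact absurd rfl n3
      · exact Or.inl (ss _ (sub k1)).symm
      · exact Or.inr (Or.inl (ss _ (sub k1)).symm)
      · exfalso
        rcases k1 with rfl | k1 <;> rcases k2 with rfl | k2 <;> rcases k3 with rfl | k3
        exacts [n1 rfl, n1 rfl, n2 rfl, n3 (t2 k2 k3), n3 rfl, n2 (t2 k1 k3), n1 (t2 k1 k2),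
          n1 (t2 k1 k2)]⟩
  exact ⟨_, _, (out_top2 DR.swap O2 tR (Set.subset_insert _ _) sub).imp'
    fun _ _ _ _ => Or.inl (Or.inl rfl)⟩

theorem div_true (d : DD W) (t : W) :
    Div d t (fun _ _ => True) (fun _ _ => True) fun _ _ => True := fun _ _ _ _ =>
  ⟨∅, ∅, trivial, trivial, fun m => m.elim, fun _ _ _ m => m.elim, fun _ _ _ m => m.elim⟩

/-- The hub `z` of a static top edge, with extreme neighbours `ql ≠ qj` on the first path. -/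
structure HubT (H : SimpleGraph W) (d : DD W) (z ql qj : W) : Prop where
  disc : Disc H d
  st : H.Adj d.a' d.b'
  hz : z ∈ d.I
  za : H.Adj z d.a'
  zb : H.Adj z d.b'
  hl : ql ∈ d.X
  hj : qj ∈ d.X
  zl : H.Adj z ql
  zj : H.Adj z qj
  ex : ∀ x ∈ d.X, H.Adj z x → d.ρ ql ≤ d.ρ x ∧ d.ρ x ≤ d.ρ qj
  ne : ql ≠ qj

theorem HubT.hub (h : HubT H d z ql qj) : Hub H d.swap z d.a' ql qj :=
  ⟨h.disc.swap, (DD.swap_I d).symm ▸ h.hz, h.disc.py.ha, h.za, h.hl, h.hj, h.zl, h.zj, h.ex,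
    fun e => absurd e h.ne⟩

theorem Bad.hubT (D : Disc H d) (st : H.Adj d.a' d.b') {e : Sym2 W} (he : e ∈ PE H d.X)
    (b : Bad H d z e) :
    ∃ ql qj, HubT H d z ql qj ∧ ∀ x ∈ e, d.ρ ql ≤ d.ρ x ∧ d.ρ x ≤ d.ρ qj := by
  obtain ⟨q, hq, q', hq', a, a', l, k⟩ := b.lt D he
  obtain ⟨ql, qj, hb⟩ := exists_hub D.swap ((DD.swap_I d).symm ▸ b.1) D.py.ha b.2.1 hq a
    fun m => absurd (m q' hq' a') fun r => by rw [r] at l; exact lt_irrefl _ l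
  have e1 : d.ρ ql ≤ d.ρ q := (hb.ex q hq a).1
  have e2 : d.ρ q' ≤ d.ρ qj := (hb.ex q' hq' a').2
  refine ⟨ql, qj, ⟨D, st, b.1, b.2.1, b.2.2.1, hb.hl, hb.hj, hb.ul, hb.uj, hb.ex, fun r => ?_⟩,
    fun x m => ⟨e1.trans (k x m).1, (k x m).2.trans e2⟩⟩
  rw [r] at e1
  omega

/-- an edge outside the span of the hub is good -/
theorem HubT.good (hP : Pl H Set.univ) (h : HubT H d z ql qj) {e : Sym2 W} (he : e ∈ PE H d.X)
    (k : ¬ ∀ x ∈ e, d.ρ ql ≤ d.ρ x ∧ d.ρ x ≤ d.ρ qj) (z' : W) : ¬ Bad H d z' e := fun b => by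
  obtain ⟨q, hq, q', hq', a, a', l, m⟩ := b.lt h.disc he
  obtain rfl := hub_uniq hP h.disc h.st.ne h.hz h.za h.zb h.hl h.zl b.1 b.2.1 b.2.2.1 hq hq' a a' l
  exact k fun x r => ⟨(h.ex q hq a).1.trans (m x r).1, (m x r).2.trans (h.ex q' hq' a').2⟩

/-- The top edge is strict together with one edge on each side of the span of the hub; if the
span is long, the hub is the apex of a cap over it. -/
theorem HubT.out (hP : Pl H Set.univ) (T : TA H) (h : HubT H d z ql qj) {S1 S2 : Set (Sym2 W)}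
    (s1 : S1 ⊆ PE H {x | x ∈ d.X ∧ d.ρ x ≤ d.ρ ql}) (t1 : S1.Subsingleton)
    (s2 : S2 ⊆ PE H {x | x ∈ d.X ∧ d.ρ qj ≤ d.ρ x}) (t2 : S2.Subsingleton) :
    ∃ X' P, OutX H d (S1 ∪ S2) X' P (fun _ _ => True) ∧ ql ∈ X' ∧ qj ∈ X' ∧
      (¬ H.Adj ql qj → z ∈ X' ∧ ∀ x ∈ d.X, d.ρ ql < d.ρ x → d.ρ x < d.ρ qj → x ∈ P) := by
  obtain ⟨dL, dR, K, C⟩ := h.hub.cut hP
  obtain ⟨⟨XL, PL, OL⟩, XR, PR, OR⟩ := hub_parts hP T h.st h.zb C s1 t1 s2 t2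
  have hl := OL.st _ (Or.inl rfl) ql (Sym2.mem_mk_left _ _)
  have hj := OR.st _ (Or.inl rfl) qj (Sym2.mem_mk_left _ _)
  have sub : S1 ∪ S2 ⊆ (insert s(ql, z) S1 ∪ insert s(qj, z) S2) ∩ PE H d.X := by
    rintro e (k | k)
    exacts [⟨Or.inl (Or.inr k), PE.mono (fun _ m => m.1) (s1 k)⟩,
      ⟨Or.inr (Or.inr k), PE.mono (fun _ m => m.1) (s2 k)⟩]
  by_cases a : H.Adj ql qj
  · exact ⟨_, _, (C.bot_short hP T (Or.inr a) OL OR hl hj (Or.inl ⟨Or.inl rfl, Or.inl rfl⟩)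
      (div_true d _)).mono sub, Or.inl ⟨hl, h.zl.ne'⟩, Or.inr ⟨hj, h.zj.ne'⟩, fun n => absurd a n⟩
  · exact ⟨_, _, (C.bot_long hP h.ne a OL OR (Or.inl rfl) (Or.inl rfl) (div_true d _)).mono sub,
      Or.inl hl, Or.inr hj, fun _ => ⟨Or.inl (OL.st _ (Or.inl rfl) z (Sym2.mem_mk_right _ _)),
        fun x k l l' => Or.inl (Or.inr (Or.inr ⟨k, l, l'⟩))⟩⟩

/-- Under a static edge some lower edge is good, or one hub sees the four corners. -/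
theorem good_or_hub (hP : Pl H Set.univ) (D : Disc H d) (st : H.Adj d.a' d.b') (ne : d.a ≠ d.b) :
    (∃ e ∈ PE H d.X, ∀ z, ¬ Bad H d z e) ∨ ∃ z, HubT H d z d.a d.b := by
  by_contra hc
  rw [not_or] at hc
  have all : ∀ e ∈ PE H d.X, ∃ z, Bad H d z e := fun e k => by
    by_contra n
    exact hc.1 ⟨e, k, fun z b => n ⟨z, b⟩⟩
  obtain ⟨x, hx, a, -⟩ := first_edge D ne
  obtain ⟨y, hy, b, -⟩ := first_edge (disc_rv D) (Ne.symm ne)
  have he : s(d.a, x) ∈ PE H d.X := mem_PE.2 ⟨D.px.ha, hx, a⟩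
  have he' : s(d.b, y) ∈ PE H d.X := mem_PE.2 ⟨D.px.hb, hy, b⟩
  obtain ⟨z, g⟩ := all _ he
  obtain ⟨ql, qj, h, k⟩ := g.hubT D st he
  have k' : ∀ x ∈ s(d.b, y), d.ρ ql ≤ d.ρ x ∧ d.ρ x ≤ d.ρ qj := by
    by_contra n
    obtain ⟨z', g'⟩ := all _ he'
    exact h.good hP he' n z' g'
  obtain rfl : ql = d.a := D.px.inj _ h.hl _ D.px.ha
    (le_antisymm (k _ (Sym2.mem_mk_left _ _)).1 (D.px.lo _ h.hl))
  obtain rfl : qj = d.b := D.px.inj _ h.hj _ D.px.hb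
    (le_antisymm (D.px.hi _ h.hj) (k' _ (Sym2.mem_mk_left _ _)).2)
  exact hc.2 ⟨z, h⟩

/-- Lemma DA as a one-sided output. -/
theorem Bump.da (hP : Pl H Set.univ) (T : TA H) (b : Bump H d v) {e : Sym2 W}
    (he : e ∈ PE H d.X) : ∃ X' P t t', ((t = d.a' ∧ t' = d.b') ∨ (t = d.b' ∧ t' = d.a')) ∧
      OutX H d {e} X' P fun c A => (c d.a' = c d.b' ∧ c v ≠ c d.a' ∧ v ∈ A) ∨
        (c d.a' ≠ c d.b' ∧ c t = c v ∧ t' ∈ A) := by
  have D := b.disc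
  obtain ⟨o, t, ht, S, E⟩ := FD.da hP T D b.eY b.e1 b.e2 he
  have key : ∀ t', ((t = d.a' ∧ t' = d.b') ∨ (t = d.b' ∧ t' = d.a')) →
      OutX H d {e} o.X (PX d o) fun c A => (c d.a' = c d.b' ∧ c v ≠ c d.a' ∧ v ∈ A) ∨
        (c d.a' ≠ c d.b' ∧ c t = c v ∧ t' ∈ A) := fun t' k => by
    have tY : t ∈ d.Y := ht.elim (fun r => r ▸ D.py.ha) fun r => r ▸ D.py.hb
    have tY' : t' ∈ d.Y := k.elim (fun r => r.2 ▸ D.py.hb) fun r => r.2 ▸ D.py.ha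
    refine outX_of D S (Set.singleton_subset_iff.2 he) fun c c0 ω A h1 h2 h3 h4 h5 => ?_
    obtain ⟨E1, E2⟩ := E c ω h1 (fun y m => by rw [h3 y m]; exact h2 y m) h4
    rw [← h3 _ D.py.ha, ← h3 _ D.py.hb, ← h3 _ b.hv, ← h3 _ tY] at h5
    rcases h5 with ⟨g1, g2, g3⟩ | ⟨g1, g2, g3⟩
    · obtain ⟨c', r⟩ := E1 g1 g2
      exact ⟨c', r.mono fun x _ m => m.imp_right fun s => by rw [s]; exact ⟨g3, b.hv⟩⟩
    · obtain ⟨c', r⟩ := E2 g2 g1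
      refine ⟨c', r.mono fun x _ m => m.imp_right fun s => ?_⟩
      have : x = t' := by
        rcases k with ⟨rfl, rfl⟩ | ⟨rfl, rfl⟩
        exacts [s.1.resolve_left s.2, s.1.resolve_right s.2]
      rw [this]
      exact ⟨g3, tY'⟩
  rcases ht with r | r
  exacts [⟨_, _, t, _, Or.inl ⟨r, rfl⟩, key _ (Or.inl ⟨r, rfl⟩)⟩,
    ⟨_, _, t, _, Or.inr ⟨r, rfl⟩, key _ (Or.inr ⟨r, rfl⟩)⟩]

/-- Lemma CAP2: under the cap `a' v b'` the hidden vertex `h` sees the whole cap and one lower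
vertex `q`; both upper edges and one lower edge on each side of `q` are strict. -/
theorem Bump.cap2 (hP : Pl H Set.univ) (T : TA H) (b : Bump H d v) (hh : h ∈ d.I)
    (ha : H.Adj h d.a') (hv : H.Adj h v) (hb : H.Adj h d.b') (hq : q ∈ d.X) (e : H.Adj h q)
    (only : ∀ x ∈ d.X, H.Adj h x → x = q) (nv : ¬ H.Adj v q) {S1 S2 : Set (Sym2 W)}
    (s1 : S1 ⊆ PE H {x | x ∈ d.X ∧ d.ρ x ≤ d.ρ q}) (t1 : S1.Subsingleton)
    (s2 : S2 ⊆ PE H {x | x ∈ d.X ∧ d.ρ q ≤ d.ρ x}) (t2 : S2.Subsingleton) :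
    ∃ X' P, OutX H d (S1 ∪ S2) X' P fun _ _ => True := by
  have D := b.disc
  have hub : Hub H d.swap h v q q := ⟨D.swap, (DD.swap_I d).symm ▸ hh, b.hv, hv, hq, hq, e, e,
    fun y k a => by rw [only y k a]; exact ⟨le_rfl, le_rfl⟩, fun _ => nv⟩
  obtain ⟨dL, dR, K, C⟩ := hub.cut hP
  have side : ∀ {d dL dR : DD W}, Bump H d v → H.Adj h d.a' → Cut H d.swap h v q q dL dR K →
      ∀ {S : Set (Sym2 W)}, S ⊆ PE H {x | x ∈ d.X ∧ d.ρ x ≤ d.ρ q} → S.Subsingleton →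
      ∃ X' P, OutX H dL.swap (insert s(q, h) S) X' P fun _ _ => True := by
    intro d dL dR b ha C S s t
    have DL := C.l.disc
    have la : dL.a = d.a' := C.l.ea
    have tL : H.Adj dL.a dL.b := by
      rw [la, C.l.eb]
      exact b.e1
    have m1 : s(q, h) ∈ PE H dL.Y := mem_PE.2 ⟨C.lL, C.uL, C.hub.ul.symm⟩
    have sub : insert s(q, h) S ⊆ PE H dL.Y :=
      Set.insert_subset m1 (s.trans (PE.mono fun x k => (C.l.eY x).2 (Or.inl k)))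
    have m3 : s(dL.a, dL.b) ∈ PE H dL.X := mem_PE.2 ⟨DL.px.ha, DL.px.hb, tL⟩
    have ss : ∀ e ∈ PE H dL.Y, SS H dL.swap e s(dL.a, dL.b) := fun e k =>
      Or.inl ⟨h, C.uL, dL.a, DL.px.ha, la ▸ ha,
        fun x m => Or.inl ⟨PE.ends k m, C.l.eb' ▸ DL.py.hi x (PE.ends k m)⟩,
        fun x m => Or.inr ⟨PE.ends m3 m, DL.px.lo x (PE.ends m3 m)⟩⟩
    have fan : ∀ e ∈ PE H dL.Y, ∀ e' ∈ PE H dL.Y, Pr H dL.swap e e' := fun e k e' k' =>
      Or.inl ⟨dL.a', DL.py.ha, h, C.uL, dL.a, DL.px.ha, DL.ra.symm, la ▸ ha, fun x m => by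
        have g : x ∈ dL.Y := m.elim (PE.ends k) (PE.ends k')
        exact ⟨g, DL.py.lo x g, C.l.eb' ▸ DL.py.hi x g⟩⟩
    obtain ⟨o, O⟩ := tp hP T DL.swap (S := insert s(dL.a, dL.b) (insert s(q, h) S)) ⟨
      Set.insert_subset (Or.inr m3) fun e k => Or.inl (sub k), by
        rintro e (rfl | k) e' (rfl | k') n
        exacts [absurd rfl n, Or.inl (ss _ (sub k')).symm, Or.inl (ss _ (sub k)),
          Or.inr (Or.inl (fan _ (sub k) _ (sub k')))], by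
        rintro e1 (rfl | k1) e2 (rfl | k2) e3 (rfl | k3) n1 n2 n3
        · exact absurd rfl n1
        · exact absurd rfl n1
        · exact absurd rfl n2
        · exact Or.inl (ss _ (sub k2)).symm
        · exact absurd rfl n3
        · exact Or.inl (ss _ (sub k1))
        · exact Or.inr (Or.inl (ss _ (sub k1)))
        · exfalso
          rcases k1 with rfl | k1 <;> rcases k2 with rfl | k2 <;> rcases k3 with rfl | k3
          exacts [n1 rfl, n1 rfl, n2 rfl, n3 (t k2 k3), n3 rfl, n2 (t k1 k3), n1 (t k1 k2),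
            n1 (t k1 k2)]⟩
    exact ⟨_, _, (out_top2 DL.swap O tL (Set.subset_insert _ _) sub).imp'
      fun _ _ _ _ => Or.inl (Or.inl rfl)⟩
  obtain ⟨XL, PL, OL⟩ := side b ha C s1 t1
  obtain ⟨XR, PR, OR⟩ := side (d := rvD d) b.rv hb C.rv (S := S2)
    (s2.trans (PE.mono fun x k => ⟨k.1, by
      have := k.2
      change 0 - _ ≤ 0 - _
      omega⟩)) t2
  have OR' : OutX H dR.swap (insert s(q, h) S2) XR PR fun _ _ => True := OutX.rv' OR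
  refine ⟨_, _, (C.bot_short hP T (Or.inl rfl) OL OR' (OL.st _ (Or.inl rfl) q (Sym2.mem_mk_left _ _))
    (OR'.st _ (Or.inl rfl) q (Sym2.mem_mk_left _ _)) (Or.inl ⟨Or.inl rfl, Or.inl rfl⟩)
    (div_true d _)).mono ?_⟩
  rintro e (k | k)
  exacts [⟨Or.inl (Or.inr k), PE.mono (fun _ m => m.1) (s1 k)⟩,
    ⟨Or.inr (Or.inr k), PE.mono (fun _ m => m.1) (s2 k)⟩]

end Pool.Agent.P.MP_08fd93_co.FB
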