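import Pool.Agent.P.MP_08fd93_co.FB.W2
import Pool.Agent.P.MP_08fd93_co.FT.T4
import Pool.Agent.P.MP_08fd93_co.FK.K11
import Pool.Agent.P.MP_08fd93_co.FD.E1
import Pool.Agent.P.MP_08fd93_co.FL.H1
import Pool.Agent.P.MP_08fd93_co.FH2.A2

/-! Short tails: the leaves without hypotheses. -/

set_option autoImplicit false

namespace Pool.Agent.P.MP_08fd93_co.FP

theorem leaf_col : TB.S_Col := fun _ _ _ _ _ _ _ _ _ _ _ _ h hφ H => TT.TK.col h hφ H

theorem leaf_g0 : S_G0 := g0 (TB.modeI_of leaf_col) (TB.modeII_of leaf_col)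

theorem leaf_g1 : S_G1 :=
  g1 (TB.modeI_of leaf_col) (TB.modeII_of leaf_col) (FD.modeE_of leaf_col)

theorem leaf_g2 : S_G2 := g2_of leaf_col (TB.modeI_of leaf_col) (TB.modeII_of leaf_col)

theorem leaf_h1 : FH.S_H1 := FL.h1_of leaf_col

theorem leaf_h2 : FH.S_H2 := FH2.h2_of leaf_col

theorem leaf_ho : FH.S_HO := FH2.ho_of leaf_col

end Pool.Agent.P.MP_08fd93_co.FP
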