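import Pool.Agent.P.MP_08fd93_co.FB.C4

/-! One-sided outputs: the second path is kept, its colours and free tokens are a condition. -/

set_option autoImplicit false

namespace Pool.Agent.P.MP_08fd93_co.FB

open OV FU

variable {W : Type} {H : SimpleGraph W}

/-- a set `K` is coloured first, then the set `M` -/
theorem rec_add {K M A Al : Set W} {c c1 c2 : W → Col} (off : ∀ x, x ∉ K → c1 x = c x)
    (h : Rec H M A c1 c2) (hd : ∀ x ∈ K, x ∉ M) (k1 : ∀ x ∈ K, OneIn H c1 Mᶜ x)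
    (k2 : ∀ x ∈ K, x ∈ A → ∀ y, y ∉ M → H.Adj x y → c1 y ≠ c1 x)
    (o1 : ∀ x, x ∉ K → x ∉ M → ∀ y ∈ K, H.Adj x y → c1 y = c1 x → x ∈ Al ∧ x ∉ A)
    (o2 : ∀ x, x ∉ K → x ∉ M → OneIn H c1 K x)
    (o3 : ∀ x, x ∉ K → x ∉ M → x ∈ A → x ∈ Al) : Rec H (K ∪ M) Al c c2 := by
  refine ⟨fun x hx => ?_, ?_, ?_, ?_⟩
  · rw [h.off x fun k => hx (Or.inr k), off x fun k => hx (Or.inl k)]
  · rintro x (hx | hx)
    · have mix : ∀ y ∈ M, ∀ z, z ∉ M → H.Adj x y → H.Adj x z → c2 y = c2 x → c2 z = c2 x →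
          False := fun y hy z hz ey ez cy cz => by
        rw [h.off z hz, h.off x (hd x hx)] at cz
        exact k2 x hx (h.al x (hd x hx) y hy ey cy) z hz ez cz
      intro y z ey ez cy cz
      by_cases my : y ∈ M <;> by_cases mz : z ∈ M
      · exact h.un x (hd x hx) y my z mz ey ez cy cz
      · exact (mix y my z mz ey ez cy cz).elim
      · exact (mix z mz y my ez ey cz cy).elim
      · rw [h.off x (hd x hx)] at cy cz
        rw [h.off y my] at cy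
        rw [h.off z mz] at cz
        exact k1 x hx y my z mz ey ez cy cz
    · exact h.one x hx
  · rintro x hx y (hy | hy) e he
    · rw [h.off y (hd y hy), h.off x fun k => hx (Or.inr k)] at he
      exact (o1 x (fun k => hx (Or.inl k)) (fun k => hx (Or.inr k)) y hy e he).1
    · exact o3 x (fun k => hx (Or.inl k)) (fun k => hx (Or.inr k))
        (h.al x (fun k => hx (Or.inr k)) y hy e he)
  · intro x hx
    have xK : x ∉ K := fun k => hx (Or.inl k)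
    have xM : x ∉ M := fun k => hx (Or.inr k)
    have mix : ∀ y ∈ K, ∀ z ∈ M, H.Adj x y → H.Adj x z → c2 y = c2 x → c2 z = c2 x → False := by
      intro y hy z hz ey ez cy cz
      rw [h.off y (hd y hy), h.off x xM] at cy
      exact (o1 x xK xM y hy ey cy).2 (h.al x xM z hz ez cz)
    rintro y (hy | hy) z (hz | hz) ey ez cy cz
    · rw [h.off x xM] at cy cz
      rw [h.off y (hd y hy)] at cy
      rw [h.off z (hd z hz)] at cz
      exact o2 x xK xM y hy z hz ey ez cy cz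
    · exact (mix y hy z hz ey ez cy cz).elim
    · exact (mix z hz y hy ez ey cz cy).elim
    · exact h.un x xM y hy z hz ey ez cy cz

/-- The edges of `L` are monochromatic or paid by vertices of `A`, one edge each. -/
def Tok (L : Set (Sym2 W)) (c : W → Col) (A : Set W) : Prop :=
  ∃ ω, Paid L c ω ∧ Pay L c ω ⊆ A

theorem paid_congr {L : Set (Sym2 W)} {c c' : W → Col} {ω ω' : W → W} {C : Set W}
    (hL : ∀ e ∈ L, ∀ x ∈ e, x ∈ C) (hc : ∀ x ∈ C, c' x = c x) (hω : ∀ x ∈ C, ω' x = ω x)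
    (h : Paid L c ω) : Paid L c' ω' := fun u v k => by
  have m1 := hL _ k u (Sym2.mem_mk_left _ _)
  have m2 := hL _ k v (Sym2.mem_mk_right _ _)
  rw [hc u m1, hc v m2, hω u m1, hω v m2]
  exact h u v k

theorem pay_congr {L : Set (Sym2 W)} {c c' : W → Col} {ω ω' : W → W} {C : Set W}
    (hL : ∀ e ∈ L, ∀ x ∈ e, x ∈ C) (hc : ∀ x ∈ C, c' x = c x) (hω : ∀ x ∈ C, ω' x = ω x) :
    Pay L c' ω' ⊆ Pay L c ω := fun x k => by
  have m1 := hL _ k.1 x (Sym2.mem_mk_left _ _)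
  have m2 := hL _ k.1 _ (Sym2.mem_mk_right _ _)
  obtain ⟨k1, k2⟩ := k
  rw [hc _ m1, hc _ m2] at k2
  rw [hω x m1] at k1 k2
  exact ⟨k1, k2⟩

theorem tok_empty (c : W → Col) (A : Set W) : Tok ∅ c A :=
  ⟨id, fun _ _ k => k.elim, fun _ k => k.1.elim⟩

theorem Tok.mono {L L' : Set (Sym2 W)} {c : W → Col} {A : Set W} (h : Tok L' c A) (s : L ⊆ L') :
    Tok L c A := by
  obtain ⟨ω, h1, h2⟩ := h
  exact ⟨ω, h1.mono s, (Pay.mono s).trans h2⟩

/-- one edge, monochromatic or paid by `a` -/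
theorem tok_one {a b : W} {c : W → Col} {A : Set W} (h : c a = c b ∨ a ∈ A) :
    Tok {s(a, b)} c A := by
  classical
  refine ⟨fun x => if x = a then b else x, fun u v k => ?_, fun x k => ?_⟩
  · rcases Sym2.eq_iff.1 (show s(u, v) = s(a, b) from k) with ⟨rfl, rfl⟩ | ⟨rfl, rfl⟩
    exacts [Or.inr (Or.inl (if_pos rfl)), Or.inr (Or.inr (if_pos rfl))]
  · by_cases m : x = a
    · subst m
      exact h.resolve_left fun r => k.2 (by simpa using r.symm)
    · exact (k.2 (by simp [m])).elim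

/-- two edges with different payers -/
theorem tok_two {a b a' b' : W} {c : W → Col} {A : Set W} (ne : a ≠ a') (h : c a = c b ∨ a ∈ A)
    (h' : c a' = c b' ∨ a' ∈ A) : Tok {s(a, b), s(a', b')} c A := by
  classical
  refine ⟨fun x => if x = a then b else if x = a' then b' else x, fun u v k => ?_, fun x k => ?_⟩
  · rcases k with k | k
    · rcases Sym2.eq_iff.1 k with ⟨rfl, rfl⟩ | ⟨rfl, rfl⟩
      exacts [Or.inr (Or.inl (if_pos rfl)), Or.inr (Or.inr (if_pos rfl))]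
    · rcases Sym2.eq_iff.1 (show s(u, v) = s(a', b') from k) with ⟨rfl, rfl⟩ | ⟨rfl, rfl⟩
      exacts [Or.inr (Or.inl (by simp [ne.symm])), Or.inr (Or.inr (by simp [ne.symm]))]
  · by_cases m : x = a
    · subst m
      exact h.resolve_left fun r => k.2 (by simpa using r.symm)
    by_cases m' : x = a'
    · subst m'
      exact h'.resolve_left fun r => k.2 (by simpa [m] using r.symm)
    · exact (k.2 (by simp [m, m'])).elim

/-- A one-sided output: new first path `X'`, pockets `P`, strict edges `S` of the first path; the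
extension exists if the colours of the second path and its free tokens `A` satisfy `Ψ`. -/
structure OutX (H : SimpleGraph W) (d : DD W) (S : Set (Sym2 W)) (X' P : Set W)
    (Ψ : (W → Col) → Set W → Prop) : Prop where
  sh : Sh H d.Z d.X d.I d.ρ d.a d.b X' P
  sub : S ⊆ PE H d.X
  st : ∀ e ∈ S, ∀ x ∈ e, x ∈ X'
  ext : ∀ (c c0 : W → Col) (ω : W → W) (A : Set W), (∀ x ∈ X', (c x).1 = false) →
    (∀ y ∈ d.Y, (c0 y).1 = true) → (∀ y ∈ d.Y, c y = c0 y) → Paid (PE H (d.X ∩ X') \ S) c ω →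
    Ψ c0 A → ∃ c', Rec H (d.I \ (X' ∪ P)) (Pay (PE H (d.X ∩ X') \ S) c ω ∪ (A ∩ d.Y)) c c'

variable {d : DD W} {S : Set (Sym2 W)} {X' P : Set W} {Ψ : (W → Col) → Set W → Prop}

/-- a stronger condition, fewer tokens -/
theorem OutX.imp (h : OutX H d S X' P Ψ) {Ψ' : (W → Col) → Set W → Prop}
    (k : ∀ c A, (∀ y ∈ d.Y, (c y).1 = true) → Ψ' c A →
      ∃ c' A', (∀ y ∈ d.Y, c' y = c y) ∧ Ψ c' A' ∧ ∀ y ∈ d.Y, y ∈ A' → y ∈ A) :
    OutX H d S X' P Ψ' := by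
  refine ⟨h.sh, h.sub, h.st, fun c c0 ω A h1 h2 h3 h4 h5 => ?_⟩
  obtain ⟨c1, A1, e, k1, k2⟩ := k c0 A h2 h5
  obtain ⟨c', r⟩ := h.ext c c1 ω A1 h1 (fun y hy => by rw [e y hy]; exact h2 y hy)
    (fun y hy => by rw [e y hy]; exact h3 y hy) h4 k1
  exact ⟨c', r.mono fun x _ m => m.imp_right fun g => ⟨k2 x g.2 g.1, g.2⟩⟩

theorem OutX.imp' (h : OutX H d S X' P Ψ) {Ψ' : (W → Col) → Set W → Prop}
    (k : ∀ c A, (∀ y ∈ d.Y, (c y).1 = true) → Ψ' c A → Ψ c A) : OutX H d S X' P Ψ' :=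
  h.imp fun c A h1 h2 => ⟨c, A, fun _ _ => rfl, k c A h1 h2, fun _ _ m => m⟩

theorem OutX.mono (h : OutX H d S X' P Ψ) {S' : Set (Sym2 W)} (s : S' ⊆ S) :
    OutX H d S' X' P Ψ := by
  have l : PE H (d.X ∩ X') \ S ⊆ PE H (d.X ∩ X') \ S' := fun _ k => ⟨k.1, fun m => k.2 (s m)⟩
  refine ⟨h.sh, s.trans h.sub, fun e k => h.st e (s k), fun c c0 ω A h1 h2 h3 h4 h5 => ?_⟩
  obtain ⟨c', r⟩ := h.ext c c0 ω A h1 h2 h3 (h4.mono l) h5
  exact ⟨c', r.mono fun x _ m => m.imp_left fun g => Pay.mono l g⟩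

theorem OutX.rv (h : OutX H d S X' P Ψ) : OutX H (rvD d) S X' P Ψ := ⟨h.sh.rv, h.sub, h.st, h.ext⟩

theorem OutX.rv' (h : OutX H (rvD d) S X' P Ψ) : OutX H d S X' P Ψ := by
  have := h.rv
  rwa [rv_rv] at this

/-- from the format of `S_Unh` -/
theorem outX_of {o : OD W} (D : Disc H d) (h : Shp H d S o) (s : S ⊆ PE H d.X)
    (k : ∀ (c c0 : W → Col) (ω : W → W) (A : Set W), (∀ x ∈ o.X, (c x).1 = false) →
      (∀ y ∈ d.Y, (c0 y).1 = true) → (∀ y ∈ d.Y, c y = c0 y) → Paid (PE H (d.X ∩ o.X) \ S) c ω →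
      Ψ c0 A → ∃ c', Rec H (MX d o) (Pay (PE H (d.X ∩ o.X) \ S) c ω ∪ (A ∩ d.Y)) c c') :
    OutX H d S o.X (PX d o) Ψ :=
  ⟨sh_of_shp D h, s, fun e m x r => (h.xx (PE.ends (s m) r)).resolve_right (h.st e m x r),
    by rw [← MX_eq]; exact k⟩

theorem MX_keep {o : OD W} (h : Shp H d S o) (oY : o.Y = d.Y) : MX d o = (d.upd o).I := by
  ext v
  constructor
  · rintro ⟨h1, h2⟩
    have h4 := DD.mem_I.1 h1
    refine DD.mem_I.2 ⟨fun hz => ?_, fun k => h2 (Or.inl k), fun k => h4.2.2 (oY ▸ k)⟩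
    rcases h.ap v hz h4.1 with h5 | h5
    exacts [h2 (Or.inr ⟨hz, h5.1⟩), h5.2 (oY ▸ h5.1)]
  · intro hv
    exact ⟨h.I_sub hv, fun k => k.elim (DD.mem_I.1 hv).2.1 fun m => (DD.mem_I.1 hv).1 m.1⟩

/-- an output that hides nothing on the second path -/
theorem outX_out {o : OD W} (D : Disc H d) (h : Out H d S o) (hY : ∀ y ∈ d.Y, y ∉ o.Z) :
    OutX H d (S ∩ PE H d.X) o.X (PX d o) (Tok (PE H d.Y \ S)) := by
  classical
  have oY := h.shp.keepY D hY
  refine outX_of D (h.shp.mono Set.inter_subset_left) Set.inter_subset_right ?_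
  rintro c c0 ω A h1 h2 h3 h4 ⟨ω0, h5, h6⟩
  have eX : ∀ e ∈ PE H (d.X ∩ o.X) \ (S ∩ PE H d.X), ∀ x ∈ e, x ∈ d.X :=
    fun e k x m => (PE.ends k.1 m).1
  have eY : ∀ e ∈ PE H d.Y \ S, ∀ x ∈ e, x ∈ d.Y := fun e k x m => PE.ends k.1 m
  have cs : ∀ e ∈ LE H d S o, e ∈ PE H (d.X ∩ o.X) \ (S ∩ PE H d.X) ∨ e ∈ PE H d.Y \ S := by
    rintro e ⟨k | k, m⟩
    exacts [Or.inl ⟨k, fun r => m r.1⟩, Or.inr ⟨PE.mono Set.inter_subset_left k, m⟩]
  have w1 : ∀ x ∈ d.X, (fun x => if x ∈ d.Y then ω0 x else ω x) x = ω x :=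
    fun x k => if_neg (D.xy k)
  have w2 : ∀ x ∈ d.Y, (fun x => if x ∈ d.Y then ω0 x else ω x) x = ω0 x := fun x k => if_pos k
  obtain ⟨c', r⟩ := h.ext c (fun x => if x ∈ d.Y then ω0 x else ω x) h1
    (fun y k => by rw [h3 y (oY ▸ k)]; exact h2 y (oY ▸ k))
    fun u v k => (cs _ k).elim (paid_congr eX (fun _ _ => rfl) w1 h4 u v)
      (paid_congr eY h3 w2 h5 u v)
  rw [MX_keep h.shp oY]
  refine ⟨c', r.mono fun x _ k => ?_⟩
  rcases cs _ k.1 with m | m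
  · exact Or.inl (pay_congr eX (fun _ _ => rfl) w1 ⟨m, k.2⟩)
  · exact Or.inr ⟨h6 (pay_congr eY h3 w2 ⟨m, k.2⟩), eY _ m x (Sym2.mem_mk_left _ _)⟩

/-- a second path `s x s'`, hidden or not -/
theorem outX_unh (U : S_Unh) (hP : Pl H Set.univ) (T : TA H) {o : OD W} {x : W} (D : Disc H d)
    (h : Out H d S o) (s : S ⊆ PE H d.X) (hY : d.Y = {d.a', x, d.b'}) (e1 : H.Adj d.a' x)
    (e2 : H.Adj x d.b') (ne : d.a' ≠ d.b') (n : ¬ H.Adj d.a' d.b') :
    OutX H d S o.X (PX d o)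
      fun c A => c x ≠ c d.b' ∧ d.b' ∈ A ∧ (c x = c d.a' ∨ x ∈ A) := by
  classical
  refine outX_of D h.shp s ?_
  rintro c c0 ω A h1 h2 h3 h4 ⟨h5, h6, h7⟩
  have xY : x ∈ d.Y := by rw [hY]; simp
  have eX : ∀ e ∈ PE H (d.X ∩ o.X) \ S, ∀ x ∈ e, x ∈ d.X := fun e k x m => (PE.ends k.1 m).1
  let ω' : W → W := fun v => if v = x then d.a' else if v = d.b' then x else if v ∈ d.Y then v
    else ω v
  have w1 : ∀ v ∈ d.X, ω' v = ω v := fun v k => by
    have n1 : v ≠ x := fun r => D.xy k (r ▸ xY)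
    have n2 : v ≠ d.b' := fun r => D.xy k (r ▸ D.py.hb)
    simp only [ω', if_neg n1, if_neg n2, if_neg (D.xy k)]
  have w2 : ω' x = d.a' := if_pos rfl
  have w3 : ω' d.b' = x := by simp only [ω', if_neg e2.ne', if_true]
  obtain ⟨c', r⟩ := U W H hP T d S o x D h s hY e1 e2 ne n c ω' h1
    (fun y k => by rw [h3 y k]; exact h2 y k) (paid_congr eX (fun _ _ => rfl) w1 h4) w2 w3
    (by rwa [h3 x xY, h3 _ D.py.hb])
  refine ⟨c', r.mono fun v _ k => ?_⟩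
  rcases k.1 with m | m
  · exact Or.inl (pay_congr eX (fun _ _ => rfl) w1 ⟨m, k.2⟩)
  · have vY := (mem_PE.1 m).1
    refine Or.inr ⟨?_, vY⟩
    have k2 := k.2
    by_cases n1 : v = x
    · subst n1
      rw [w2, h3 _ vY, h3 _ D.py.ha] at k2
      exact h7.resolve_left fun g => k2 g.symm
    by_cases n2 : v = d.b'
    · exact n2 ▸ h6
    · exact (k2 (by simp only [ω', if_neg n1, if_neg n2, if_pos vY])).elim

/-- export: a one-sided output is an output of the usual shape that keeps the second path -/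
theorem OutX.shp (D : Disc H d) (h : OutX H d S X' P Ψ) :
    ∃ o : OD W, Shp H d S o ∧ o.X = X' ∧ o.Y = d.Y ∧ o.Z = d.Z ∪ P ∧
      (d.upd o).I = d.I \ (X' ∪ P) ∧ MX d o = d.I \ (X' ∪ P) := by
  obtain ⟨o, h1, h2, h3, h4, h5⟩ := h.sh.shp D (S := S) fun e k x m =>
    ⟨D.xz (PE.ends (h.sub k) m), h.sh.dis x (h.st e k x m)⟩
  exact ⟨o, h1, h2, h3, h4, h5, (MX_keep h1 h3).trans h5⟩

end Pool.Agent.P.MP_08fd93_co.FB
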