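import Pool.Agent.P.MP_08fd93_co.FA.Sp1
import Pool.Agent.P.MP_08fd93_co.FA.F1
import Pool.Agent.P.MP_08fd93_co.FK.K7

/-! Depth one, the root is a spike: no hub on the right, the left side is broad. -/

set_option autoImplicit false

namespace Pool.Agent.P.MP_08fd93_co.FA

open OV FN FK FL FZ FR PkPrtP

variable {J : Type} {F : FD J} {X : XD J} {Pr : Set (Vx J)} {φ : Vx J → Vx J} {b : ℤ × ℤ}
  {G : VD J} {v l r e x : Vx J} {S P T : ℕ → Vx J} {pL pR : Prop}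

/-- two centres and a pair of pins that is split by `A` -/
theorem LB.pickA (H : LB F X Pr φ b) (j : ℤ) (A : J → Prop) (d d' : Vx J) : ∃ p t, ∃ s ∈ F.L j,
    ((p = d ∧ t = d') ∨ (p = d' ∧ t = d)) ∧ s.1 ≠ p.1 ∧ s.1 ≠ t.1 ∧
      ((∃ y ∈ F.L j, A y.1) → (∃ y ∈ F.L j, ¬ A y.1) → ¬ (A p.1 ↔ A s.1)) := by
  by_contra c
  simp only [not_exists, not_and, not_forall, not_not] at c
  obtain ⟨z, hz, z1, z2⟩ := H.off j d d'
  obtain ⟨⟨y, hy, a⟩, ⟨y', hy', a'⟩, k⟩ := c d d' z hz (Or.inl ⟨rfl, rfl⟩) z1 z2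
  obtain ⟨-, -, k'⟩ := c d' d z hz (Or.inr ⟨rfl, rfl⟩) z2 z1
  have key : ∀ y ∈ F.L j, (A y.1 ↔ A z.1) := fun y hy => by
    by_cases e : y.1 = d.1
    · exact e ▸ k
    by_cases e' : y.1 = d'.1
    · exact e' ▸ k'
    obtain ⟨-, -, o⟩ := c d d' y hy (Or.inl ⟨rfl, rfl⟩) e e'
    exact o.symm.trans k
  exact a' ((key y' hy').2 ((key y hy).1 a))

/-- the strict edges come from two orbits -/
theorem top2 (hφ : PH F Pr φ) {d d' : Vx J} {Z : Set (Sym2 (Vx J))} {A B : Prop} (C : Prop)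
    (hZ : ∀ z ∈ Z, ∃ y ∈ F.LA, φ y = e ∧ (y.1 = d.1 ∨ y.1 = d'.1) ∧ z = s(y, F.nx y))
    (h1 : (φ d).1 = e.1 ∨ (φ d').1 = e.1 → A ∨ B)
    (h2 : (φ d).1 = e.1 → (φ d').1 = e.1 → A ∧ B) :
    Z ⊆ ∅ ∨ (∃ f, Z ⊆ {f} ∧ (A ∨ B)) ∨ (∃ f f', Z ⊆ {f, f'} ∧ A ∧ B) ∨ C := by
  have o : ∀ y ∈ F.LA, φ y = e → ∀ c : Vx J, y.1 = c.1 → (φ c).1 = e.1 :=
    fun y hy a c q => (hφ.fst hy q).symm.trans (congrArg Prod.fst a)
  have u : ∀ y ∈ F.LA, φ y = e → ∀ y' : Vx J, φ y' = e → y.1 = y'.1 → y = y' :=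
    fun y hy a y' a' q => hφ.inj1 hy q (a.trans a'.symm)
  rcases Z.eq_empty_or_nonempty with q | ⟨z, hz⟩
  · exact Or.inl q.subset
  obtain ⟨y, hy, a, c, rfl⟩ := hZ z hz
  by_cases k : ∃ y' ∈ F.LA, φ y' = e ∧ (y'.1 = d.1 ∨ y'.1 = d'.1) ∧ y'.1 ≠ y.1
  · obtain ⟨y', hy', a', c', n⟩ := k
    refine Or.inr (Or.inr (Or.inl ⟨s(y, F.nx y), s(y', F.nx y'), fun z m => ?_, ?_⟩))
    · obtain ⟨t, ht, a1, c1, rfl⟩ := hZ z m
      by_cases q : t.1 = y.1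
      · exact Or.inl (by rw [u t ht a1 y a q])
      · refine Or.inr (by rw [u t ht a1 y' a' (by grind)]; rfl)
    · rcases c with c | c <;> rcases c' with c' | c'
      exacts [absurd (c'.trans c.symm) n, h2 (o y hy a _ c) (o y' hy' a' _ c'),
        h2 (o y' hy' a' _ c') (o y hy a _ c), absurd (c'.trans c.symm) n]
  · refine Or.inr (Or.inl ⟨s(y, F.nx y), fun z m => ?_, h1 (c.imp (o y hy a _) (o y hy a _))⟩)
    obtain ⟨t, ht, a1, c1, rfl⟩ := hZ z m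
    rw [u t ht a1 y a (not_not.1 fun n => k ⟨t, ht, a1, c1, n⟩)]
    rfl

/-- Two flows that begin in the two neighbours of `l` on the row one. -/
structure TW (F : FD J) (φ : Vx J → Vx J) (q : ℤ) (l : Vx J) (S P T : ℕ → Vx J) : Prop where
  ls : ∀ k : ℕ, (k : ℤ) < q → Lv F q k (S k)
  lp : ∀ k : ℕ, (k : ℤ) < q → Lv F q k (P k)
  lt : ∀ k : ℕ, (k : ℤ) < q → Lv F q k (T k)
  s1 : S 1 = pv F l
  p1 : P 1 = F.nx l
  t1 : T 1 = l
  ne : ∀ k : ℕ, (k : ℤ) < q → k ≠ 1 → (S k).1 ≠ (P k).1 ∧ (S k).1 ≠ (T k).1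
  st : ∀ k : ℕ, (k : ℤ) < q → k ≠ 0 →
    ((φ (S k)).1 = (T (nk q k)).1 ∧ (φ (P k)).1 = (P (nk q k)).1) ∨
      ((φ (S k)).1 = (P (nk q k)).1 ∧ (φ (P k)).1 = (T (nk q k)).1)

/-- The tower of rows with two flows; the pins of the row zero are chosen last. -/
theorem LB.tw (H : LB F X Pr φ b) (h1 : l ∈ F.L 1) {Q : Vx J → Vx J → Prop}
    (hQ : ∀ d d', ∃ p t, ∃ s ∈ F.L 0, ((p = d ∧ t = d') ∨ (p = d' ∧ t = d)) ∧ s.1 ≠ p.1 ∧
      s.1 ≠ t.1 ∧ Q s p) : ∃ S P T, TW F φ (F.η b) l S P T ∧ Q (S 0) (P 0) := by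
  have b2 := H.b2
  have hF := H.lay
  obtain ⟨m, hm⟩ : ∃ m : ℕ, F.η b = m + 2 := ⟨(F.η b - 2).toNat, by omega⟩
  obtain ⟨g, e0, hg⟩ := seq_ex (α := Vx J × Vx J × Vx J)
    (fun k x => x.1 ∈ F.L (k + 1 : ℕ) ∧ x.2.1 ∈ F.L (k + 1 : ℕ) ∧ x.2.2 ∈ F.L (k + 1 : ℕ))
    (fun x y => y.2.1 = φ x.2.1 ∧ y.2.2 = φ x.1 ∧ y.1.1 ≠ y.2.1.1 ∧ y.1.1 ≠ y.2.2.1)
    (pv F l, F.nx l, l) ⟨(pv_mem hF h1).1, (hF.nx_mem h1).1, h1⟩ fun k x hx => by
      obtain ⟨z, hz, z1, z2⟩ := H.off (k + 1 + 1 : ℕ) (φ x.2.1) (φ x.1)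
      exact ⟨(z, φ x.2.1, φ x.1), ⟨hz, H.up hx.2.1, H.up hx.1⟩, rfl, rfl, z1, z2⟩
  obtain ⟨p, t, s, hs, o, n1, n2, hq⟩ := hQ (φ (g m).2.1) (φ (g m).1)
  have lc : ∀ x ∈ F.L (m + 1 : ℕ), Lv F (F.η b) 0 (φ x) := fun x hx => by
    have := H.lv_phi (H.lv_l hx) (by push_cast; omega)
    rwa [nk_b (by push_cast; omega)] at this
  have c1 := lc _ (hg m).1.1
  have c2 := lc _ (hg m).1.2.1
  refine ⟨fun k => Nat.casesOn k s fun k => (g k).1, fun k => Nat.casesOn k p fun k => (g k).2.1,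
    fun k => Nat.casesOn k t fun k => (g k).2.2, ⟨?_, ?_, ?_, congrArg (·.1) e0,
      congrArg (·.2.1) e0, congrArg (·.2.2) e0, ?_, ?_⟩, hq⟩
  · rintro (_ | k) -
    exacts [H.lv_l (k := 0) hs, H.lv_l (hg k).1.1]
  · rintro (_ | k) -
    exacts [o.elim (fun o => o.1 ▸ c2) fun o => o.1 ▸ c1, H.lv_l (hg k).1.2.1]
  · rintro (_ | k) -
    exacts [o.elim (fun o => o.2 ▸ c1) fun o => o.2 ▸ c2, H.lv_l (hg k).1.2.2]
  · rintro (_ | _ | k) - n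
    exacts [⟨n1, n2⟩, absurd rfl n, (hg k).2.2.2]
  · rintro (_ | k) l n
    · exact absurd rfl n
    by_cases e : ((k + 1 : ℕ) : ℤ) + 1 < F.η b
    · rw [nk_a e]
      exact Or.inl ⟨congrArg Prod.fst (hg k).2.2.1.symm, congrArg Prod.fst (hg k).2.1.symm⟩
    · rw [nk_b e]
      obtain rfl : k = m := by omega
      exact o.imp (fun o => ⟨congrArg Prod.fst o.2.symm, congrArg Prod.fst o.1.symm⟩)
        fun o => ⟨congrArg Prod.fst o.1.symm, congrArg Prod.fst o.2.symm⟩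

/-- The orbits of the plan; `x` is the second arrival on the row one. -/
def ETW (q : ℤ) (S P T : ℕ → Vx J) (x : J) : EJ J :=
  ⟨{i | (∃ k : ℕ, (k : ℤ) < q ∧ k ≠ 1 ∧ i = (S k).1) ∨ ((i = (S 1).1 ∨ i = (P 1).1) ∧ i ≠ x)},
    {i | (∃ k : ℕ, (k : ℤ) < q ∧ i = (T k).1) ∨ (i = x ∧ i ≠ (S 1).1 ∧ i ≠ (P 1).1)},
    {i | (∃ k : ℕ, (k : ℤ) < q ∧ k ≠ 1 ∧ i = (P k).1) ∨ (i = x ∧ (i = (S 1).1 ∨ i = (P 1).1))}, ∅⟩

theorem etw_pn {q : ℤ} (h : 1 < q) {i y : J} :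
    i ∈ (ETW q S P T y).Pn ↔ ∃ k : ℕ, (k : ℤ) < q ∧ (i = (S k).1 ∨ i = (P k).1) := by
  constructor
  · rintro ((⟨k, a, -, c⟩ | ⟨c, -⟩) | ⟨k, a, -, c⟩ | ⟨-, c⟩)
    exacts [⟨k, a, Or.inl c⟩, ⟨1, h, c⟩, ⟨k, a, Or.inr c⟩, ⟨1, h, c⟩]
  · rintro ⟨k, a, c⟩
    by_cases n : k = 1
    · subst n
      by_cases m : i = y
      exacts [Or.inr (Or.inr ⟨m, c⟩), Or.inl (Or.inr ⟨c, m⟩)]
    · exact c.imp (fun c => Or.inl ⟨k, a, n, c⟩) fun c => Or.inl ⟨k, a, n, c⟩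

theorem TW.col [Fintype J] (h : SR G v l r) (H : LB (FL G) (XL G) G.Pr φ b)
    (W : TW (FL G) φ (G.η b) l S P T) (lx : Lv (FL G) (G.η b) 1 x) (nx : x.1 ≠ l.1) (hr : HR G)
    (cs : (pL ∧ ¬ pR ∧ (((φ (S 0)).1 = l.1 ∧ (φ (P 0)).1 = x.1) ∨
        ((φ (P 0)).1 = l.1 ∧ (φ (S 0)).1 = x.1))) ∨
      (¬ pL ∧ pR ∧ x = r ∧ (φ (S 0)).1 = l.1 ∧ (φ (P 0)).1 = l.1 ∧
        ((S 0).1 = (pv (FL G) (G.xl v)).1 ∨ (P 0).1 = (pv (FL G) (G.xl v)).1))) :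
    ∃ c, Col1 G.Γ ∅ c := by
  have hF := H.lay
  have hφ := H.ph
  have R := h.rows
  have b2 : 2 ≤ G.η b := H.b2
  have l0 : ((0 : ℕ) : ℤ) < G.η b := by omega
  have l1 : ((1 : ℕ) : ℤ) < G.η b := by omega
  have pn : ∀ {i : J}, i ∈ (ETW (G.η b) S P T x.1).Pn ↔ _ := etw_pn (by omega)
  have la := R.la h.l1
  obtain ⟨a1, a2, a3⟩ := pv_mem hF h.l1
  obtain ⟨c1, c2, -⟩ := hF.nx_mem h.l1
  have n3 : 3 ≤ (FL G).nn 1 := h.n3 1
  have dif : ∀ y ∈ (FL G).L 1, ∀ z ∈ (FL G).L 1, (FL G).ρ y < (FL G).ρ z →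
      (FL G).ρ z < (FL G).ρ y + 3 → y.1 ≠ z.1 := fun y hy z hz o o' => by
    have := l_ne hF 1 o (by omega)
    rwa [hF.l_rho hy, hF.l_rho hz] at this
  have n1 : (S 1).1 ≠ l.1 := W.s1 ▸ dif _ a1 _ h.l1 (by omega) (by omega)
  have n2 : l.1 ≠ (P 1).1 := W.p1 ▸ dif _ h.l1 _ c1 (by omega) (by omega)
  have n4 : (S 1).1 ≠ (P 1).1 := W.s1 ▸ W.p1 ▸ dif _ a1 _ c1 (by omega) (by omega)
  have t1 := congrArg Prod.fst W.t1
  have uni : ∀ {k k' : ℕ} {y z : Vx J}, Lv (FL G) (G.η b) k y → Lv (FL G) (G.η b) k' z →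
      y.1 = z.1 → (k : ℤ) < G.η b → (k' : ℤ) < G.η b → k = k' := H.lv_eq
  have sk : ∀ {k : ℕ} {y : Vx J}, (k : ℤ) < G.η b → Lv (FL G) (G.η b) k y →
      y.1 ∈ (ETW (G.η b) S P T x.1).Sk → y.1 = (T k).1 ∨
        (k = 1 ∧ y.1 = x.1 ∧ x.1 ≠ (S 1).1 ∧ x.1 ≠ (P 1).1) := by
    rintro k y o a (⟨k', o', c⟩ | c)
    · obtain rfl := uni a (W.lt k' o') c o o'
      exact Or.inl c
    · exact Or.inr ⟨uni a lx c.1 o l1, c.1, c.1 ▸ c.2⟩
  have lj : ∀ {j : ℤ} {k : ℕ} {y : Vx J}, G.η b ∣ j - k → y ∈ G.L j → Lv (FL G) (G.η b) k y :=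
    fun d hy => ⟨hF.la hy, by rwa [hF.lf _ _ hy]⟩
  refine SK.col (E := ETW (G.η b) S P T x.1) (m0 := x.1) (pL := pL) (pR := pR) h hφ
    ⟨?_, fun j => ?_, fun j s hs s' hs' m m' lt => ?_, cs.imp And.left fun c => c.2.1,
      cs.imp And.left fun c => Or.inr (pn.2 ⟨0, l0, c.2.2.2.2.2.imp Eq.symm Eq.symm⟩),
      Or.inr (Or.inl hr), fun e he => ?_⟩
  · rintro i (⟨k, o, n, rfl⟩ | ⟨c, n⟩)
    · refine ⟨fun m => ?_, ?_⟩
      · exact (sk o (W.ls k o) m).elim (W.ne k o n).2 fun c => n c.1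
      · rintro (⟨k', o', -, c⟩ | c)
        · obtain rfl := uni (W.ls k o) (W.lp k' o') c o o'
          exact (W.ne k o n).1 c
        · exact n (uni (W.ls k o) lx c.1 o l1)
    · refine ⟨?_, ?_⟩
      · rintro (⟨k, o, d⟩ | d)
        · rcases c with rfl | rfl
          · obtain rfl := uni (W.ls 1 l1) (W.lt k o) d l1 o
            exact n1 (d.trans t1)
          · obtain rfl := uni (W.lp 1 l1) (W.lt k o) d l1 o
            exact n2 (d.trans t1).symm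
        · exact n d.1
      · rintro (⟨k, o, n', d⟩ | d)
        · rcases c with rfl | rfl
          exacts [n' (uni (W.ls 1 l1) (W.lp k o) d l1 o).symm,
            n' (uni (W.lp 1 l1) (W.lp k o) d l1 o).symm]
        · exact n d.1
  · obtain ⟨k, o, d⟩ := H.lv_of j
    obtain ⟨y, hy, q⟩ := H.lv_ex (W.lt k o) d
    exact Or.inl ⟨y, hy, Or.inl ⟨k, o, q⟩⟩
  · obtain ⟨k, o, d⟩ := H.lv_of j
    obtain ⟨g, hg, q⟩ := H.lv_ex (W.ls k o) d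
    have m1 := sk o (lj d hs) m
    have m2 := sk o (lj d hs') m'
    by_cases n : k = 1
    swap
    · have m1 := m1.resolve_right fun c => n c.1
      obtain ⟨z, hz, e2, k1⟩ := H.btw hs hs' hg (m1.trans (m2.resolve_right fun c => n c.1).symm)
        (fun c => (W.ne k o n).2 (q.symm.trans (c.trans m1))) lt
      exact ⟨z, hz, Or.inl ⟨k, o, n, e2.trans q⟩, k1⟩
    subst n
    rw [t1] at m1 m2
    by_cases u : s'.1 = l.1 ∧ (S 1).1 ≠ x.1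
    · obtain ⟨p1, p2, p3⟩ := pv_mem hF hs'
      have p4 : (pv (FL G) s').1 = (S 1).1 := W.s1 ▸ (R.nx_orb (R.la p1) (R.la a1)).1 (by
        show ((FL G).nx _).1 = ((FL G).nx _).1
        rw [p3, a3, u.1])
      have p2 : G.ρ (pv (FL G) s') = G.ρ s' - 1 := p2
      refine ⟨_, p1, Or.inr ⟨Or.inl p4, p4 ▸ u.2⟩, lt_of_le_of_ne (by omega) fun c => ?_, by omega⟩
      rw [← R.inj hs p1 c] at p4
      exact m1.elim (fun c => n1 (p4.symm.trans c)) fun c => u.2 (p4.symm.trans c.2.1)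
    by_cases u' : s.1 = l.1 ∧ (P 1).1 ≠ x.1
    · obtain ⟨p1, p2, -⟩ := R.nx_mem hs
      have p4 : (G.nx s).1 = (P 1).1 := W.p1 ▸ (R.nx_orb (R.la hs) la).2 u'.1
      refine ⟨_, p1, Or.inr ⟨Or.inr p4, p4 ▸ u'.2⟩, by omega, lt_of_le_of_ne (by omega) fun c => ?_⟩
      rw [R.inj p1 hs' c] at p4
      exact m2.elim (fun c => n2 (c.symm.trans p4)) fun c => u'.2 (p4.symm.trans c.2.1)
    have k2 : s'.1 = x.1 ∧ x.1 ≠ (S 1).1 ∧ x.1 ≠ (P 1).1 := by grind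
    have k1 : s.1 = x.1 := by grind
    obtain ⟨z, hz, e2, k1⟩ := H.btw hs hs' hg (k1.trans k2.1.symm)
      (fun c => k2.2.1 (q.symm.trans (c.trans k1)).symm) lt
    exact ⟨z, hz, Or.inr ⟨Or.inl (e2.trans q), fun c => k2.2.1 (c.symm.trans (e2.trans q))⟩, k1⟩
  have lev : ∀ {e : Vx J} {k : ℕ}, (k : ℤ) < G.η b → G.η b ∣ G.f e - 1 - k → ∀ y ∈ G.LA,
      y ∈ P0 (ETW (G.η b) S P T x.1) → φ y = e → y.1 = (S k).1 ∨ y.1 = (P k).1 := by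
    intro e k o d y hy m a
    have f1 : G.f (φ y) = G.f y + 1 := hφ.lev hF hy
    have ly : Lv (FL G) (G.η b) k y := ⟨hy, by
      rwa [← a, f1, add_sub_cancel_right] at d⟩
    obtain ⟨k', o', c | c⟩ := pn.1 m
    · obtain rfl := uni ly (W.ls k' o') c o o'
      exact Or.inl c
    · obtain rfl := uni ly (W.lp k' o') c o o'
      exact Or.inr c
  have und : ∀ g : Vx J, g ∈ G.LA → (φ g).1 = l.1 → ∃ y ∈ G.LA, y.1 = g.1 ∧ φ y = l :=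
    fun g hg q => ⟨tr (l.2 - (φ g).2) g, (hF.la_tr _ _).2 hg, rfl, by
      rw [hφ.eqv _ _ hg, ← FK.eq_tr q]⟩
  by_cases el : e.1 = l.1
  · refine Or.inr (Or.inr (Or.inr ⟨l.2 - e.2, ?_⟩))
    rw [← FK.eq_tr el]
    have d0 : G.η b ∣ G.f l - 1 - (0 : ℕ) := by
      rw [R.uw.lf _ _ h.l1]
      exact dvd_zero _
    refine Or.inr (Or.inr (Or.inr ⟨?_, Or.inl ⟨Or.inl ⟨1, l1, t1.symm⟩, Or.inr ⟨?_, ?_⟩⟩⟩))
    · rcases cs with ⟨-, np, c⟩ | ⟨np, -, rfl, c, c', -⟩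
      · obtain ⟨g, hg, g1, g2⟩ : ∃ g ∈ G.LA, φ g = l ∧ ∀ y ∈ G.LA,
            y ∈ P0 (ETW (G.η b) S P T x.1) → φ y = l → y.1 = g.1 := by
          rcases c with c | c
          · obtain ⟨g, hg, g1, g2⟩ := und _ (W.ls 0 l0).1 c.1
            exact ⟨g, hg, g2, fun y hy m a => ((lev l0 d0 y hy m a).resolve_right fun q =>
              nx (c.2.symm.trans ((hφ.fst hy q).symm.trans (congrArg _ a)))).trans g1.symm⟩
          · obtain ⟨g, hg, g1, g2⟩ := und _ (W.lp 0 l0).1 c.1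
            exact ⟨g, hg, g2, fun y hy m a => ((lev l0 d0 y hy m a).resolve_left fun q =>
              nx (c.2.symm.trans ((hφ.fst hy q).symm.trans (congrArg _ a)))).trans g1.symm⟩
        refine ⟨_, h.pe_l0, _, h.pe_row hφ hg g1, h.ss_sub hφ la (fun y hy m a => Or.inr ?_)
          (fun _ a q => Or.inl ?_) fun q => absurd q np⟩
        · rw [hφ.inj1 hy (g2 y hy m a) (a.trans g1.symm)]
          rfl
        · rw [tr_eq_self q.symm, tr_zero, tr_zero]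
      · obtain ⟨g, hg, g1, g2⟩ := und _ (W.ls 0 l0).1 c
        obtain ⟨g', hg', g1', g2'⟩ := und _ (W.lp 0 l0).1 c'
        refine ⟨_, h.pe_row hφ hg g2, _, h.pe_row hφ hg' g2', h.ss_sub hφ la (fun y hy m a => ?_)
          (fun q => absurd q np) fun _ a q => absurd (congrArg Prod.fst q).symm nx⟩
        rcases lev l0 d0 y hy m a with q | q
        · exact Or.inl (by rw [hφ.inj1 hy (q.trans g1.symm) (a.trans g2.symm)])
        · exact Or.inr (by rw [hφ.inj1 hy (q.trans g1'.symm) (a.trans g2'.symm)]; rfl)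
    · have := (vis_pin (G := G) (P := P0 (ETW (G.η b) S P T x.1)) (R.la a1)
        (pn.2 ⟨1, l1, Or.inl (congrArg Prod.fst W.s1.symm)⟩)).2
      rwa [show G.nx (pv (FL G) l) = l from a3] at this
    · exact (vis_pin (G := G) (P := P0 (ETW (G.η b) S P T x.1)) (R.la c1)
        (pn.2 ⟨1, l1, Or.inr (congrArg Prod.fst W.p1.symm)⟩)).1
  obtain ⟨k, o, d⟩ := H.lv_of (G.f e - 1)
  have xs : e.1 = x.1 → e.1 ∈ (ETW (G.η b) S P T x.1).Sk ∨ e.1 ∈ (ETW (G.η b) S P T x.1).Ps :=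
    fun q => by
      by_cases c : e.1 = (S 1).1 ∨ e.1 = (P 1).1
      exacts [Or.inr (Or.inr ⟨q, c⟩), Or.inl (Or.inr ⟨q, not_or.1 c⟩)]
  have fin := fun (C : Prop) (q : pR → ∀ a, e ≠ tr a r) =>
    top2 (Z := SS G (P0 (ETW (G.η b) S P T x.1)) pL pR e) (A := e.1 ∈ (ETW (G.η b) S P T x.1).Sk)
      (B := e.1 ∈ (ETW (G.η b) S P T x.1).Ps) hφ C
      (h.ss_sub hφ he (S := {z | ∃ y ∈ (FL G).LA, φ y = e ∧ (y.1 = (S k).1 ∨ y.1 = (P k).1) ∧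
        z = s(y, (FL G).nx y)}) (fun y hy m a => ⟨y, hy, a, lev o d y hy m a, rfl⟩)
        (fun _ a c => absurd (congrArg Prod.fst c) el) fun p a c => absurd c (q p a))
  by_cases n : k = 0
  · subst n
    rcases cs with ⟨-, np, c⟩ | ⟨np, -, rfl, c, c', -⟩
    · exact fin _ (fun q => absurd q np) (fun q => xs (by grind)) fun q q' => by grind
    by_cases er : e.1 = x.1
    swap
    · exact fin _ (fun _ a q => er (by rw [q]; rfl)) (fun q => by grind) fun q => by grind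
    refine Or.inr (Or.inl ⟨s(tr (e.2 - x.2) v, tr (e.2 - x.2) (G.xl v)), h.ss_sub hφ he
      (fun y hy m a => ?_) (fun q => absurd q np) fun _ a q => ?_, xs er⟩)
    · exact absurd ((congrArg Prod.fst a).symm.trans ((lev o d y hy m a).elim
        (fun q => (hφ.fst hy q).trans c) fun q => (hφ.fst hy q).trans c')) el
    · rw [tr_eq_tr (q.symm.trans (FK.eq_tr er.symm))]
      rfl
  have o' := nk_lt (show 0 < G.η b by omega) k
  have n' : nk (G.η b) k ≠ 1 := by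
    unfold nk
    split_ifs <;> omega
  have mt : ∀ {i : J}, i = (T (nk (G.η b) k)).1 → i ∈ (ETW (G.η b) S P T x.1).Sk :=
    fun q => Or.inl ⟨_, o', q⟩
  have mp : ∀ {i : J}, i = (P (nk (G.η b) k)).1 → i ∈ (ETW (G.η b) S P T x.1).Ps :=
    fun q => Or.inl ⟨_, o', n', q⟩
  refine fin _ (fun _ a q => n (uni (y := tr a (G.xl v)) (lj d ?_) (H.lv_l (k := 0) h.u0.1) rfl o
    l0)) (fun q => ?_) fun q q' => ?_
  · rw [q, R.wp.per, R.uw.lf _ _ h.r1, show 1 + G.η a - 1 = 0 + G.η a by ring]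
    exact (R.uw.ltr a 0 _).2 h.u0.1
  · rcases W.st k o n with c | c <;> rcases q with q | q
    exacts [Or.inl (mt (q.symm.trans c.1)), Or.inr (mp (q.symm.trans c.2)),
      Or.inr (mp (q.symm.trans c.1)), Or.inl (mt (q.symm.trans c.2))]
  · rcases W.st k o n with c | c
    exacts [⟨mt (q.symm.trans c.1), mp (q'.symm.trans c.2)⟩,
      ⟨mt (q'.symm.trans c.2), mp (q.symm.trans c.1)⟩]

/-- the two side edges lie in one orbit only in the funnel -/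
theorem SR.lr_ne (h : SR G v l r) (n : ¬ Funnel G) : r.1 ≠ l.1 := fun c => n fun y hy => by
  have hF := h.sv.lay
  have V := h.sv.vf
  obtain ⟨k, -, q⟩ := same_cls hF h.l1 h.r1 c.symm
  obtain ⟨n1, n2, -⟩ := hF.nx_mem h.l1
  have lt := (h.sv.isL_le h.hl.1 h.hr.1.1 (h.hr.2.trans h.hl.2.symm)).2
  obtain ⟨t, t1, t2⟩ := window hF hy ((FL G).ρ l + 1)
  have m := (hF.w_mem t hy).1
  have n3 : 3 ≤ (FL G).nn 1 := h.n3 1
  have lt : (FL G).ρ l < (FL G).ρ r := lt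
  have := V.btw n1 (h.sv.pr _) m (h.sv.pr _) h.r1 (h.sv.pr _)
    (show (FL G).ρ _ ≤ (FL G).ρ _ by omega)
    (show (FL G).ρ _ ≤ (FL G).ρ _ by rcases le_or_gt k 0 with c | c <;> nlinarith)
    (h.hl.2.trans h.hr.2.symm) (h.hl.2.symm ▸ h.vk)
  rw [V.atr, show G.an ((FL G).nx l) = v from h.hl.2] at this
  exact (h.eK _).2 (by rw [← this]; rfl)

/-- on a broad side the last edge of the row zero lies under the side edge -/
theorem SR.broad (h : SR G v l r) (hφ : PH (FL G) G.Pr φ) (n : G.an l ≠ G.xl v) :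
    φ (pv (FL G) (G.xl v)) = l := by
  have hF := h.sv.lay
  have V := h.sv.vf
  obtain ⟨a1, a2, -⟩ := pv_mem hF h.u0.1
  obtain ⟨n1, n2, -⟩ := h.rows.nx_mem h.l1
  have a2 : G.ρ (pv (FL G) (G.xl v)) = G.ρ (G.xl v) - 1 := a2
  refine (hφ.uni _ (hF.la a1) l ?_).symm
  unfold Und
  rw [hF.lf _ _ a1]
  refine ⟨h.l1, h.sv.pr l, ?_, fun t ht _ c => ?_⟩
  · have m := (V.mono' h.l1 (h.sv.pr _) n1 (h.sv.pr _) (by omega)).1
    rw [h.hl.2] at m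
    have : G.ρ (G.xl (G.an l)) ≠ G.ρ (G.xl v) := fun c => by
      have c := h.rows.inj (by simpa using (V.feet h.l1 (h.sv.pr _)).1) h.u0.1 c
      by_cases k : G.an l ∈ G.K
      · obtain ⟨a, ha⟩ := h.k_tr k
        rw [ha, (V.xtr a v).1] at c
        rw [tr_eq_self c, tr_zero] at ha
        exact (SR.edL h).2.2 ha
      · exact n ((V.xo _ k).1.symm.trans c)
    show G.ρ (G.xl (G.an l)) ≤ G.ρ (pv (FL G) (G.xl v))
    omega
  · have c : G.ρ l < G.ρ t := c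
    have m := (V.mono' n1 (h.sv.pr _) ht (h.sv.pr _) (by omega)).1
    rw [h.hl.2] at m
    show G.ρ (pv (FL G) (G.xl v)) < G.ρ (G.xl (G.an t))
    omega

theorem s1p : S_S1p := by
  rintro J _ Γ η f v an G D ⟨nf, hr, l, el, br⟩
  obtain ⟨l', r, h⟩ := D.sr
  have hF := h.sv.lay
  obtain rfl : l = l' := h.sv.isL_uni h.hl.1
    ⟨h.rows.la el.1, el.2.1.symm ▸ h.vk, el.2.1.symm ▸ el.2.2⟩ (el.2.1.trans h.hl.2.symm)
  obtain ⟨φ, hφ⟩ := ph_ex hF D.H.vf.pne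
  obtain ⟨b, H⟩ := lb_ex hF hφ h.n3 h.rows.wp.ev
  have b2 : 2 ≤ G.η b := H.b2
  have l0 : ((0 : ℕ) : ℤ) < G.η b := by omega
  have en := (pv_mem hF h.u0.1).1
  rw [← D.H.eΓ]
  by_cases c : ∀ y ∈ G.L 0, (φ y).1 = l.1
  · obtain ⟨S, P, T, W, q⟩ := H.tw h.l1 (Q := fun s p => s.1 = (pv (FL G) (G.xl v)).1 ∨
      p.1 = (pv (FL G) (G.xl v)).1) fun d d' =>
        let ⟨p, t, s, hs, o, n1, n2, n3, _⟩ := H.pick d d' en en
        ⟨p, t, s, hs, o, n1, n2, n3⟩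
    have key : ∀ y, Lv (FL G) (G.η b) 0 y → (φ y).1 = l.1 := fun y hy =>
      let ⟨z, hz, e⟩ := H.lv_ex hy (j := 0) (dvd_zero _)
      (hφ.fst (hF.la hz) e).symm.trans (c z hz)
    exact W.col (pL := False) (pR := True) h H (H.lv_l (k := 1) h.r1) (SR.lr_ne h nf) hr
      (Or.inr ⟨id, trivial, rfl, key _ (W.ls 0 l0), key _ (W.lp 0 l0), q⟩)
  · let A : J → Prop := fun i => ∃ y ∈ G.LA, y.1 = i ∧ (φ y).1 = l.1
    have hA : ∀ y ∈ G.LA, A y.1 ↔ (φ y).1 = l.1 := fun y hy =>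
      ⟨fun ⟨z, hz, e, k⟩ => (hφ.fst hz e).symm.trans k, fun k => ⟨y, hy, rfl, k⟩⟩
    simp only [not_forall] at c
    obtain ⟨y, hy, c⟩ := c
    obtain ⟨S, P, T, W, q⟩ := H.tw h.l1 (Q := fun s p => ¬ (A p.1 ↔ A s.1)) fun d d' =>
      let ⟨p, t, s, hs, o, n1, n2, n3⟩ := H.pickA 0 A d d'
      ⟨p, t, s, hs, o, n1, n2, n3 ⟨_, en, (hA _ (hF.la en)).2 (congrArg _ (SR.broad h hφ br))⟩
        ⟨y, hy, fun k => c ((hA y (hF.la hy)).1 k)⟩⟩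
    rw [hA _ (W.ls 0 l0).1, hA _ (W.lp 0 l0).1] at q
    have up : ∀ y, Lv (FL G) (G.η b) 0 y → Lv (FL G) (G.η b) 1 (φ y) := fun y hy => by
      have := H.lv_phi hy l0
      rwa [nk_a (by push_cast; exact b2)] at this
    by_cases k : (φ (S 0)).1 = l.1
    · exact W.col (pL := True) (pR := False) h H (up _ (W.lp 0 l0))
        (fun m => q (iff_of_true m k)) hr (Or.inl ⟨trivial, id, Or.inl ⟨k, rfl⟩⟩)
    · exact W.col (pL := True) (pR := False) h H (up _ (W.ls 0 l0)) k hr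
        (Or.inl ⟨trivial, id, Or.inr ⟨not_not.1 fun m => q (iff_of_false m k), rfl⟩⟩)

end Pool.Agent.P.MP_08fd93_co.FA
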