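import Pool.Agent.P.MP_08fd93_co.FU.Z1

/-! Cutting a disc at an inner vertex: the geometry. -/

set_option autoImplicit false

namespace Pool.Agent.P.MP_08fd93_co.FB

open OV FU

variable {W : Type} {H : SimpleGraph W} {d : DD W}

/-- a part of a disc; inner vertices may become boundary vertices -/
theorem sub_disc (h : Disc H d) {d' : DD W} {I1 : Set W}
    (px : Pth H d'.X d'.ρ d'.a d'.b) (py : Pth H d'.Y d'.ρ d'.a' d'.b')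
    (dxy : Disjoint d'.X d'.Y) (ra : H.Adj d'.a d'.a') (rb : H.Adj d'.b d'.b')
    (hZ : ∀ x, x ∈ d'.Z ↔ x ∉ d'.X ∧ x ∉ d'.Y ∧ x ∉ I1) (i1 : I1 ⊆ d.I)
    (cz : ∀ x ∈ d'.X ∪ d'.Y, x ∉ d.Z ∧ x ∉ I1)
    (cl : ∀ x ∈ I1, ∀ y, H.Adj x y → y ∉ d'.Z)
    (jk : ∀ x ∈ d.I, x ∈ d'.Z → ∃ y, Conn H d'.Z x y ∧ y ∉ d.I)
    (tz : ∀ x ∈ d'.X ∪ d'.Y, x ∈ d.I → x ∈ Nb H d'.Z) : Disc H d' ∧ d'.I = I1 := by
  have zZ : d.Z ⊆ d'.Z := fun x hx => (hZ x).2 ⟨fun k => (cz x (Or.inl k)).1 hx,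
    fun k => (cz x (Or.inr k)).1 hx, fun k => i1 k (Or.inl hx)⟩
  have eI : d'.I = I1 := by
    ext x
    rw [DD.mem_I, hZ]
    constructor
    · rintro ⟨h1, h2, h3⟩
      by_contra k
      exact h1 ⟨h2, h3, k⟩
    · intro k
      exact ⟨fun m => m.2.2 k, fun m => (cz x (Or.inl m)).2 k, fun m => (cz x (Or.inr m)).2 k⟩
  have old : ∀ y, y ∉ d.I → y ∈ d.Z ∨ ∃ z ∈ d.Z, H.Adj y z := fun y hy => by
    rcases d.cases y with k | k | k | k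
    exacts [Or.inl k, Or.inr (h.tz (Or.inl k)), Or.inr (h.tz (Or.inr k)), absurd k hy]
  refine ⟨⟨px, py, dxy, ra, rb, ?_, ?_, ?_, ?_, eI ▸ h.fin.subset i1, eI ▸ h.nj.mono i1⟩, eI⟩
  · refine isConn_base h.zc zZ fun x hx => ?_
    have key : ∀ y, Conn H d'.Z x y → y ∉ d.I → ∃ z ∈ d.Z, Conn H d'.Z x z := by
      intro y cy hy
      rcases old y hy with k | ⟨z, hz, e⟩
      exacts [⟨y, k, cy⟩, ⟨z, hz, cy.snoc (cy.mem hx) (zZ hz) e⟩]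
    by_cases k : x ∈ d.I
    · obtain ⟨y, cy, hy⟩ := jk x k hx
      exact key y cy hy
    · exact key x Conn.rfl' k
  · exact Set.disjoint_left.2 fun x hx k => k.elim ((hZ x).1 hx).1 ((hZ x).1 hx).2.1
  · rintro x ⟨z, hz, e⟩
    by_contra hc
    have : x ∈ I1 := eI ▸ hc
    exact cl x this z e hz
  · intro x hx
    by_cases k : x ∈ d.I
    · exact tz x hx k
    · obtain ⟨z, hz, e⟩ := (old x k).resolve_left (cz x hx).1
      exact ⟨z, zZ hz, e⟩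

/-- a part that hangs on `p`, `u`, `q` forces the edge `p q` -/
theorem tri3 (hP : Pl H Set.univ) (h : Disc H d) {E : Set W} {p q u : W} (hE : E ⊆ d.I)
    (ne : E.Nonempty) (cE : IsConn H E) (hp : p ∈ d.X ∪ d.Y) (hq : q ∈ d.X ∪ d.Y) (hu : u ∈ d.I)
    (uE : u ∉ E) (up : H.Adj u p) (uq : H.Adj u q) (hN : Nb H E ⊆ E ∪ {p, q, u}) :
    H.Adj p q := by
  have fE := h.fin.subset hE
  have key : ∀ a b : W, H.Adj u b → Nb H E ⊆ E ∪ {a, b, u} → a ∈ Nb H E ∧ a ≠ b := by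
    intro a b ub k
    by_contra hc
    refine h.nj E hE fE ne u b (Or.inr ub) fun x hx => ?_
    rcases k hx with m | rfl | rfl | rfl
    · exact Or.inl m
    · exact Or.inr (Or.inr (by_contra fun n => hc ⟨hx, n⟩))
    · exact Or.inr (Or.inr rfl)
    · exact Or.inr (Or.inl rfl)
  obtain ⟨np, pq⟩ := key p q uq hN
  obtain ⟨nq, -⟩ := key q p up (by rwa [Set.insert_comm])
  have out : ∀ x, x ∉ d.I → x ∈ (({u} : Set W) ∪ E)ᶜ := by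
    rintro x hx (rfl | k)
    exacts [hx hu, hx (hE k)]
  have sZ : d.Z ⊆ (({u} : Set W) ∪ E)ᶜ := fun x hx => out x fun k => k (Or.inl hx)
  obtain ⟨z1, h1, e1⟩ := h.tz hp
  obtain ⟨z2, h2, e2⟩ := h.tz hq
  have op := out p fun k => k (Or.inr hp)
  obtain ⟨z, hz, e⟩ := (tim hP (Set.disjoint_singleton_left.2 uE) (isConn_single u) cE fE np nq op
    (((Conn.step op (sZ h1) e1).trans ((h.zc _ h1 _ h2).up sZ)).snoc (sZ h2)
      (out q fun k => k (Or.inr hq)) e2.symm)).first pq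
  rcases hN hz.1 with k | rfl | rfl | rfl
  exacts [absurd (Or.inr k) hz.2, absurd rfl e.ne, e, absurd (Or.inl rfl) hz.2]

/-- a step in the link of `u` that avoids the connected set `A` -/
theorem link_step (hP : Pl H Set.univ) {A : Set W} {u p q : W} (cA : IsConn H A) (uA : u ∉ A)
    (up : H.Adj u p) (uq : H.Adj u q) (pA : p ∉ A) (pq : p ≠ q)
    (hc : Conn H (A ∪ {u})ᶜ p q) : ∃ z, H.Adj u z ∧ H.Adj p z ∧ z ∉ A := by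
  obtain ⟨z, hz, e⟩ := (tim hP (Set.disjoint_singleton_right.2 uA) cA (isConn_single u)
    (Set.finite_singleton u) ⟨u, rfl, up.symm⟩ ⟨u, rfl, uq.symm⟩
    (fun k => k.elim pA up.ne') hc).first pq
  obtain ⟨_, rfl, e'⟩ := hz.1
  exact ⟨z, e'.symm, e, fun k => hz.2 (Or.inl k)⟩

/-- An inner vertex `u` that sees `p` on `X`; `ql`, `qj` are its extreme neighbours on `Y`. -/
structure Hub (H : SimpleGraph W) (d : DD W) (u p ql qj : W) : Prop where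
  disc : Disc H d
  hu : u ∈ d.I
  hp : p ∈ d.X
  up : H.Adj u p
  hl : ql ∈ d.Y
  hj : qj ∈ d.Y
  ul : H.Adj u ql
  uj : H.Adj u qj
  ex : ∀ y ∈ d.Y, H.Adj u y → d.ρ ql ≤ d.ρ y ∧ d.ρ y ≤ d.ρ qj
  nd : ql = qj → ¬ H.Adj p ql

variable {u p ql qj : W}

theorem Hub.rv (h : Hub H d u p ql qj) : Hub H (rvD d) u p qj ql :=
  ⟨disc_rv h.disc, h.hu, h.hp, h.up, h.hj, h.hl, h.uj, h.ul, fun y hy e => by
    have := h.ex y hy e
    change 0 - _ ≤ 0 - _ ∧ 0 - _ ≤ 0 - _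
    omega, fun e => e ▸ h.nd e.symm⟩

theorem Hub.lj (h : Hub H d u p ql qj) : d.ρ ql ≤ d.ρ qj := (h.ex _ h.hl h.ul).2

theorem Hub.fan3 (hP : Pl H Set.univ) (h : Hub H d u p ql qj) {E Q1 Q2 : Set W}
    (cE : IsConn H E) (c1 : IsConn H Q1) (c2 : IsConn H Q2) (s1 : Q1 ⊆ d.Y) (s2 : Q2 ⊆ d.Y)
    (d12 : Disjoint Q1 Q2) (hE : ∀ x ∈ E, x ∉ d.Z ∧ x ≠ u ∧ x ≠ p ∧ x ∉ Q1 ∧ x ∉ Q2)
    (l1 : ql ∈ Q1) (l2 : qj ∈ Q2) (t0 : p ∈ Nb H E) (t1 : Touch H E Q1) (t2 : Touch H E Q2) :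
    False := by
  have D := h.disc
  have tZ : ∀ {A : Set W} (w : W), w ∈ A → w ∈ d.X ∪ d.Y → Touch H d.Z A := fun w hw hc => by
    obtain ⟨z, hz, e⟩ := D.tz hc
    exact ⟨z, hz, w, hw, e.symm⟩
  have uI := DD.mem_I.1 h.hu
  obtain ⟨w, hw, ew⟩ := t0
  exact k33 hP D.zc (isConn_single u) cE (isConn_single p) c1 c2
    (Set.disjoint_singleton_right.2 uI.1) (Set.disjoint_right.2 fun x hx => (hE x hx).1)
    (Set.disjoint_right.2 fun x hx => (hE x hx).2.1)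
    (Set.disjoint_singleton_left.2 fun k => D.xy h.hp (s1 k))
    (Set.disjoint_singleton_left.2 fun k => D.xy h.hp (s2 k)) d12
    ⟨Set.disjoint_singleton_right.2 (D.xz h.hp), Set.disjoint_right.2 fun x hx => D.yz (s1 hx),
      Set.disjoint_right.2 fun x hx => D.yz (s2 hx)⟩
    ⟨Set.disjoint_singleton.2 h.up.ne, Set.disjoint_singleton_left.2 fun k => uI.2.2 (s1 k),
      Set.disjoint_singleton_left.2 fun k => uI.2.2 (s2 k)⟩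
    ⟨Set.disjoint_left.2 fun x hx => (hE x hx).2.2.1,
      Set.disjoint_left.2 fun x hx => (hE x hx).2.2.2.1,
      Set.disjoint_left.2 fun x hx => (hE x hx).2.2.2.2⟩
    ⟨tZ p rfl (Or.inl h.hp), tZ ql l1 (Or.inr h.hl), tZ qj l2 (Or.inr h.hj)⟩
    ⟨⟨u, rfl, p, rfl, h.up⟩, ⟨u, rfl, ql, l1, h.ul⟩, ⟨u, rfl, qj, l2, h.uj⟩⟩
    ⟨⟨w, hw, p, rfl, ew.symm⟩, t1, t2⟩

theorem ylo_conn (h : Disc H d) (k : ℤ) : IsConn H {y | y ∈ d.Y ∧ d.ρ y < k} :=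
  h.py.seg_conn (fun _ hx => hx.1) fun _ _ _ hy _ hx _ l => ⟨hx, lt_trans l hy.2⟩

theorem yhi_conn (h : Disc H d) (k : ℤ) : IsConn H {y | y ∈ d.Y ∧ k < d.ρ y} :=
  h.py.seg_conn (fun _ hx => hx.1) fun _ hy _ _ _ hx l _ => ⟨hx, lt_trans hy.2 l⟩

/-- nothing joins `p` to a vertex strictly between `ql` and `qj` -/
theorem Hub.nomid (hP : Pl H Set.univ) (h : Hub H d u p ql qj) {E : Set W} (hE : E ⊆ d.I \ {u})
    {z : W} (hz : z ∈ d.Y) (l1 : d.ρ ql < d.ρ z) (l2 : d.ρ z < d.ρ qj)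
    (cE : IsConn H (E ∪ {z})) (t0 : p ∈ Nb H (E ∪ {z})) : False := by
  have D := h.disc
  obtain ⟨a, ha, la, ea, -⟩ := D.py.pred hz (by
    rintro rfl
    have := D.py.lo _ h.hl
    omega)
  obtain ⟨b, hb, lb, eb, -⟩ := D.py.succ hz (by
    rintro rfl
    have := D.py.hi _ h.hj
    omega)
  refine h.fan3 hP cE (ylo_conn D (d.ρ z)) (yhi_conn D (d.ρ z)) (fun _ k => k.1) (fun _ k => k.1)
    (Set.disjoint_left.2 fun x k k' => lt_asymm k.2 k'.2) ?_ ⟨h.hl, l1⟩ ⟨h.hj, l2⟩ t0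
    ⟨z, Or.inr rfl, a, ⟨ha, la⟩, ea.symm⟩ ⟨z, Or.inr rfl, b, ⟨hb, lb⟩, eb⟩
  rintro x (k | rfl)
  · have m := DD.mem_I.1 (hE k).1
    exact ⟨m.1, (hE k).2, fun e => m.2.1 (e ▸ h.hp), fun e => m.2.2 e.1, fun e => m.2.2 e.1⟩
  · exact ⟨D.yz hz, fun e => (DD.mem_I.1 h.hu).2.2 (e ▸ hz), fun e => D.xy h.hp (e ▸ hz),
      fun e => lt_irrefl _ e.2, fun e => lt_irrefl _ e.2⟩

theorem Hub.th (hP : Pl H Set.univ) (h : Hub H d u p ql qj) {q : W} (hq : q ∈ d.Y)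
    (uq : H.Adj u q) {E : Set W} (hE : E ⊆ d.I \ {u}) (cE : IsConn H E) {x y : W}
    (hx : x ∈ d.Lo p q) (hy : y ∈ d.Hi p q) : ¬ H.Adj x y ∧ ¬ (x ∈ Nb H E ∧ y ∈ Nb H E) :=
  h.disc.theta hP h.hp hq (T := {u}) (by rintro _ rfl; exact h.hu) (isConn_single u)
    (Or.inr ⟨⟨u, rfl, h.up.symm⟩, ⟨u, rfl, uq.symm⟩⟩) (fun _ k => (hE k).1) cE
    (Set.disjoint_singleton_right.2 fun k => (hE k).2 rfl) hx hy

/-- rungs do not cross the cut -/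
theorem Hub.cr (hP : Pl H Set.univ) (h : Hub H d u p ql qj) : ∀ x ∈ d.X, ∀ y ∈ d.Y, H.Adj x y →
    (d.ρ x ≤ d.ρ p ∧ d.ρ y ≤ d.ρ ql) ∨ (d.ρ p ≤ d.ρ x ∧ d.ρ qj ≤ d.ρ y) := by
  intro x hx y hy e
  have a1 : ¬ (d.ρ x < d.ρ p ∧ d.ρ ql < d.ρ y) := fun k =>
    (h.th hP h.hl h.ul (Set.empty_subset _) isConn_empty (Or.inl ⟨hx, k.1⟩)
      (Or.inr ⟨hy, k.2⟩)).1 e
  have a2 : ¬ (d.ρ y < d.ρ qj ∧ d.ρ p < d.ρ x) := fun k =>
    (h.th hP h.hj h.uj (Set.empty_subset _) isConn_empty (Or.inr ⟨hy, k.1⟩)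
      (Or.inl ⟨hx, k.2⟩)).1 e.symm
  have a3 : ¬ (d.ρ x = d.ρ p ∧ d.ρ ql < d.ρ y ∧ d.ρ y < d.ρ qj) := fun k => by
    obtain rfl := h.disc.px.inj x hx p h.hp k.1
    exact h.nomid hP (Set.empty_subset _) hy k.2.1 k.2.2 (by simpa using isConn_single y)
      ⟨y, Or.inr rfl, e⟩
  omega

/-- The part of the interior whose attachments other than `u` lie in `C`. -/
def Rg (H : SimpleGraph W) (d : DD W) (u : W) (C : Set W) : Set W :=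
  {x | x ∈ d.I \ {u} ∧ ∀ y, Conn H (d.I \ {u}) x y → ∀ z, H.Adj y z → z ∈ d.I ∨ z ∈ C}

theorem Rg.cl {C : Set W} {x y : W} (hx : x ∈ Rg H d u C) (c : Conn H (d.I \ {u}) x y) :
    y ∈ Rg H d u C := ⟨c.mem hx.1, fun w cw => hx.2 w (c.trans cw)⟩

theorem Rg.nb {C : Set W} {x z : W} (hx : x ∈ Rg H d u C) (e : H.Adj x z) :
    z ∈ Rg H d u C ∨ z = u ∨ z ∈ C := by
  rcases hx.2 x Conn.rfl' z e with k | k
  · by_cases m : z = u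
    exacts [Or.inr (Or.inl m), Or.inl (Rg.cl hx (Conn.step hx.1 ⟨k, m⟩ e))]
  · exact Or.inr (Or.inr k)

/-- the attachments of a component that lies in two regions -/
theorem Rg.two {C C' : Set W} {x : W} (hx : x ∈ Rg H d u C) (hx' : x ∈ Rg H d u C') :
    Nb H {y | Conn H (d.I \ {u}) x y} ⊆ {y | Conn H (d.I \ {u}) x y} ∪ ({u} ∪ (C ∩ C')) := by
  rintro z ⟨y, hy, e⟩
  by_cases k : z ∈ d.I
  · by_cases m : z = u
    exacts [Or.inr (Or.inl m), Or.inl (Conn.snoc hy (Conn.mem hy hx.1) ⟨k, m⟩ e.symm)]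
  · exact Or.inr (Or.inr ⟨(hx.2 y hy z e.symm).resolve_left k,
      (hx'.2 y hy z e.symm).resolve_left k⟩)

theorem Rg.dis1 (D : Disc H d) {C C' : Set W} {q : W} (uq : H.Adj u q) (hC : C ∩ C' ⊆ {q})
    {x : W} (hx : x ∈ Rg H d u C) : x ∉ Rg H d u C' := fun hx' => by
  have s : {y | Conn H (d.I \ {u}) x y} ⊆ d.I := fun y hy => (Conn.mem hy hx.1).1
  refine D.nj _ s (D.fin.subset s) ⟨x, Conn.rfl'⟩ u q (Or.inr uq) fun z hz => ?_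
  rcases Rg.two hx hx' hz with k | k | k
  exacts [Or.inl k, Or.inr (Or.inl k), Or.inr (Or.inr (hC k))]

theorem Rg.dis2 (hP : Pl H Set.univ) (D : Disc H d) (hu : u ∈ d.I) {C C' : Set W} {q q' : W}
    (hq : q ∈ d.X ∪ d.Y) (hq' : q' ∈ d.X ∪ d.Y) (uq : H.Adj u q) (uq' : H.Adj u q')
    (n : ¬ H.Adj q q') (hC : C ∩ C' ⊆ {q, q'}) {x : W} (hx : x ∈ Rg H d u C) :
    x ∉ Rg H d u C' := fun hx' => by
  refine n (tri3 hP D (E := {y | Conn H (d.I \ {u}) x y}) (fun y hy => (Conn.mem hy hx.1).1)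
    ⟨x, Conn.rfl'⟩ (isConn_comp _ _) hq hq' hu (fun k => (Conn.mem k hx.1).2 rfl) uq uq'
    fun z hz => ?_)
  rcases Rg.two hx hx' hz with k | k | k
  · exact Or.inl k
  · exact Or.inr (Or.inr (Or.inr k))
  · rcases hC k with m | m
    exacts [Or.inr (Or.inl m), Or.inr (Or.inr (Or.inl m))]

/-- a vertex outside the region reaches an attachment outside `C` -/
theorem Rg.out (D : Disc H d) {C : Set W} {x : W} (hx : x ∈ d.I \ {u}) (hn : x ∉ Rg H d u C) :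
    ∃ y z, Conn H (d.I \ {u}) x y ∧ H.Adj y z ∧ z ∈ d.X ∪ d.Y ∧ z ∉ C := by
  by_contra hc
  refine hn ⟨hx, fun y cy z e => ?_⟩
  by_contra k
  rw [not_or] at k
  rcases d.cases z with m | m | m | m
  exacts [D.iz (cy.mem hx).1 e m, hc ⟨y, z, cy, e, Or.inl m, k.2⟩,
    hc ⟨y, z, cy, e, Or.inr m, k.2⟩, k.1 m]

/-- The vertices of `Y` from `ql` to `qj`. -/
def YM (d : DD W) (ql qj : W) : Set W := {y | y ∈ d.Y ∧ d.ρ ql ≤ d.ρ y ∧ d.ρ y ≤ d.ρ qj}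

/-- The vertices of `Y` strictly between `ql` and `qj`. -/
def YN (d : DD W) (ql qj : W) : Set W := {y | y ∈ d.Y ∧ d.ρ ql < d.ρ y ∧ d.ρ y < d.ρ qj}

theorem Hub.cov (hP : Pl H Set.univ) (h : Hub H d u p ql qj) {x : W} (hx : x ∈ d.I \ {u}) :
    x ∈ Rg H d u (d.Lf p ql) ∨ x ∈ Rg H d u (d.Rt p qj) ∨ x ∈ Rg H d u (YM d ql qj) := by
  have D := h.disc
  by_contra hc
  simp only [not_or] at hc
  obtain ⟨y1, z1, c1, e1, b1, n1⟩ := Rg.out D hx hc.1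
  obtain ⟨y2, z2, c2, e2, b2, n2⟩ := Rg.out D hx hc.2.1
  obtain ⟨y3, z3, c3, e3, b3, n3⟩ := Rg.out D hx hc.2.2
  have hE : {y | Conn H (d.I \ {u}) x y} ⊆ d.I \ {u} := fun y hy => Conn.mem hy hx
  have cE := isConn_comp (H := H) (d.I \ {u}) x
  have t1 : z1 ∈ Nb H {y | Conn H (d.I \ {u}) x y} := ⟨y1, c1, e1.symm⟩
  have t2 : z2 ∈ Nb H {y | Conn H (d.I \ {u}) x y} := ⟨y2, c2, e2.symm⟩
  have t3 : z3 ∈ Nb H {y | Conn H (d.I \ {u}) x y} := ⟨y3, c3, e3.symm⟩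
  have m1 : z1 ∈ d.Hi p ql := by
    rcases b1 with k | k
    · exact Or.inl ⟨k, not_le.1 fun l => n1 (Or.inl ⟨k, l⟩)⟩
    · exact Or.inr ⟨k, not_le.1 fun l => n1 (Or.inr ⟨k, l⟩)⟩
  have m2 : z2 ∈ d.Lo p qj := by
    rcases b2 with k | k
    · exact Or.inl ⟨k, not_le.1 fun l => n2 (Or.inl ⟨k, l⟩)⟩
    · exact Or.inr ⟨k, not_le.1 fun l => n2 (Or.inr ⟨k, l⟩)⟩
  have nlo : ∀ z ∈ Nb H {y | Conn H (d.I \ {u}) x y}, z ∉ d.Lo p ql := fun z hz k =>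
    (h.th hP h.hl h.ul hE cE k m1).2 ⟨hz, t1⟩
  have nhi : ∀ z ∈ Nb H {y | Conn H (d.I \ {u}) x y}, z ∉ d.Hi p qj := fun z hz k =>
    (h.th hP h.hj h.uj hE cE m2 k).2 ⟨t2, hz⟩
  have g3 : z3 = p := by
    rcases b3 with k | k
    · by_contra n
      rcases D.px.lt_or k h.hp n with l | l
      exacts [nlo z3 t3 (Or.inl ⟨k, l⟩), nhi z3 t3 (Or.inl ⟨k, l⟩)]
    · exact absurd ⟨k, not_lt.1 fun l => nlo z3 t3 (Or.inr ⟨k, l⟩),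
        not_lt.1 fun l => nhi z3 t3 (Or.inr ⟨k, l⟩)⟩ n3
  subst g3
  have g1 : z1 ∈ d.Y ∧ d.ρ ql < d.ρ z1 := m1.resolve_left fun k => nhi z1 t1 (Or.inl k)
  have g2 : z2 ∈ d.Y ∧ d.ρ z2 < d.ρ qj := m2.resolve_left fun k => nlo z2 t2 (Or.inl k)
  have f1 : d.ρ z1 ≤ d.ρ qj := not_lt.1 fun l => nhi z1 t1 (Or.inr ⟨g1.1, l⟩)
  have f2 : d.ρ ql ≤ d.ρ z2 := not_lt.1 fun l => nlo z2 t2 (Or.inr ⟨g2.1, l⟩)
  have mid : ∀ z ∈ Nb H {y | Conn H (d.I \ {u}) x y}, z ∈ d.Y → d.ρ ql < d.ρ z →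
      d.ρ z < d.ρ qj → False := fun z hz k l1 l2 =>
    h.nomid hP hE k l1 l2 (cE.union_nb (by rintro _ rfl; exact hz))
      ⟨y3, Or.inl c3, e3.symm⟩
  by_cases l : d.ρ z1 < d.ρ qj
  · exact mid z1 t1 g1.1 g1.2 l
  by_cases l' : d.ρ ql < d.ρ z2
  · exact mid z2 t2 g2.1 l' g2.2
  refine h.fan3 hP cE (ylo_conn D (d.ρ ql + 1)) (yhi_conn D (d.ρ ql)) (fun _ k => k.1)
    (fun _ k => k.1) (Set.disjoint_left.2 fun w k k' => by have := k.2; have := k'.2; omega)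
    (fun w k => ?_) ⟨h.hl, by omega⟩ ⟨h.hj, by omega⟩ t3
    ⟨y2, c2, z2, ⟨g2.1, by omega⟩, e2⟩ ⟨y1, c1, z1, g1, e1⟩
  have m := DD.mem_I.1 (hE k).1
  exact ⟨m.1, (hE k).2, fun e => m.2.1 (e ▸ h.hp), fun e => m.2.2 e.1, fun e => m.2.2 e.1⟩

end Pool.Agent.P.MP_08fd93_co.FB
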