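import Pool.Agent.P.MP_08fd93_co.FB.C9

/-! The bump lemma. -/

set_option autoImplicit false

namespace Pool.Agent.P.MP_08fd93_co.FB

open OV FU OV.PkIndP

variable {W : Type} {H : SimpleGraph W} {d dL dR : DD W} {K : Set W} {u v p x y ql qj : W}

/-- Both upper edges are strict, or the first or last lower edge and one upper edge are strict
and the other upper edge is monochromatic or paid by `v`. -/
def BumpR (H : SimpleGraph W) (d : DD W) (v : W) : Prop :=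
  (∃ X' P, OutX H d ∅ X' P fun _ _ => True) ∨
    ∃ e ∈ PE H d.X, (d.a ∈ e ∨ d.b ∈ e) ∧ ∃ X' P,
      (OutX H d {e} X' P fun c A => c v = c d.b' ∨ v ∈ A) ∨
        OutX H d {e} X' P fun c A => c v = c d.a' ∨ v ∈ A

theorem BumpR.rv' (h : BumpR H (rvD d) v) : BumpR H d v := by
  rcases h with ⟨X', P, h⟩ | ⟨e, he, k, X', P, h⟩
  exacts [Or.inl ⟨X', P, h.rv'⟩, Or.inr ⟨e, he, k.symm, X', P, h.symm.imp OutX.rv' OutX.rv'⟩]

theorem first_edge (D : Disc H d) (ne : d.a ≠ d.b) :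
    ∃ x ∈ d.X, H.Adj d.a x ∧ ∀ y ∈ d.X, y ≠ d.a → d.ρ x ≤ d.ρ y := by
  obtain ⟨x, hx, l, e, -⟩ := D.px.succ D.px.ha ne
  refine ⟨x, hx, e, fun y hy n => ?_⟩
  have := D.px.nb D.px.ha hx e hy
  have := D.px.lo_lt hy n
  omega

theorem sep_pair {e e' : Sym2 W} (he : e ∈ PE H d.X ∪ PE H d.Y) (he' : e' ∈ PE H d.X ∪ PE H d.Y)
    (hx : x ∈ d.X) (hy : y ∈ d.Y) (a : H.Adj x y) (k : ∀ z ∈ e, z ∈ d.Lf x y)
    (k' : ∀ z ∈ e', z ∈ d.Rt x y) : Adm H d {e, e'} :=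
  adm_pair he he' (Or.inl ⟨x, hx, y, hy, a, k, k'⟩)

theorem mem2 {P : W → Prop} {a b : W} (ha : P a) (hb : P b) : ∀ z ∈ s(a, b), P z := fun z k => by
  rcases Sym2.mem_iff.1 k with rfl | rfl
  exacts [ha, hb]

theorem Cut.nu (h : Cut H d u p ql qj dL dR K) (k : y ∈ d.Y) : y ≠ u :=
  fun r => Y_I k (r ▸ h.hub.hu)

theorem Cut.nu' (h : Cut H d u p ql qj dL dR K) (k : x ∈ d.X) : x ≠ u :=
  fun r => X_I k (r ▸ h.hub.hu)

/-- `u` sees only `v` on the second path -/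
theorem Bump.caseB (U : S_Unh) (hP : Pl H Set.univ) (T : TA H) (h : Bump H d v)
    (nv : ¬ H.Adj d.a v) (hu : u ∈ d.I) (ua : H.Adj u d.a) (uv : H.Adj u v)
    (n1 : ¬ H.Adj u d.a') (n2 : ¬ H.Adj u d.b') {e : Sym2 W} (he : e ∈ PE H d.X) :
    ∃ X' P, OutX H d {e} X' P fun c A => c v = c d.b' ∨ v ∈ A := by
  have D := h.disc
  have hb : Hub H d u d.a v v := ⟨D, hu, D.px.ha, ua, h.hv, h.hv, uv, uv, fun y k a => by
    rcases h.cases k with rfl | rfl | rfl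
    exacts [absurd a n1, ⟨le_rfl, le_rfl⟩, absurd a n2], fun _ => nv⟩
  obtain ⟨dL, dR, K, C⟩ := hb.cut hP
  have bL : Bump H dL v := ⟨C.l.disc, C.lL, C.l.ea' ▸ h.e1, C.l.eb' ▸ uv.symm, by
    rw [C.l.ea', C.l.eb']
    exact C.nu D.py.ha⟩
  have bR : Bump H dR v := ⟨C.r.disc, C.jR, C.r.ea' ▸ uv, C.r.eb' ▸ h.e2, by
    rw [C.r.ea', C.r.eb']
    exact (C.nu D.py.hb).symm⟩
  obtain ⟨o1, O1⟩ := ty hP T C.l.disc.swap (C.l.ea.trans C.l.eb.symm) bL.m1 bL.m2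
  have he' : e ∈ PE H dR.X := PE.mono (fun x k => (C.r.eX x).2 ⟨k, D.px.lo x k⟩) he
  obtain ⟨o2, O2⟩ := T dR {e} C.r.disc (Adm.single (Or.inl he'))
  have OL := bL.out1 (S0 := ∅) O1.swap (Or.inl rfl) (Set.empty_subset _) (Set.empty_subset _)
  have OR := bR.unh' U hP T O2 (Set.singleton_subset_iff.2 he')
  refine ⟨_, _, (C.top_short hP T (Or.inl rfl) OL OR fun c A h1 h2 => ?_).mono
    Set.subset_union_right⟩
  obtain ⟨k, k1, k2⟩ := oth (c v)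
  refine ⟨k, ∅, {u} ∪ A, k1.trans (h1 v h.hv), fun n => absurd rfl n, fun g => absurd g k2,
    fun g => absurd g k2, fun g => g.elim, fun _ g => g.elim, fun _ _ _ g => g.elim,
    fun y m _ g => g.resolve_left (C.nu m), fun c1 g1 g2 => ⟨Or.inl (Or.inr rfl), ?_⟩⟩
  rw [C.r.ea', C.r.eb', g1, g2 v h.hv, g2 _ D.py.hb]
  exact ⟨k2, Or.inl rfl, h2.imp_right Or.inr⟩

/-- `u` sees the first upper edge and two vertices of the first path -/
theorem Bump.caseC1 (hP : Pl H Set.univ) (T : TA H) (h : Bump H d v)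
    (hu : u ∈ d.I) (ua : H.Adj u d.a) (us : H.Adj u d.a') (uv : H.Adj u v)
    (n2 : ¬ H.Adj u d.b') (hx : x ∈ d.X) (ux : H.Adj u x) (nx : x ≠ d.a) : BumpR H d v := by
  have D := h.disc
  have l1 := h.l1
  have hb : Hub H d u d.a d.a' v := ⟨D, hu, D.px.ha, ua, D.py.ha, h.hv, us, uv, fun y k a => by
    rcases h.cases k with rfl | rfl | rfl
    exacts [⟨le_rfl, l1.le⟩, ⟨l1.le, le_rfl⟩, absurd a n2], fun e => absurd e h.e1.ne⟩
  obtain ⟨dL, dR, K, C⟩ := hb.cut hP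
  obtain ⟨x1, h1, e1, m1⟩ := first_edge D fun r => nx (D.px.inj _ hx _ D.px.ha
    (le_antisymm (r ▸ D.px.hi x hx) (D.px.lo x hx)))
  have bR : Bump H dR v := ⟨C.r.disc, C.jR, C.r.ea' ▸ uv, C.r.eb' ▸ h.e2, by
    rw [C.r.ea', C.r.eb']
    exact (C.nu D.py.hb).symm⟩
  have tL : H.Adj dL.a' dL.b' := by
    rw [C.l.ea', C.l.eb']
    exact us.symm
  obtain ⟨o1, O1⟩ := T dL {s(dL.a', dL.b')} C.l.disc
    (Adm.single (Or.inr (mem_PE.2 ⟨C.l.disc.py.ha, C.l.disc.py.hb, tL⟩)))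
  have inR : ∀ z ∈ d.X, z ∈ dR.X := fun z k => (C.r.eX z).2 ⟨k, D.px.lo z k⟩
  have he : s(d.a, x1) ∈ PE H d.X := mem_PE.2 ⟨D.px.ha, h1, e1⟩
  have he' : s(d.a, x1) ∈ PE H dR.X := PE.mono inR he
  have lf : ∀ z ∈ d.X, d.ρ z ≤ d.ρ x → z ∈ dR.Lf x u := fun z k l => Or.inl ⟨inR z k, by
    rw [C.r.eρ z (C.nu' k), C.r.eρ x (C.nu' hx)]
    exact l⟩
  have rt : ∀ z ∈ dR.Y, z ∈ dR.Rt x u := fun z k => Or.inr ⟨k, C.r.ea' ▸ C.r.disc.py.lo z k⟩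
  obtain ⟨o2, O2⟩ := T dR {s(d.a, x1), s(v, dR.b')} C.r.disc (sep_pair (Or.inl he') (Or.inr bR.m2)
    (inR x hx) C.uR ux.symm (mem2 (lf _ D.px.ha (D.px.lo x hx)) (lf _ h1 (m1 x hx nx)))
    (mem2 (rt _ bR.hv) (rt _ C.r.disc.py.hb)))
  have OL := out_top2 (S0 := ∅) C.l.disc O1 tL (Set.empty_subset _) (Set.empty_subset _)
  have OR := bR.out2 (S0 := {s(d.a, x1)}) O2 (Or.inr rfl) (by simp)
    (Set.singleton_subset_iff.2 he')
  refine Or.inr ⟨_, he, Or.inl (Sym2.mem_mk_left _ _), _, _, Or.inr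
    ((C.top_short hP T (Or.inr h.e1) OL OR fun c A h1 h2 => ?_).mono Set.subset_union_right)⟩
  by_cases g : c v = c d.a'
  · obtain ⟨k, k1, k2⟩ := oth (c v)
    refine ⟨k, ∅, {u}, k1.trans (h1 v h.hv), fun _ m => k2 m.2, fun m => absurd (g.trans m) k2,
      fun m => absurd m k2, fun m => m.elim, fun _ m => m.elim, fun _ _ _ m => m.elim,
      fun y m _ r => absurd r (C.nu m), fun c1 _ _ => ⟨Or.inl rfl, ?_⟩⟩
    exact Or.inr (Or.inr (Or.inr C.r.ea'))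
  · refine ⟨c v, ∅, ∅, h1 v h.hv, fun _ m => g m.1.symm, fun m => absurd m.symm g,
      fun _ => ⟨h2.resolve_left g, id, fun _ => id, id, id⟩, fun m => m.elim, fun _ m => m.elim,
      fun _ _ _ m => m.elim, fun _ _ _ m => m.elim, fun c1 g1 g2 => ⟨Or.inl rfl, ?_⟩⟩
    rw [C.r.ea', g1, g2 v h.hv]
    exact Or.inr (Or.inl rfl)

/-- `u` sees the first upper edge and only the first vertex of the first path -/
theorem Bump.caseC2 (hP : Pl H Set.univ) (T : TA H) (h : Bump H d v) (ne : d.a ≠ d.b)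
    (nv : ¬ H.Adj d.a v) (hu : u ∈ d.I) (ua : H.Adj u d.a) (us : H.Adj u d.a') (uv : H.Adj u v)
    (nx : ∀ x ∈ d.X, H.Adj u x → x = d.a) : BumpR H d v := by
  have D := h.disc
  have hb : Hub H d.swap u v d.a d.a := ⟨D.swap, (DD.swap_I d).symm ▸ hu, h.hv, uv, D.px.ha,
    D.px.ha, ua, ua, fun y k a => by rw [nx y k a]; exact ⟨le_rfl, le_rfl⟩,
    fun _ e => nv e.symm⟩
  obtain ⟨dL, dR, K, C⟩ := hb.cut hP
  obtain ⟨x1, h1, e1, -⟩ := first_edge D ne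
  have la : dL.a = d.a' := C.l.ea
  have rb : dR.b = d.b' := C.r.eb
  have tL : H.Adj dL.a dL.b := by
    rw [la, C.l.eb]
    exact h.e1
  have tR : H.Adj dR.a dR.b := by
    rw [rb, C.r.ea]
    exact h.e2
  have m0 : s(d.a, u) ∈ PE H dL.Y := mem_PE.2 ⟨C.lL, C.uL, ua.symm⟩
  have lf : ∀ z ∈ dL.Y, z ∈ dL.swap.Lf u dL.a := fun z k =>
    Or.inl ⟨k, C.l.eb' ▸ C.l.disc.py.hi z k⟩
  have rt : ∀ z ∈ dL.X, z ∈ dL.swap.Rt u dL.a := fun z k => Or.inr ⟨k, C.l.disc.px.lo z k⟩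
  obtain ⟨o1, O1⟩ := T dL.swap {s(d.a, u), s(dL.a, dL.b)} C.l.disc.swap (sep_pair (Or.inl m0)
    (Or.inr (mem_PE.2 ⟨C.l.disc.px.ha, C.l.disc.px.hb, tL⟩)) C.uL C.l.disc.px.ha (la ▸ us)
    (mem2 (lf _ C.lL) (lf _ C.uL)) (mem2 (rt _ C.l.disc.px.ha) (rt _ C.l.disc.px.hb)))
  have he : s(d.a, x1) ∈ PE H d.X := mem_PE.2 ⟨D.px.ha, h1, e1⟩
  have he' : s(d.a, x1) ∈ PE H dR.Y :=
    PE.mono (fun z k => (C.r.eY z).2 (Or.inl ⟨k, D.px.lo z k⟩)) he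
  obtain ⟨o2, O2⟩ := T dR.swap {s(d.a, x1)} C.r.disc.swap (Adm.single (Or.inl he'))
  have OL := out_top2 (S0 := {s(d.a, u)}) C.l.disc.swap O1 tL (by simp)
    (Set.singleton_subset_iff.2 m0)
  have OR := out_top2 C.r.disc.swap O2 tR subset_rfl (Set.singleton_subset_iff.2 he')
  refine Or.inr ⟨_, he, Or.inl (Sym2.mem_mk_left _ _), _, _, Or.inl
    ((C.bot_short hP T (Or.inl rfl) OL OR (OL.st _ rfl _ (Sym2.mem_mk_left _ _))
      (OR.st _ rfl _ (Sym2.mem_mk_left _ _)) (Or.inr ⟨rfl, Or.inl rfl⟩) fun c A _ h2 =>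
        ⟨∅, A, Or.inl (Or.inr rfl), ?_, fun m => m.elim, fun _ _ _ m => m.elim,
          fun _ _ _ m => m⟩).mono (Set.singleton_subset_iff.2 ⟨Or.inr rfl, he⟩))⟩
  change _ ∨ c dR.a = c dR.b ∨ dR.a ∈ A ∨ _
  rw [rb, C.r.ea]
  exact Or.inr (h2.imp_right Or.inl)

/-- `u` sees the four corners -/
theorem Bump.caseD (hP : Pl H Set.univ) (T : TA H) (h : Bump H d v) (ne : d.a ≠ d.b)
    (hu : u ∈ d.I) (ua : H.Adj u d.a) (ub : H.Adj u d.b) (us : H.Adj u d.a')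
    (us' : H.Adj u d.b') : ∃ X' P, OutX H d ∅ X' P fun _ _ => True := by
  have D := h.disc
  have hb : Hub H d.swap u d.a' d.a d.b := ⟨D.swap, (DD.swap_I d).symm ▸ hu, D.py.ha, us, D.px.ha,
    D.px.hb, ua, ub, fun y k _ => ⟨D.px.lo y k, D.px.hi y k⟩, fun e => absurd e ne⟩
  obtain ⟨dL, dR, K, C⟩ := hb.cut hP
  have rb : dR.b = d.b' := C.r.eb
  have m0 : s(d.a, u) ∈ PE H dL.Y := mem_PE.2 ⟨C.lL, C.uL, ua.symm⟩
  have m1 : s(d.b, u) ∈ PE H dR.Y := mem_PE.2 ⟨C.jR, C.uR, ub.symm⟩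
  obtain ⟨o1, O1⟩ := T dL.swap {s(d.a, u)} C.l.disc.swap (Adm.single (Or.inl m0))
  have OL := out_top1 C.l.disc.swap O1 (C.l.ea.trans C.l.eb.symm) subset_rfl
    (Set.singleton_subset_iff.2 m0)
  have DR := C.r.disc
  have ra : dR.a = d.a' := C.r.ea
  have bR : Bump H dR.swap v := ⟨DR.swap, (C.r.eX v).2 ⟨h.hv, h.l1.le⟩,
    (ra ▸ h.e1 : H.Adj dR.a v), (rb ▸ h.e2 : H.Adj v dR.b), (ra ▸ rb ▸ h.ne : dR.a ≠ dR.b)⟩
  have ss : ∀ e ∈ PE H dR.X, SS H dR.swap e s(d.b, u) := fun e k =>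
    Or.inl ⟨u, C.uR, dR.b, DR.px.hb, rb ▸ us',
      fun z m => Or.inr ⟨PE.ends k m, DR.px.hi z (PE.ends k m)⟩,
      fun z m => Or.inl ⟨PE.ends m1 m, C.r.ea' ▸ DR.py.lo z (PE.ends m1 m)⟩⟩
  have fan : Pr H dR s(v, dR.a) s(v, dR.b) := Or.inl ⟨dR.a, DR.px.ha, dR.b, DR.px.hb, u, C.uR,
    C.r.ea ▸ us.symm, rb ▸ us'.symm, fun z m => by
      have k : z ∈ dR.X := m.elim (PE.ends bR.m1) (PE.ends bR.m2)
      exact ⟨k, DR.px.lo z k, DR.px.hi z k⟩⟩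
  have A : AdmP H dR.swap {s(d.b, u), s(v, dR.a), s(v, dR.b)} := by
    refine ⟨?_, ?_, ?_⟩
    · rintro _ (rfl | rfl | rfl)
      exacts [Or.inl m1, Or.inr bR.m1, Or.inr bR.m2]
    · rintro _ (rfl | rfl | rfl) _ (rfl | rfl | rfl) n
      exacts [absurd rfl n, Or.inl (ss _ bR.m1).symm, Or.inl (ss _ bR.m2).symm,
        Or.inl (ss _ bR.m1), absurd rfl n, Or.inr (Or.inr fan), Or.inl (ss _ bR.m2),
        Or.inr (Or.inr fan.symm), absurd rfl n]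
    · have s1 := ss _ bR.m1
      have s2 := ss _ bR.m2
      rintro _ (rfl | rfl | rfl) _ (rfl | rfl | rfl) _ (rfl | rfl | rfl) n1 n2 n3 <;>
        first
        | exact absurd rfl n1
        | exact absurd rfl n2
        | exact absurd rfl n3
        | exact Or.inl s1
        | exact Or.inl s2
        | exact Or.inl s1.symm
        | exact Or.inl s2.symm
        | exact Or.inr (Or.inl s1)
        | exact Or.inr (Or.inl s2)
  obtain ⟨o2, O2⟩ := tp hP T DR.swap A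
  have OR := bR.out1 (S0 := {s(d.b, u)}) O2 (Or.inr (Or.inl rfl)) (by simp)
    (Set.singleton_subset_iff.2 m1)
  have dv : Div d d.a' (fun _ _ => True) (fun _ _ => True) fun c A =>
      s(v, dR.swap.b') ∈ ({s(d.b, u), s(v, dR.a), s(v, dR.b)} : Set (Sym2 W)) ∨
        c v = c dR.swap.b' ∨ v ∈ A ∨ dR.swap.b' ∈ A := fun c A _ _ =>
    ⟨∅, ∅, trivial, Or.inl (Or.inr (Or.inr rfl)), fun m => m.elim, fun _ _ _ m => m.elim,
      fun _ _ _ m => m.elim⟩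
  by_cases ab : H.Adj d.a d.b
  · exact ⟨_, _, (C.bot_short hP T (Or.inr ab) OL OR (OL.st _ rfl _ (Sym2.mem_mk_left _ _))
      (OR.st _ rfl _ (Sym2.mem_mk_left _ _)) (Or.inl ⟨rfl, rfl⟩) dv).mono (Set.empty_subset _)⟩
  · exact ⟨_, _, (C.bot_long hP ne ab OL OR rfl rfl dv).mono (Set.empty_subset _)⟩

/-- the main step at the first upper edge -/
theorem Bump.step (hP : Pl H Set.univ) (T : TA H) (h : Bump H d v) (ne : d.a ≠ d.b)
    (hI : d.I.Nonempty) (N : NR H d) :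
    BumpR H d v ∨ ∃ u ∈ d.I, H.Adj u d.a ∧ (H.Adj u v ∨ H.Adj u d.b') := by
  have D := h.disc
  have l1 := h.l1
  obtain ⟨s, g1, g2, g3, P, R, dm, cm⟩ := step_ex hP (disc_rv D.swap) (p := v) (p' := d.a')
    ((DD.swap_I d).symm ▸ hI) (nr_rv N.swap) h.hv D.py.ha (by change 0 - d.ρ _ < 0 - d.ρ _; omega)
    h.e1.symm
  have rr : ∀ x, s.d.ρ x = 0 - d.ρ x := fun x => by rw [g1]; rfl
  have eX : s.d.X = d.Y := by rw [g1]; rfl
  have eY : s.d.Y = d.X := by rw [g1]; rfl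
  have eI : s.d.I = d.I := by rw [g1]; exact DD.swap_I d
  have hq : s.qj ∈ d.X := eY ▸ P.hj
  by_cases k : s.qj = d.a
  · refine Or.inr ⟨s.v, eI ▸ P.ti P.pt.hb, k ▸ P.vj, ?_⟩
    obtain ⟨x, hx, l, a⟩ := P.tn _ P.pt.hb
    rw [rr, rr, g2] at l
    rcases h.cases (eX ▸ hx) with rfl | rfl | rfl
    exacts [by omega, Or.inl a, Or.inr a]
  · obtain ⟨x1, h1, e1, m1⟩ := first_edge D ne
    have he : s(d.a, x1) ∈ PE H d.X := mem_PE.2 ⟨D.px.ha, h1, e1⟩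
    have := D.px.lo _ hq
    have := m1 _ hq k
    obtain ⟨o, O⟩ := k1_half hP T P R dm cm (fun d' S' D' A' _ => tp hP T D' A')
      (by rw [g3, g1]; rfl) (e := s(d.a, x1))
      (mem_PE.2 ⟨⟨eY ▸ D.px.ha, by rw [rr, rr]; omega⟩, ⟨eY ▸ h1, by rw [rr, rr]; omega⟩, e1⟩)
    rw [g1, g2, g3] at O
    refine Or.inl (Or.inr ⟨_, he, Or.inl (Sym2.mem_mk_left _ _), _, _, Or.inl
      ((h.out1 (S0 := {s(d.a, x1)}) (out_rv O).swap (Or.inl rfl) (by simp)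
        (Set.singleton_subset_iff.2 he)).imp' fun c A _ m => Or.inr (m.imp_right Or.inl))⟩)

/-- an inner rung at the first upper vertex -/
theorem Bump.rung (T : TA H) (h : Bump H d v) (hx : x ∈ d.X) (nx : x ≠ d.a)
    (a : H.Adj x d.a') : BumpR H d v := by
  have D := h.disc
  obtain ⟨x1, h1, e1, m1⟩ := first_edge D fun r => nx (D.px.inj _ hx _ D.px.ha
    (le_antisymm (r ▸ D.px.hi x hx) (D.px.lo x hx)))
  have he : s(d.a, x1) ∈ PE H d.X := mem_PE.2 ⟨D.px.ha, h1, e1⟩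
  obtain ⟨o, O⟩ := T d {s(d.a, x1), s(v, d.a')} D (sep_pair (Or.inl he) (Or.inr h.m1) hx D.py.ha a
    (mem2 (Or.inl ⟨D.px.ha, D.px.lo x hx⟩) (Or.inl ⟨h1, m1 x hx nx⟩))
    (mem2 (Or.inr ⟨h.hv, h.l1.le⟩) (Or.inr ⟨D.py.ha, le_rfl⟩)))
  exact Or.inr ⟨_, he, Or.inl (Sym2.mem_mk_left _ _), _, _, Or.inl
    ((h.out1 (S0 := {s(d.a, x1)}) O (Or.inr rfl) (by simp)
      (Set.singleton_subset_iff.2 he)).imp' fun c A _ m => Or.inr (m.imp_right Or.inl))⟩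

/-- The bump lemma. -/
theorem bump (U : S_Unh) (hP : Pl H Set.univ) (T : TA H) (h : Bump H d v)
    (nv : ∀ x ∈ d.X, ¬ H.Adj x v) : BumpR H d v := by
  have D := h.disc
  have both : ∀ o, Out H d {s(v, d.a'), s(v, d.b')} o → BumpR H d v := fun o O =>
    Or.inl ⟨_, _, (h.out1 O (Or.inl rfl) (Set.empty_subset _) (Set.empty_subset _)).imp'
      fun _ _ _ _ => Or.inl (Or.inr rfl)⟩
  by_cases ne : d.a = d.b
  · obtain ⟨o, O⟩ := ty hP T D.swap ne h.m1 h.m2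
    exact both _ O.swap
  rcases d.I.eq_empty_or_nonempty with hI | hI
  · refine both _ (Out.triv D ?_ hI)
    rintro _ (rfl | rfl)
    exacts [Or.inr h.m1, Or.inr h.m2]
  by_cases N : NR H d
  swap
  · obtain ⟨x, hx, y, hy, a, n⟩ : ∃ x ∈ d.X, ∃ y ∈ d.Y, H.Adj x y ∧
        ¬ ((x = d.a ∧ y = d.a') ∨ (x = d.b ∧ y = d.b')) := by
      by_contra k
      exact N fun x hx y hy a => by_contra fun n => k ⟨x, hx, y, hy, a, n⟩
    rcases h.cases hy with rfl | rfl | rfl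
    · exact h.rung T hx (fun r => n (Or.inl ⟨r, rfl⟩)) a
    · exact absurd a (nv x hx)
    · exact (h.rv.rung T hx (fun r => n (Or.inr ⟨r, rfl⟩)) a).rv'
  rcases h.step hP T ne hI N with k | ⟨u, hu, ua, k⟩
  · exact k
  rcases h.rv.step hP T (Ne.symm ne) hI (nr_rv N) with k' | ⟨u', hu', ub, k'⟩
  · exact k'.rv'
  have l1 := h.l1
  have l2 := h.l2
  by_cases us' : H.Adj u d.b'
  · have e : u' = u := by
      by_contra n
      have t := fun y k => (D.theta hP D.px.ha D.py.hb (T := {u}) (E := {u'})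
        (Set.singleton_subset_iff.2 hu) (isConn_single u)
        (Or.inr ⟨⟨u, rfl, ua.symm⟩, ⟨u, rfl, us'.symm⟩⟩) (Set.singleton_subset_iff.2 hu')
        (isConn_single u') (Set.disjoint_singleton.2 n) (x := y) (y := d.b) k
        (Or.inl ⟨D.px.hb, D.px.lt_hi D.px.ha ne⟩)).2
      rcases k' with k' | k'
      exacts [t v (Or.inr ⟨h.hv, l2⟩) ⟨⟨u', rfl, k'.symm⟩, ⟨u', rfl, ub.symm⟩⟩,
        t d.a' (Or.inr ⟨D.py.ha, by omega⟩) ⟨⟨u', rfl, k'.symm⟩, ⟨u', rfl, ub.symm⟩⟩]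
    subst e
    by_cases us : H.Adj u' d.a'
    · exact Or.inl (h.caseD hP T ne hu ua ub us us')
    · exact (h.rv.caseC1 hP T hu ub us' (k'.resolve_right us) us D.px.ha ua ne).rv'
  have uv := k.resolve_right us'
  by_cases us : H.Adj u d.a'
  · by_cases nx : ∀ x ∈ d.X, H.Adj u x → x = d.a
    · exact h.caseC2 hP T ne (nv _ D.px.ha) hu ua us uv nx
    · obtain ⟨x, hx, ux, n⟩ : ∃ x ∈ d.X, H.Adj u x ∧ x ≠ d.a := by
        by_contra k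
        exact nx fun x hx a => by_contra fun n => k ⟨x, hx, a, n⟩
      exact h.caseC1 hP T hu ua us uv us' hx ux n
  · obtain ⟨x1, h1, e1, -⟩ := first_edge D ne
    have he : s(d.a, x1) ∈ PE H d.X := mem_PE.2 ⟨D.px.ha, h1, e1⟩
    obtain ⟨X', P, O⟩ := h.caseB U hP T (nv _ D.px.ha) hu ua uv us us' he
    exact Or.inr ⟨_, he, Or.inl (Sym2.mem_mk_left _ _), X', P, Or.inl O⟩

end Pool.Agent.P.MP_08fd93_co.FB
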