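import Pool.Agent.P.MP_08fd93_co.FB.C10
import Pool.Agent.P.MP_08fd93_co.FE.E2

/-! Cutting at a vertex of the upper class with an arbitrary fan; transfer of outputs. -/

set_option autoImplicit false

namespace Pool.Agent.P.MP_08fd93_co.FB

open OV FU OV.PkIndP

variable {W : Type} {H : SimpleGraph W} {d e dL dR : DD W} {S SL SR : Set (Sym2 W)}
  {X' P XL XR PL PR K : Set W} {ΨL ΨR Ψ : (W → Col) → Set W → Prop} {u p ql qj : W}

/-- two discs with the same boundary and a common outer vertex have the same outside -/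
theorem disc_uniq (D : Disc H d) (E : Disc H e) (hB : d.X ∪ d.Y = e.X ∪ e.Y) {z : W}
    (h1 : z ∈ d.Z) (h2 : z ∈ e.Z) : d.Z = e.Z := by
  have key : ∀ {d e : DD W}, Disc H d → Disc H e → d.X ∪ d.Y = e.X ∪ e.Y → z ∈ d.Z → z ∈ e.Z →
      d.Z ⊆ e.Z := by
    intro d e D E hB h1 h2 x hx
    by_contra n
    obtain ⟨a, b, -, -, ha, g, m, hb⟩ := (D.zc z h1 x hx).exit h2 n
    rcases E.cl ⟨a, ha, g.symm⟩ with k | k
    exacts [hb k, Set.disjoint_left.1 D.dz m (hB ▸ k)]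
  exact (key D E hB h1 h2).antisymm (key E D hB.symm h2 h1)

theorem OutX.congr (h : OutX H e S X' P Ψ) (hZ : e.Z = d.Z) (hX : e.X = d.X) (hY : e.Y = d.Y)
    (hρ : ∀ x ∈ e.X, e.ρ x = d.ρ x) (ha : e.a = d.a) (hb : e.b = d.b) : OutX H d S X' P Ψ := by
  have hI : e.I = d.I := by rw [DD.I, DD.I, hZ, hX, hY]
  obtain ⟨h1, h2, h3, h4⟩ := h
  have h5 := h1.congr hρ
  rw [hZ, hX, hI, ha, hb] at h5
  rw [hX] at h2
  rw [hX, hY, hI] at h4
  exact ⟨h5, h2, h3, h4⟩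

theorem Cut.zL (h : Cut H d u p ql qj dL dR K) : d.Z ⊆ dL.Z := fun z k => by
  have D := h.hub.disc
  rcases dL.cases z with m | m | m | m
  · exact m
  · exact absurd k (D.xz ((h.l.eX z).1 m).1)
  · rcases (h.l.eY z).1 m with r | rfl
    exacts [absurd k (D.yz r.1), absurd h.hub.hu (Z_I k)]
  · exact absurd (h.sL m) (Z_I k)

/-- `u` gets the colour `k` of the upper class; the fan is coloured with the tokens `B` -/
theorem Cut.top_rec (h : Cut H d u p ql qj dL dR K) (OL : OutX H dL SL XL PL ΨL)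
    (OR : OutX H dR SR XR PR ΨR)
    (hc : ∀ c A, (∀ y ∈ d.Y, (c y).1 = true) → Ψ c A → ∃ (k : Col) (A1 A2 B : Set W), k.1 = true ∧
      (∀ c0 : W → Col, c0 u = k → (∀ y ∈ d.Y, c0 y = c y) → ∃ c1, Rec H K B c0 c1) ∧
      (∀ y ∈ d.Y, ∀ z ∈ d.Y, H.Adj u y → H.Adj u z → c y = k → c z = k → y = z) ∧
      (∀ y ∈ d.Y, H.Adj u y → c y = k →
        y ∈ A ∧ y ∉ A1 ∧ y ∉ A2 ∧ y ∉ B ∧ u ∉ A1 ∧ u ∉ A2 ∧ u ∉ B) ∧
      (∀ y ∈ B, (y ∈ d.Y → y ∈ A) ∧ y ∉ A1 ∧ y ∉ A2) ∧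
      (u ∈ A1 → u ∉ A2) ∧ (ql = qj → ql ∈ A1 → ql ∉ A2) ∧
      (∀ y ∈ d.Y, y ∈ A1 ∨ y ∈ A2 → y ∈ A) ∧
      ∀ c1 : W → Col, c1 u = k → (∀ y ∈ d.Y, c1 y = c y) → ΨL c1 A1 ∧ ΨR c1 A2) :
    OutX H d (SL ∪ SR) (XL ∪ XR) (PL ∪ PR) Ψ := by
  classical
  refine h.top OL OR fun c A h1 h2 => ?_
  obtain ⟨k, A1, A2, B, k0, k1, k2, k3, k4, k5, k6, k7, k8⟩ := hc c A h1 h2
  have nK : ∀ y ∈ d.Y, y ∉ K := fun y m r => Y_I m (h.sK r)
  obtain ⟨c1, r⟩ := k1 (Function.update c u k) (Function.update_self _ _ _)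
    fun y m => Function.update_of_ne (h.nu m) _ _
  have cu : c1 u = k := by rw [r.off u h.uk, Function.update_self]
  have cy : ∀ y ∈ d.Y, c1 y = c y := fun y m => by
    rw [r.off y (nK y m), Function.update_of_ne (h.nu m)]
  have tk : ∀ x, x ∈ A1 ∩ dL.Y ∪ A2 ∩ dR.Y → x ∈ A1 ∨ x ∈ A2 := fun x s => s.imp And.left And.left
  have yy : ∀ x, x ∈ dL.Y ∪ dR.Y → x ∈ d.Y ∨ x = u := fun x s =>
    s.elim (fun s => ((h.l.eY x).1 s).imp_left And.left) fun s => ((h.r.eY x).1 s).imp_left And.left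
  have onY : ∀ y ∈ d.Y, H.Adj u y → c1 y = c1 u →
      y ∈ A ∧ y ∉ A1 ∧ y ∉ A2 ∧ y ∉ B ∧ u ∉ A1 ∧ u ∉ A2 ∧ u ∉ B := fun y m e g =>
    k3 y m e (by rw [← cy y m, g, cu])
  refine ⟨c1, A1, A2, ⟨cy, fun y m => ?_, fun x m m' => ?_, ?_, ?_, ?_, ?_, ?_⟩, k8 c1 cu cy⟩
  · rcases yy y m with s | rfl
    exacts [by rw [cy y s]; exact h1 y s, by rw [cu]; exact k0]
  · rcases h.both m m' with rfl | ⟨rfl, s⟩
    exacts [k5, k6 s]
  · rintro x (m | rfl)
    · exact fun y _ z _ => r.one x m y z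
    · rintro y ((my | rfl) | my) z ((mz | rfl) | mz) ey ez gy gz
      · exact r.un x h.uk y my z mz ey ez gy gz
      · exact absurd rfl ez.ne
      · exact absurd (r.al x h.uk y my ey gy) (onY z mz ez gz).2.2.2.2.2.2
      · exact absurd rfl ey.ne
      · exact absurd rfl ey.ne
      · exact absurd rfl ey.ne
      · exact absurd (r.al x h.uk z mz ez gz) (onY y my ey gy).2.2.2.2.2.2
      · exact absurd rfl ez.ne
      · exact k2 y my z mz ey ez (by rw [← cy y my, gy, cu]) (by rw [← cy z mz, gz, cu])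
  · rintro x (m | rfl) s y my e g
    · rcases yy x (s.imp And.right And.right) with b | rfl
      exacts [nK x b m, h.uk m]
    · rcases my with (my | rfl) | my
      · obtain ⟨-, b1, b2⟩ := k4 x (r.al x h.uk y my e g)
        exact (tk x s).elim b1 b2
      · exact e.ne rfl
      · obtain ⟨-, -, -, -, b1, b2, -⟩ := onY y my e g
        exact (tk x s).elim b1 b2
  · rintro x m y (s | rfl) e g
    · obtain ⟨b0, b1, b2⟩ := k4 x (r.al x (nK x m) y s e g)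
      exact ⟨b0 m, fun t => (tk x t).elim b1 b2⟩
    · obtain ⟨b0, b1, b2, -⟩ := onY x m e.symm g.symm
      exact ⟨b0, fun t => (tk x t).elim b1 b2⟩
  · rintro x m y (s | rfl) z (s' | rfl) ey ez gy gz
    · exact r.un x (nK x m) y s z s' ey ez gy gz
    · exact absurd (r.al x (nK x m) y s ey gy) (onY x m ez.symm gz.symm).2.2.2.1
    · exact absurd (r.al x (nK x m) z s' ez gz) (onY x m ey.symm gy.symm).2.2.2.1
    · rfl
  · exact fun x m s => k7 x m (tk x s)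

end Pool.Agent.P.MP_08fd93_co.FB
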