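import Pool.Agent.P.MP_08fd93_co.FB.C11
import Pool.Agent.P.MP_08fd93_co.FE.E7

/-! The remainder lemma: the cell under an edge `a' u` keeps its output when a cap `a' y b'`
hides `u`. -/

set_option autoImplicit false

namespace Pool.Agent.P.MP_08fd93_co.FB

open OV FU OV.PkIndP

variable {W : Type} {H : SimpleGraph W} {d e dL dR : DD W} {SL : Set (Sym2 W)}
  {XL PL K : Set W} {ΨL : (W → Col) → Set W → Prop} {u p y : W}

theorem col2 {a b k : Col} (h1 : a.1 = k.1) (h2 : b.1 = k.1) (n1 : k ≠ a) (n2 : k ≠ b) : a = b := by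
  revert a b k
  decide

theorem tok_two' {a b a' b' : W} {c : W → Col} {A : Set W} (n1 : a ≠ a') (n2 : a ≠ b')
    (n3 : b ≠ a') (n4 : b ≠ b') (h : c a = c b ∨ a ∈ A ∨ b ∈ A)
    (h' : c a' = c b' ∨ a' ∈ A ∨ b' ∈ A) : Tok {s(a, b), s(a', b')} c A := by
  rcases or_assoc.2 h with k | k <;> rcases or_assoc.2 h' with k' | k'
  · exact tok_two n1 k k'
  · rw [Sym2.eq_swap (a := a')]
    exact tok_two n2 k (Or.inr k')
  · rw [Sym2.eq_swap (a := a)]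
    exact tok_two n3 (Or.inr k) k'
  · rw [Sym2.eq_swap (a := a), Sym2.eq_swap (a := a')]
    exact tok_two n4 (Or.inr k) (Or.inr k')

/-- The edge `x u` is monochromatic; this uses the token of `x`. -/
def MdM (x u : W) (Ψ : (W → Col) → Set W → Prop) (c : W → Col) (A : Set W) : Prop :=
  x ∈ A ∧ ∀ c1 : W → Col, c1 x = c x → c1 u = c x → Ψ c1 ∅

/-- The edge `x u` is not monochromatic; the cell under it may use the token of `x` if it is
free. -/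
def MdN (x u : W) (Ψ : (W → Col) → Set W → Prop) (c : W → Col) (A : Set W) : Prop :=
  ∀ c1 : W → Col, c1 x = c x → c1 u ≠ c x → Ψ c1 (A ∩ {x})

/-- The edge `x u` is not monochromatic; the cell under it uses the token of `u`. -/
def MdU (x u : W) (Ψ : (W → Col) → Set W → Prop) (c : W → Col) (A : Set W) : Prop :=
  x ∈ A ∧ ∀ c1 : W → Col, c1 x = c x → c1 u ≠ c x → Ψ c1 {u}

/-- The output of the whole is the output of the left part and an output of the right part. -/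
def RemC (H : SimpleGraph W) (d dR : DD W) (SL : Set (Sym2 W)) (XL PL : Set W)
    (Ψ : (W → Col) → Set W → Prop) : Prop :=
  ∃ XR PR, XR ∪ PR ⊆ dR.X ∪ dR.I ∧ OutX H d SL (XL ∪ XR) (PL ∪ PR) Ψ

theorem remC_of {XR PR : Set W} {Ψ ΨR : (W → Col) → Set W → Prop} (OR : OutX H dR ∅ XR PR ΨR)
    (h : OutX H d (SL ∪ ∅) (XL ∪ XR) (PL ∪ PR) Ψ) : RemC H d dR SL XL PL Ψ :=
  ⟨XR, PR, Set.union_subset OR.sh.xs OR.sh.ps, h.mono Set.subset_union_left⟩

/-- `u` sees only `a'` -/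
theorem rem0 (T : TA H) (h : Bump H d y) (C : Cut H d u p d.a' d.a' dL dR K)
    (OL : OutX H dL SL XL PL ΨL) : RemC H d dR SL XL PL fun c A =>
      (c y = c d.b' ∨ y ∈ A ∨ d.b' ∈ A) ∧
        (MdM d.a' u ΨL c A ∨ MdN d.a' u ΨL c A ∨ MdU d.a' u ΨL c A) := by
  have D := h.disc
  have ha := D.py.ha
  have hb := D.py.hb
  have inR : ∀ z ∈ d.Y, z ∈ dR.Y := fun z k => (C.r.eY z).2 (Or.inl ⟨k, D.py.lo z k⟩)
  obtain ⟨o, O⟩ := T dR {s(y, d.a')} C.r.disc (Adm.single (Or.inr (PE.mono inR h.m1)))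
  have OR := out_keep (S0 := ∅) (Ψ := fun c A => (c u = c d.a' ∨ u ∈ A ∨ d.a' ∈ A) ∧
      (c y = c d.b' ∨ y ∈ A ∨ d.b' ∈ A)) C.r.disc O (fun z k => by
      rcases (C.r.eY z).1 k with m | m
      · rcases h.cases m.1 with r | r | r
        exacts [Or.inr (Or.inr ⟨_, rfl, r ▸ Sym2.mem_mk_right _ _⟩),
          Or.inr (Or.inr ⟨_, rfl, r ▸ Sym2.mem_mk_left _ _⟩), Or.inr (Or.inl (r.trans C.r.eb'.symm))]
      · exact Or.inl (m.trans C.r.ea'.symm)) (Set.empty_subset _) (Set.empty_subset _)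
    fun c A k => (tok_two' (C.nu h.hv).symm (C.nu hb).symm h.e1.ne h.ne k.1 k.2).mono (by
      rintro f ⟨m, n⟩
      rcases C.edgeR m with r | r
      · exact Or.inl (r.trans Sym2.eq_swap)
      · obtain ⟨a, ka, b, kb, g, rfl⟩ := m
        exact Or.inr ((h.pe (mem_PE.2 ⟨(((C.r.eY a).1 ka).resolve_right
          (r.1 a (Sym2.mem_mk_left _ _))).1, (((C.r.eY b).1 kb).resolve_right
          (r.1 b (Sym2.mem_mk_right _ _))).1, g⟩)).resolve_left n))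
  have one : ∀ z ∈ d.Y, H.Adj u z → z = d.a' := fun z k g => (C.uY (Or.inl rfl) k g).elim id id
  have fan : ∀ (B : Set W) (c0 : W → Col), ∃ c1, Rec H K B c0 c1 := fun B c0 => by
    rw [C.k0 rfl]
    exact ⟨c0, Rec.empty _ _⟩
  have keep : ∀ (c c1 : W → Col) (A A2 : Set W), (∀ z ∈ d.Y, c1 z = c z) →
      (∀ z ∈ d.Y, z ≠ d.a' → z ∈ A → z ∈ A2) → (c y = c d.b' ∨ y ∈ A ∨ d.b' ∈ A) →
      (c1 y = c1 d.b' ∨ y ∈ A2 ∨ d.b' ∈ A2) := fun c c1 A A2 g s k => by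
    rw [g y h.hv, g _ hb]
    exact k.imp_right (Or.imp (s y h.hv h.e1.ne') (s _ hb h.ne.symm))
  refine remC_of OR (C.top_rec OL OR fun c A h1 ⟨h2, h3⟩ => ?_)
  obtain ⟨k, k1, k2⟩ := oth (c d.a')
  have no : ∀ z ∈ d.Y, H.Adj u z → c z ≠ k := fun z m g => one z m g ▸ k2
  rcases h3 with h3 | h3 | h3
  · refine ⟨c d.a', ∅, A \ {d.a', u}, ∅, h1 _ ha, fun c0 _ _ => fan _ c0,
      fun a m b m' g g' _ _ => (one a m g).trans (one b m' g').symm, fun a m g _ => ?_,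
      fun _ m => m.elim, fun m => m.elim, fun _ m => m.elim, fun _ _ m => m.elim (·.elim) And.left,
      fun c1 g1 g2 => ⟨h3.2 c1 (g2 _ ha) g1, Or.inl (g1.trans (g2 _ ha).symm),
        keep c c1 A _ g2 (fun z m n s => ⟨s, fun t => t.elim n (C.nu m)⟩) h2⟩⟩
    rw [one a m g]
    exact ⟨h3.1, id, fun s => s.2 (Or.inl rfl), id, id, fun s => s.2 (Or.inr rfl), id⟩
  · refine ⟨k, A ∩ {d.a'}, {u} ∪ A \ {d.a'}, ∅, k1.trans (h1 _ ha), fun c0 _ _ => fan _ c0,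
      fun a m _ _ g _ s => absurd s (no a m g), fun a m g s => absurd s (no a m g),
      fun _ m => m.elim, fun m => absurd m.2.symm (C.nu ha),
      fun _ _ m => m.elim (C.nu ha) fun s => s.2 rfl,
      fun z m s => s.elim And.left fun s => (s.resolve_left (C.nu m)).1,
      fun c1 g1 g2 => ⟨h3 c1 (g2 _ ha) (g1 ▸ k2.symm), Or.inr (Or.inl (Or.inl rfl)),
        keep c c1 A _ g2 (fun z _ n s => Or.inr ⟨s, n⟩) h2⟩⟩
  · refine ⟨k, {u}, A \ {u}, ∅, k1.trans (h1 _ ha), fun c0 _ _ => fan _ c0,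
      fun a m _ _ g _ s => absurd s (no a m g), fun a m g s => absurd s (no a m g),
      fun _ m => m.elim, fun _ m => m.2 rfl, fun _ m => absurd m (C.nu ha),
      fun z m s => (s.resolve_left (C.nu m)).1,
      fun c1 g1 g2 => ⟨h3.2 c1 (g2 _ ha) (g1 ▸ k2.symm), Or.inr (Or.inr ⟨h3.1, C.nu ha⟩),
        keep c c1 A _ g2 (fun z m _ s => ⟨s, C.nu m⟩) h2⟩⟩

theorem Bump.cutR (h : Bump H d y) (C : Cut H d u p d.a' y dL dR K) : Bump H dR y :=
  ⟨C.r.disc, C.jR, C.r.ea' ▸ C.hub.uj, C.r.eb' ▸ h.e2, by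
    rw [C.r.ea', C.r.eb']
    exact (C.nu h.disc.py.hb).symm⟩

/-- `u` sees `a'` and `y`, and has the colour of `a'` -/
theorem rem1M (hP : Pl H Set.univ) (T : TA H) (h : Bump H d y) (C : Cut H d u p d.a' y dL dR K)
    (OL : OutX H dL SL XL PL ΨL) : RemC H d dR SL XL PL fun c A =>
      c y ≠ c d.a' ∧ (c y = c d.b' ∨ y ∈ A ∨ d.b' ∈ A) ∧ MdM d.a' u ΨL c A := by
  have ha := h.disc.py.ha
  have hb := h.disc.py.hb
  have bR := h.cutR C
  obtain ⟨o, O⟩ := T dR {s(y, dR.a')} C.r.disc (Adm.single (Or.inr bR.m1))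
  have OR := bR.out1 (S0 := ∅) O rfl (Set.empty_subset _) (Set.empty_subset _)
  refine remC_of OR (C.top_rec OL OR fun c A h1 ⟨h2, h3, h4⟩ => ?_)
  have one : ∀ z ∈ d.Y, H.Adj u z → c z = c d.a' → z = d.a' := fun z k g s =>
    (C.uY (Or.inr h.e1) k g).resolve_right fun r => h2 (r ▸ s)
  refine ⟨c d.a', ∅, A \ {d.a', u}, ∅, h1 _ ha, fun c0 _ g => C.tri' hP T (Or.inr h.e1) c0
      fun _ m => h2 (by rw [← g y h.hv, ← g _ ha, m.2]),
    fun a m b m' g g' s s' => (one a m g s).trans (one b m' g' s').symm, fun a m g s => ?_,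
    fun _ m => m.elim, fun m => m.elim, fun _ m => m.elim, fun _ _ m => m.elim (·.elim) And.left,
    fun c1 g1 g2 => ⟨h4.2 c1 (g2 _ ha) g1, Or.inr ?_⟩⟩
  · rw [one a m g s]
    exact ⟨h4.1, id, fun s => s.2 (Or.inl rfl), id, id, fun s => s.2 (Or.inr rfl), id⟩
  · rw [C.r.eb', g2 y h.hv, g2 _ hb]
    exact h3.imp_right (Or.imp (fun s => ⟨s, fun t => t.elim h.e1.ne' (C.nu h.hv)⟩)
      fun s => ⟨s, fun t => t.elim h.ne.symm (C.nu hb)⟩)

/-- `u` sees `a'` and `y`, and has the colour of `y` -/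
theorem rem1N (hP : Pl H Set.univ) (T : TA H) (h : Bump H d y) (C : Cut H d u p d.a' y dL dR K)
    (OL : OutX H dL SL XL PL ΨL) : RemC H d dR SL XL PL fun c A =>
      c y ≠ c d.a' ∧ y ∈ A ∧ MdN d.a' u ΨL c A := by
  have ha := h.disc.py.ha
  have bR := h.cutR C
  obtain ⟨o, O⟩ := T dR {s(y, dR.b')} C.r.disc (Adm.single (Or.inr bR.m2))
  have OR := bR.out2 (S0 := ∅) O rfl (Set.empty_subset _) (Set.empty_subset _)
  refine remC_of OR (C.top_rec OL OR fun c A h1 ⟨h2, h3, h4⟩ => ?_)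
  have one : ∀ z ∈ d.Y, H.Adj u z → c z = c y → z = y := fun z k g s =>
    (C.uY (Or.inr h.e1) k g).resolve_left fun r => h2 (r ▸ s.symm)
  refine ⟨c y, A ∩ {d.a'}, ∅, ∅, h1 _ h.hv, fun c0 _ g => C.tri' hP T (Or.inr h.e1) c0
      fun _ m => h2 (by rw [← g y h.hv, ← g _ ha, m.2]),
    fun a m b m' g g' s s' => (one a m g s).trans (one b m' g' s').symm, fun a m g s => ?_,
    fun _ m => m.elim, fun _ => id, fun _ _ => id, fun _ _ m => m.elim And.left (·.elim),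
    fun c1 g1 g2 => ⟨h4 c1 (g2 _ ha) (g1 ▸ h2), Or.inr (Or.inl ?_)⟩⟩
  · rw [one a m g s]
    exact ⟨h3, fun s => h.e1.ne' s.2, id, id, fun s => C.nu ha s.2.symm, id, id⟩
  · rw [C.r.ea', g1, g2 y h.hv]

/-- `u` sees `a'` and `b'` -/
theorem rem2 (hP : Pl H Set.univ) (T : TA H) (h : Bump H d y) (C : Cut H d u p d.a' d.b' dL dR K)
    (OL : OutX H dL SL XL PL ΨL) : RemC H d dR SL XL PL fun c A =>
      c y ≠ c d.a' ∧ ((c y = c d.b' ∧ MdM d.a' u ΨL c A) ∨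
        (c y ≠ c d.b' ∧ ((y ∈ A ∧ MdN d.a' u ΨL c A) ∨
          (¬ H.Adj u y ∧ d.b' ∈ A ∧ MdU d.a' u ΨL c A)))) := by
  classical
  have D := h.disc
  have ha := D.py.ha
  have hb := D.py.hb
  have tR : H.Adj dR.a' dR.b' := by
    rw [C.r.ea', C.r.eb']
    exact C.hub.uj
  obtain ⟨o, O⟩ := T dR {s(dR.a', dR.b')} C.r.disc
    (Adm.single (Or.inr (mem_PE.2 ⟨C.r.disc.py.ha, C.r.disc.py.hb, tR⟩)))
  have OR := out_top2 (S0 := ∅) C.r.disc O tR (Set.empty_subset _) (Set.empty_subset _)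
  obtain ⟨F, eF⟩ := C.fan hP
  have yM : y ∈ YM d d.a' d.b' := ⟨h.hv, h.l1.le, h.l2.le⟩
  refine remC_of OR (C.top_rec OL OR fun c A h1 ⟨h2, h3⟩ => ?_)
  rcases h3 with ⟨h3, h4⟩ | ⟨h3, h4⟩
  · have one : ∀ z ∈ d.Y, c z = c d.a' → z = d.a' := fun z k s => by
      rcases h.cases k with r | r | r
      exacts [r, absurd (r ▸ s) h2, absurd (h3.trans (r ▸ s)) h2]
    refine ⟨c d.a', ∅, ∅, ∅, h1 _ ha, fun c0 g0 g => ?_,
      fun a m b m' _ _ s s' => (one a m s).trans (one b m' s').symm,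
      fun a m _ s => ⟨one a m s ▸ h4.1, id, id, id, id, id, id⟩,
      fun _ m => m.elim, fun m => m.elim, fun _ m => m.elim, fun _ _ m => m.elim (·.elim) (·.elim),
      fun c1 g1 g2 => ⟨h4.2 c1 (g2 _ ha) g1, Or.inl rfl⟩⟩
    rw [← eF]
    have n : c0 u ≠ c0 y := by
      rw [g0, g y h.hv]
      exact h2.symm
    by_cases uy : H.Adj u y
    · exact FE.gad33 hP T F rfl yM h.e1 h.e2 uy c0 (by rw [g _ ha, ← g0]; exact n) fun m => n m.1
    · exact (FE.gad4 hP T F rfl yM h.e1 h.e2 h.ne uy c0).1 (g0.trans (g _ ha).symm)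
        (by rw [g _ hb, g y h.hv]; exact h3.symm) n
  have one : ∀ z ∈ d.Y, c z = c y → z = y := fun z k s => by
    rcases h.cases k with r | r | r
    exacts [absurd (r ▸ s.symm) h2, r, absurd (r ▸ s.symm) h3]
  have ab : c d.a' = c d.b' :=
    col2 ((h1 _ ha).trans (h1 y h.hv).symm) ((h1 _ hb).trans (h1 y h.hv).symm) h2 h3
  have uniq : ∀ a ∈ d.Y, ∀ b ∈ d.Y, H.Adj u a → H.Adj u b → c a = c y → c b = c y → a = b :=
    fun a m b m' _ _ s s' => (one a m s).trans (one b m' s').symm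
  rcases h4 with ⟨h4, h5⟩ | ⟨uy, h4, h5⟩
  · by_cases uy : H.Adj u y
    · refine ⟨c y, A ∩ {d.a'}, ∅, ∅, h1 _ h.hv, fun c0 g0 g => ?_, uniq, fun a m _ s => ?_,
        fun _ m => m.elim, fun _ => id, fun _ _ => id, fun _ _ m => m.elim And.left (·.elim),
        fun c1 g1 g2 => ⟨h5 c1 (g2 _ ha) (g1 ▸ h2), Or.inl rfl⟩⟩
      · rw [← eF]
        exact FE.gad33 hP T F rfl yM h.e1 h.e2 uy c0 (by rw [g _ ha, g y h.hv]; exact h2.symm)
          fun m => h3 (by rw [← g _ hb, ← g y h.hv]; exact m.2)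
      · rw [one a m s]
        exact ⟨h4, fun s => h.e1.ne' s.2, id, id, fun s => C.nu ha s.2.symm, id, id⟩
    · refine ⟨c y, A ∩ {d.a'}, ∅, {y, u}, h1 _ h.hv, fun c0 g0 g => ?_, uniq,
        fun a m e s => absurd (one a m s ▸ e) uy, ?_, fun _ => id, fun _ _ => id,
        fun _ _ m => m.elim And.left (·.elim),
        fun c1 g1 g2 => ⟨h5 c1 (g2 _ ha) (g1 ▸ h2), Or.inl rfl⟩⟩
      · let σ : W → ℤ := fun x => if x = y then 0 else if x = u then 2 else 1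
        have s1 : σ y = 0 := if_pos rfl
        have s2 : σ d.b' = 1 := by simp only [σ, if_neg h.e2.ne', if_neg (C.nu hb)]
        have s3 : σ u = 2 := by simp only [σ, if_neg (C.nu h.hv).symm, if_true]
        have py : Pth H ({y, d.b'} ∪ {d.b', u}) σ y u := by
          refine (Pth.pair h.e2 (by omega)).join (Pth.pair C.hub.uj.symm (by omega))
            (Or.inl rfl) ?_
          rintro a (rfl | rfl) b (rfl | rfl) g
          exacts [Or.inr ⟨rfl, Or.inr rfl⟩, absurd g.symm uy, Or.inl ⟨rfl, rfl⟩,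
            Or.inr ⟨rfl, Or.inl rfl⟩]
        obtain ⟨F', eF'⟩ := C.kdisc hP
          (d' := ⟨({d.a'} ∪ ({y, d.b'} ∪ {d.b', u}) ∪ K)ᶜ, {d.a'}, {y, d.b'} ∪ {d.b', u}, σ,
            d.a', d.a', y, u⟩) (Pth.single _ _) py (Set.disjoint_singleton_left.2 (by
              rintro ((m | m) | (m | m))
              exacts [h.e1.ne m, h.ne m, h.ne m, C.nu ha m])) h.e1 C.hub.ul.symm
          (fun x => by simp only [Set.mem_compl_iff, Set.mem_union, not_or, and_assoc])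
          (fun x => ⟨by
            rintro (rfl | (rfl | rfl) | (rfl | rfl))
            exacts [Or.inr C.ym_pth.ha, Or.inr yM, Or.inr C.ym_pth.hb, Or.inr C.ym_pth.hb,
              Or.inl rfl], by
            rintro (rfl | m)
            · exact Or.inr (Or.inr (Or.inr rfl))
            · rcases h.cases m.1 with r | r | r
              exacts [Or.inl r, Or.inr (Or.inl (Or.inl r)), Or.inr (Or.inl (Or.inr r))]⟩)
        rw [← eF']
        exact (FE.gad4 hP T F' rfl (Or.inl (Or.inr rfl)) h.e2 C.hub.uj.symm (C.nu h.hv) h.n c0).2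
          (by change c0 d.a' = c0 d.b'; rw [g _ ha, g _ hb, ab]) ((g y h.hv).trans g0.symm)
          (by change c0 d.a' ≠ c0 y; rw [g _ ha, g y h.hv]; exact h2.symm)
      · rintro a (rfl | rfl)
        exacts [⟨fun _ => h4, fun s => h.e1.ne' s.2, id⟩,
          ⟨fun m => absurd rfl (C.nu m), fun s => C.nu ha s.2.symm, id⟩]
  · refine ⟨c y, {u}, ∅, {d.a', d.b'}, h1 _ h.hv, fun c0 g0 g => ?_, uniq,
      fun a m e s => absurd (one a m s ▸ e) uy, ?_, fun _ => id, fun _ _ => id,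
      fun z m s => s.elim (fun s => absurd s (C.nu m)) (·.elim),
      fun c1 g1 g2 => ⟨h5.2 c1 (g2 _ ha) (g1 ▸ h2), Or.inl rfl⟩⟩
    · rw [← eF]
      exact (FE.gad4 hP T F rfl yM h.e1 h.e2 h.ne uy c0).2 (g0.trans (g y h.hv).symm)
        (by change c0 d.a' = c0 d.b'; rw [g _ ha, g _ hb, ab])
        (by change c0 u ≠ c0 d.a'; rw [g0, g _ ha]; exact h2)
    · rintro a (rfl | rfl)
      exacts [⟨fun _ => h5.1, C.nu ha, id⟩, ⟨fun _ => h4, C.nu hb, id⟩]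

/-- The disc `d` has the second path `a' y b'`; the disc `e` is its part under the edge `a' u`,
up to the edge `u p`. -/
structure Rem (H : SimpleGraph W) (d e : DD W) (y u p : W) : Prop where
  bump : Bump H d y
  hu : u ∈ d.I
  hp : p ∈ d.X
  up : H.Adj u p
  ua : H.Adj u d.a'
  nd : ¬ H.Adj u y → ¬ H.Adj u d.b' → ¬ H.Adj p d.a'
  de : Disc H e
  eX : ∀ x, x ∈ e.X ↔ x ∈ d.X ∧ d.ρ x ≤ d.ρ p
  eY : ∀ x, x ∈ e.Y ↔ x = d.a' ∨ x = u
  eρ : ∀ x ∈ e.X, e.ρ x = d.ρ x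
  ea : e.a = d.a
  eb : e.b = p
  eZ : ∃ z ∈ e.Z, z ∈ d.Z

/-- An output of `d` that extends the output `XL`, `PL` of the part `e`. -/
def RemR (H : SimpleGraph W) (d e : DD W) (p : W) (SL : Set (Sym2 W)) (XL PL : Set W)
    (Ψ : (W → Col) → Set W → Prop) : Prop :=
  ∃ XR PR, (∀ x ∈ XR ∪ PR, (x ∈ d.X ∧ d.ρ p ≤ d.ρ x) ∨ (x ∈ d.I ∧ x ∈ e.Z)) ∧
    OutX H d SL (XL ∪ XR) (PL ∪ PR) Ψ

theorem Rem.main (hP : Pl H Set.univ) (h : Rem H d e y u p) (O : OutX H e SL XL PL ΨL)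
    {Ψ : (W → Col) → Set W → Prop}
    (k : ∀ q dL dR K, Cut H d u p d.a' q dL dR K → OutX H dL SL XL PL ΨL →
      (q = d.a' ∧ ¬ H.Adj u y ∧ ¬ H.Adj u d.b') ∨ (q = y ∧ H.Adj u y ∧ ¬ H.Adj u d.b') ∨
        (q = d.b' ∧ H.Adj u d.b') → RemC H d dR SL XL PL Ψ) : RemR H d e p SL XL PL Ψ := by
  have B := h.bump
  have D := B.disc
  have l1 := B.l1
  have l2 := B.l2
  obtain ⟨q, hb, hq⟩ : ∃ q, Hub H d u p d.a' q ∧ ((q = d.a' ∧ ¬ H.Adj u y ∧ ¬ H.Adj u d.b') ∨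
      (q = y ∧ H.Adj u y ∧ ¬ H.Adj u d.b') ∨ (q = d.b' ∧ H.Adj u d.b')) := by
    by_cases ub : H.Adj u d.b'
    · exact ⟨_, ⟨D, h.hu, h.hp, h.up, D.py.ha, D.py.hb, h.ua, ub,
        fun z m _ => ⟨D.py.lo z m, D.py.hi z m⟩, fun r => absurd r B.ne⟩, Or.inr (Or.inr ⟨rfl, ub⟩)⟩
    by_cases uy : H.Adj u y
    · refine ⟨_, ⟨D, h.hu, h.hp, h.up, D.py.ha, B.hv, h.ua, uy, fun z m g => ⟨D.py.lo z m, ?_⟩,
        fun r => absurd r B.e1.ne⟩, Or.inr (Or.inl ⟨rfl, uy, ub⟩)⟩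
      rcases B.cases m with rfl | rfl | rfl
      exacts [l1.le, le_rfl, absurd g ub]
    · refine ⟨_, ⟨D, h.hu, h.hp, h.up, D.py.ha, D.py.ha, h.ua, h.ua,
        fun z m g => ⟨D.py.lo z m, ?_⟩, fun _ => h.nd uy ub⟩, Or.inl ⟨rfl, uy, ub⟩⟩
      rcases B.cases m with rfl | rfl | rfl
      exacts [le_rfl, absurd g uy, absurd g ub]
  obtain ⟨dL, dR, K, C⟩ := hb.cut hP
  have eX : e.X = dL.X := Set.ext fun x => (h.eX x).trans (C.l.eX x).symm
  have eY : e.Y = dL.Y := Set.ext fun x => (h.eY x).trans ((C.l.eY x).trans (or_congr_left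
    ⟨fun m => D.py.inj _ m.1 _ D.py.ha (le_antisymm m.2 (D.py.lo x m.1)),
      fun m => by rw [m]; exact ⟨D.py.ha, le_rfl⟩⟩)).symm
  obtain ⟨z, z1, z2⟩ := h.eZ
  have eZ : e.Z = dL.Z := disc_uniq h.de C.l.disc (by rw [eX, eY]) z1 (C.zL z2)
  obtain ⟨XR, PR, s, R⟩ := k q dL dR K C (O.congr eZ eX eY (fun x m => (h.eρ x m).trans
    (C.l.eρ x (C.nu' ((h.eX x).1 m).1)).symm) (h.ea.trans C.l.ea.symm) (h.eb.trans C.l.eb.symm)) hq
  exact ⟨XR, PR, fun x m => (s m).imp (C.r.eX x).1 fun g => ⟨C.sR g, eZ ▸ C.rl' x g⟩, R⟩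

theorem RemC.imp {Ψ Ψ' : (W → Col) → Set W → Prop} (h : RemC H d dR SL XL PL Ψ)
    (k : ∀ c A, Ψ' c A → Ψ c A) : RemC H d dR SL XL PL Ψ' := by
  obtain ⟨XR, PR, s, R⟩ := h
  exact ⟨XR, PR, s, R.imp' fun c A _ => k c A⟩

/-- The remainder lemma when the edge `a' u` may be monochromatic. -/
theorem Rem.mono (hP : Pl H Set.univ) (T : TA H) (h : Rem H d e y u p)
    (O : OutX H e SL XL PL ΨL) : RemR H d e p SL XL PL fun c A =>
      c y ≠ c d.a' ∧ MdM d.a' u ΨL c A ∧ (c y = c d.b' ∨ ((y ∈ A ∨ d.b' ∈ A) ∧ ¬ H.Adj u d.b') ∨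
        (y ∈ A ∧ MdN d.a' u ΨL c A) ∨ (¬ H.Adj u y ∧ d.b' ∈ A ∧ MdU d.a' u ΨL c A)) := by
  refine h.main hP O ?_
  rintro q dL dR K C OL (⟨rfl, -⟩ | ⟨rfl, -⟩ | ⟨rfl, ub⟩)
  · exact (rem0 T h.bump C OL).imp fun c A k => ⟨by have := k.2.2; tauto, Or.inl k.2.1⟩
  · exact (rem1M hP T h.bump C OL).imp fun c A k => ⟨k.1, by have := k.2.2; tauto, k.2.1⟩
  · refine (rem2 hP T h.bump C OL).imp fun c A k => ⟨k.1, ?_⟩
    by_cases g : c y = c d.b'
    · exact Or.inl ⟨g, k.2.1⟩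
    · exact Or.inr ⟨g, (k.2.2.resolve_left g).resolve_left fun m => m.2 ub⟩

/-- The remainder lemma when `y` has a colour of its own. -/
theorem Rem.alt (hP : Pl H Set.univ) (T : TA H) (h : Rem H d e y u p)
    (O : OutX H e SL XL PL ΨL) : RemR H d e p SL XL PL fun c A =>
      c y ≠ c d.a' ∧ c y ≠ c d.b' ∧ y ∈ A ∧ MdN d.a' u ΨL c A := by
  refine h.main hP O ?_
  rintro q dL dR K C OL (⟨rfl, -⟩ | ⟨rfl, -⟩ | ⟨rfl, -⟩)
  · exact (rem0 T h.bump C OL).imp fun c A k =>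
      ⟨Or.inr (Or.inl k.2.2.1), Or.inr (Or.inl k.2.2.2)⟩
  · exact (rem1N hP T h.bump C OL).imp fun c A k => ⟨k.1, k.2.2⟩
  · exact (rem2 hP T h.bump C OL).imp fun c A k => ⟨k.1, Or.inr ⟨k.2.1, Or.inl k.2.2⟩⟩

/-- The remainder lemma without chords. -/
theorem Rem.free (hP : Pl H Set.univ) (T : TA H) (h : Rem H d e y u p) (n1 : ¬ H.Adj u y)
    (n2 : ¬ H.Adj u d.b') (O : OutX H e SL XL PL ΨL) : RemR H d e p SL XL PL fun c A =>
      (c y = c d.b' ∨ y ∈ A ∨ d.b' ∈ A) ∧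
        (MdM d.a' u ΨL c A ∨ MdN d.a' u ΨL c A ∨ MdU d.a' u ΨL c A) := by
  refine h.main hP O ?_
  rintro q dL dR K C OL (⟨rfl, -⟩ | ⟨-, g, -⟩ | ⟨-, g⟩)
  exacts [rem0 T h.bump C OL, absurd g n1, absurd g n2]

/-- Lemma EB as a one-sided output. -/
theorem outX_eb (hP : Pl H Set.univ) (T : TA H) (D : Disc H d) (st : H.Adj d.a' d.b')
    {f f' : Sym2 W} (hf : f ∈ PE H d.X) (hf' : f' ∈ PE H d.X) :
    ∃ X' P t, (t = d.a' ∨ t = d.b') ∧
      OutX H d {f, f'} X' P fun c A => c d.a' = c d.b' ∨ t ∈ A := by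
  classical
  obtain ⟨o, x, z, hxz, S, oY, E⟩ := FE.eb' hP T D st hf hf'
  have xY : x ∈ d.Y := hxz.elim (fun k => k.1 ▸ D.py.ha) fun k => k.1 ▸ D.py.hb
  have zY : z ∈ d.Y := hxz.elim (fun k => k.2 ▸ D.py.hb) fun k => k.2 ▸ D.py.ha
  refine ⟨o.X, PX d o, x, hxz.imp And.left And.left, outX_of D S (by
    rintro _ (rfl | rfl)
    exacts [hf, hf']) fun c c0 ω A h1 h2 h3 h4 h5 => ?_⟩
  have eX : ∀ e ∈ PE H (d.X ∩ o.X) \ {f, f'}, ∀ x ∈ e, x ∈ d.X := fun e k x m => (PE.ends k.1 m).1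
  let ω' : W → W := fun v => if v = x then z else if v ∈ d.Y then v else ω v
  have w1 : ∀ v ∈ d.X, ω' v = ω v := fun v k => by
    have n1 : v ≠ x := fun r => D.xy k (r ▸ xY)
    simp only [ω', if_neg n1, if_neg (D.xy k)]
  have w2 : ω' x = z := if_pos rfl
  obtain ⟨c', r⟩ := E c ω' h1 (fun v k => by rw [h3 v k]; exact h2 v k)
    (paid_congr eX (fun _ _ => rfl) w1 h4) (Or.inr w2)
  rw [MX_keep S oY]
  refine ⟨c', r.mono fun v _ k => ?_⟩
  rcases k.1.1 with m | m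
  · exact Or.inl (pay_congr eX (fun _ _ => rfl) w1 ⟨⟨m, k.1.2⟩, k.2⟩)
  · have vY := (mem_PE.1 m).1.1
    refine Or.inr ⟨?_, vY⟩
    have k2 := k.2
    by_cases n1 : v = x
    · subst n1
      rw [w2, h3 _ vY, h3 _ zY] at k2
      refine h5.resolve_left fun g => k2 ?_
      rcases hxz with s | s
      exacts [by rw [s.1, s.2, g], by rw [s.1, s.2, g]]
    · exact (k2 (by simp only [ω', if_neg n1, if_pos vY])).elim

end Pool.Agent.P.MP_08fd93_co.FB
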