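import Pool.Agent.P.MP_08fd93_co.FB.C1

/-! Cutting a disc at an inner vertex: the parts. -/

set_option autoImplicit false

namespace Pool.Agent.P.MP_08fd93_co.FB

open OV FU

variable {W : Type} {H : SimpleGraph W} {d : DD W} {u p ql qj : W}

/-- `dL` is the part of `d` before the path `p u ql`, with `u` added to the second path. -/
structure Lft (H : SimpleGraph W) (d : DD W) (u p ql : W) (dL : DD W) : Prop where
  disc : Disc H dL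
  eX : ∀ x, x ∈ dL.X ↔ x ∈ d.X ∧ d.ρ x ≤ d.ρ p
  eY : ∀ y, y ∈ dL.Y ↔ (y ∈ d.Y ∧ d.ρ y ≤ d.ρ ql) ∨ y = u
  eρ : ∀ x, x ≠ u → dL.ρ x = d.ρ x
  eu : dL.ρ u = d.ρ ql + 1
  ea : dL.a = d.a
  ea' : dL.a' = d.a'
  eb : dL.b = p
  eb' : dL.b' = u

/-- `dR` is the part of `d` after the path `p u qj`, with `u` added to the second path. -/
structure Rgt (H : SimpleGraph W) (d : DD W) (u p qj : W) (dR : DD W) : Prop where
  disc : Disc H dR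
  eX : ∀ x, x ∈ dR.X ↔ x ∈ d.X ∧ d.ρ p ≤ d.ρ x
  eY : ∀ y, y ∈ dR.Y ↔ (y ∈ d.Y ∧ d.ρ qj ≤ d.ρ y) ∨ y = u
  eρ : ∀ x, x ≠ u → dR.ρ x = d.ρ x
  eu : dR.ρ u = d.ρ qj - 1
  ea : dR.a = p
  ea' : dR.a' = u
  eb : dR.b = d.b
  eb' : dR.b' = d.b'

theorem Lft.rv {dL : DD W} (h : Lft H d u p ql dL) : Rgt H (rvD d) u p ql (rvD dL) := by
  refine ⟨disc_rv h.disc, fun x => (h.eX x).trans (and_congr_right fun _ => ?_),
    fun y => (h.eY y).trans (or_congr_left (and_congr_right fun _ => ?_)), fun x hx => ?_, ?_,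
    h.eb, h.eb', h.ea, h.ea'⟩
  · change _ ↔ 0 - _ ≤ 0 - _
    omega
  · change _ ↔ 0 - _ ≤ 0 - _
    omega
  · change 0 - _ = 0 - _
    rw [h.eρ x hx]
  · change 0 - _ = 0 - _ - 1
    rw [h.eu]
    omega

theorem Rgt.rv {dR : DD W} (h : Rgt H d u p qj dR) : Lft H (rvD d) u p qj (rvD dR) := by
  refine ⟨disc_rv h.disc, fun x => (h.eX x).trans (and_congr_right fun _ => ?_),
    fun y => (h.eY y).trans (or_congr_left (and_congr_right fun _ => ?_)), fun x hx => ?_, ?_,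
    h.eb, h.eb', h.ea, h.ea'⟩
  · change _ ↔ 0 - _ ≤ 0 - _
    omega
  · change _ ↔ 0 - _ ≤ 0 - _
    omega
  · change 0 - _ = 0 - _
    rw [h.eρ x hx]
  · change 0 - _ = 0 - _ + 1
    rw [h.eu]
    omega

/-- The cut of `d` at `u`: a left disc, a right disc and the fan `K` between `u` and `Y`. -/
structure Cut (H : SimpleGraph W) (d : DD W) (u p ql qj : W) (dL dR : DD W) (K : Set W) :
    Prop where
  hub : Hub H d u p ql qj
  l : Lft H d u p ql dL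
  r : Rgt H d u p qj dR
  cov : ∀ x, x ∈ d.I ↔ x = u ∨ x ∈ dL.I ∨ x ∈ dR.I ∨ x ∈ K
  lr : ∀ x ∈ dL.I, x ∉ dR.I
  lk : ∀ x ∈ dL.I, x ∉ K
  rk : ∀ x ∈ dR.I, x ∉ K
  uk : u ∉ K
  nk : ∀ x ∈ K, ∀ z, H.Adj x z → z ∈ K ∨ z = u ∨ z ∈ YM d ql qj
  cr : ∀ x ∈ d.X, ∀ y ∈ d.Y, H.Adj x y →
    (d.ρ x ≤ d.ρ p ∧ d.ρ y ≤ d.ρ ql) ∨ (d.ρ p ≤ d.ρ x ∧ d.ρ qj ≤ d.ρ y)

theorem rv_YM (d : DD W) (ql qj : W) : YM (rvD d) qj ql = YM d ql qj := by
  ext y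
  refine and_congr_right fun _ => ?_
  change 0 - _ ≤ 0 - _ ∧ 0 - _ ≤ 0 - _ ↔ _
  omega

theorem rv_YN (d : DD W) (ql qj : W) : YN (rvD d) qj ql = YN d ql qj := by
  ext y
  refine and_congr_right fun _ => ?_
  change 0 - _ < 0 - _ ∧ 0 - _ < 0 - _ ↔ _
  omega

theorem rv_Lf (d : DD W) (p q : W) : (rvD d).Lf p q = d.Rt p q := by
  ext y
  refine or_congr (and_congr_right fun _ => ?_) (and_congr_right fun _ => ?_)
  all_goals
    change 0 - _ ≤ 0 - _ ↔ _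
    omega

theorem Cut.rv {dL dR : DD W} {K : Set W} (h : Cut H d u p ql qj dL dR K) :
    Cut H (rvD d) u p qj ql (rvD dR) (rvD dL) K := by
  refine ⟨h.hub.rv, h.r.rv, h.l.rv, fun x => (h.cov x).trans (or_congr_right or_left_comm),
    fun x hx k => h.lr x k hx, h.rk, h.lk, h.uk, by rw [rv_YM]; exact h.nk, fun x hx y hy e => ?_⟩
  have := h.cr x hx y hy e
  change (0 - _ ≤ 0 - _ ∧ 0 - _ ≤ 0 - _) ∨ (0 - _ ≤ 0 - _ ∧ 0 - _ ≤ 0 - _)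
  omega

open Classical in
/-- The left part. -/
noncomputable def cutL (H : SimpleGraph W) (d : DD W) (u p ql : W) : DD W :=
  ⟨(d.Lf p ql ∪ {u} ∪ Rg H d u (d.Lf p ql))ᶜ, {x | x ∈ d.X ∧ d.ρ x ≤ d.ρ p},
    {y | y ∈ d.Y ∧ d.ρ y ≤ d.ρ ql} ∪ {u}, fun x => if x = u then d.ρ ql + 1 else d.ρ x,
    d.a, p, d.a', u⟩

theorem Hub.lft (hP : Pl H Set.univ) (h : Hub H d u p ql qj) :
    Lft H d u p ql (cutL H d u p ql) ∧ (cutL H d u p ql).I = Rg H d u (d.Lf p ql) := by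
  classical
  have D := h.disc
  have uI := DD.mem_I.1 h.hu
  have eρ : ∀ x, x ≠ u → (cutL H d u p ql).ρ x = d.ρ x := fun x hx => if_neg hx
  have eu : (cutL H d u p ql).ρ u = d.ρ ql + 1 := if_pos rfl
  have mZ : ∀ x, x ∈ (cutL H d u p ql).Z ↔
      x ∉ d.Lf p ql ∧ x ≠ u ∧ x ∉ Rg H d u (d.Lf p ql) := fun x => by
    simp only [cutL, Set.mem_compl_iff, Set.mem_union, Set.mem_singleton_iff, not_or, and_assoc]
  have lfI : ∀ x ∈ d.Lf p ql, x ∉ d.I := fun x hx k => k (Or.inr (hx.imp And.left And.left))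
  have px : Pth H {x | x ∈ d.X ∧ d.ρ x ≤ d.ρ p} (cutL H d u p ql).ρ d.a p :=
    (D.px.sub D.px.ha h.hp (D.px.lo p h.hp) (A := {x | x ∈ d.X ∧ d.ρ x ≤ d.ρ p}) fun x =>
      ⟨fun hx => ⟨hx.1, D.px.lo x hx.1, hx.2⟩, fun hx => ⟨hx.1, hx.2.2⟩⟩).congr
      fun x hx => eρ x fun e => uI.2.1 (e ▸ hx.1)
  have py0 : Pth H {x | x ∈ d.Y ∧ d.ρ x ≤ d.ρ ql} (cutL H d u p ql).ρ d.a' ql :=
    (D.py.sub D.py.ha h.hl (D.py.lo ql h.hl) (A := {x | x ∈ d.Y ∧ d.ρ x ≤ d.ρ ql}) fun x =>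
      ⟨fun hx => ⟨hx.1, D.py.lo x hx.1, hx.2⟩, fun hx => ⟨hx.1, hx.2.2⟩⟩).congr
      fun x hx => eρ x fun e => uI.2.2 (e ▸ hx.1)
  have py : Pth H ({x | x ∈ d.Y ∧ d.ρ x ≤ d.ρ ql} ∪ {u}) (cutL H d u p ql).ρ d.a' u := by
    refine py0.join (Pth.single u _) (Or.inr ⟨?_, h.ul.symm⟩) ?_
    · rw [eu, eρ _ h.ul.ne']
      omega
    · rintro x hx _ rfl e
      exact Or.inl ⟨D.py.inj x hx.1 ql h.hl (le_antisymm hx.2 (h.ex x hx.1 e.symm).1), rfl⟩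
  have main := sub_disc D (d' := cutL H d u p ql) (I1 := Rg H d u (d.Lf p ql)) px py ?_ D.ra
    h.up.symm ?_ (fun _ k => k.1.1) ?_ ?_ ?_ ?_
  · exact ⟨⟨main.1, fun _ => Iff.rfl, fun _ => Iff.rfl, eρ, eu, rfl, rfl, rfl, rfl⟩, main.2⟩
  · refine Set.disjoint_left.2 ?_
    rintro x hx (k | rfl)
    exacts [D.xy hx.1 k.1, uI.2.1 hx.1]
  · intro x
    rw [mZ]
    simp only [cutL, DD.Lf, Set.mem_union, Set.mem_singleton_iff, Set.mem_ofPred_eq, not_or,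
      and_assoc, ne_eq]
  · rintro x (k | k | rfl)
    · exact ⟨D.xz k.1, fun m => lfI x (Or.inl k) m.1.1⟩
    · exact ⟨D.yz k.1, fun m => lfI x (Or.inr k) m.1.1⟩
    · exact ⟨uI.1, fun m => m.1.2 rfl⟩
  · intro x hx y e k
    obtain ⟨k1, k2, k3⟩ := (mZ y).1 k
    rcases Rg.nb hx e with m | m | m
    exacts [k3 m, k2 m, k1 m]
  · intro x hx k
    obtain ⟨k1, k2, k3⟩ := (mZ x).1 k
    obtain ⟨y, z, cy, e, b, n⟩ := Rg.out D ⟨hx, k2⟩ k3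
    have s : ∀ w, Conn H (d.I \ {u}) x w → w ∈ (cutL H d u p ql).Z := fun w cw =>
      (mZ w).2 ⟨fun m => lfI w m (cw.mem ⟨hx, k2⟩).1, (cw.mem ⟨hx, k2⟩).2,
        fun m => k3 (Rg.cl m cw.symm)⟩
    have zI : z ∉ d.I := fun m => m (Or.inr b)
    exact ⟨z, (cy.sub s).snoc (s y cy) ((mZ z).2 ⟨n, fun m => zI (m ▸ h.hu),
      fun m => zI m.1.1⟩) e, zI⟩
  · rintro x (k | k | rfl) hx
    · exact absurd hx (lfI x (Or.inl k))
    · exact absurd hx (lfI x (Or.inr k))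
    by_cases hq : ql = qj
    swap
    · refine ⟨qj, (mZ qj).2 ⟨?_, h.uj.ne', fun m => m.1.1 (Or.inr (Or.inr h.hj))⟩, h.uj⟩
      rintro (m | m)
      · exact D.xy m.1 h.hj
      · exact hq (D.py.inj _ h.hl _ h.hj (le_antisymm h.lj m.2))
    have cA : IsConn H (d.Z ∪ d.Lo p ql ∪ Rg H d x (d.Lf p ql)) := by
      refine isConn_base (B := d.Z ∪ d.Lo p ql)
        (D.zc.union_nb fun w hw => D.tz (hw.imp And.left And.left)) Set.subset_union_left ?_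
      rintro w (hw | hw)
      · exact ⟨w, hw, Conn.rfl'⟩
      have n : w ∉ Rg H d x {p, ql} := Rg.dis2 hP D hx (Or.inl h.hp) (Or.inr h.hl) h.up h.ul
        (h.nd hq) Set.inter_subset_right hw
      obtain ⟨y, z, cy, e, b, n'⟩ := Rg.out D hw.1 n
      have m : z ∈ d.Lo p ql := by
        rcases (hw.2 y cy z e).resolve_left fun k => k (Or.inr b) with k | k
        · exact Or.inl ⟨k.1, lt_of_le_of_ne k.2 fun e =>
            n' (Or.inl (D.px.inj _ k.1 _ h.hp e))⟩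
        · exact Or.inr ⟨k.1, lt_of_le_of_ne k.2 fun e =>
            n' (Or.inr (D.py.inj _ k.1 _ h.hl e))⟩
      exact ⟨z, Or.inr m, (cy.sub fun t ct => Or.inr (Rg.cl hw ct)).snoc (Or.inr (Rg.cl hw cy))
        (Or.inl (Or.inr m)) e⟩
    have sR : d.Rt p ql ⊆ (d.Z ∪ d.Lo p ql ∪ Rg H d x (d.Lf p ql) ∪ {x})ᶜ := by
      have b : ∀ w ∈ d.Rt p ql, w ∈ d.X ∪ d.Y := fun w hw => hw.imp And.left And.left
      rintro w hw (((k | k) | k) | k)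
      · exact Set.disjoint_left.1 D.dz k (b w hw)
      · rcases hw with m | m <;> rcases k with k | k
        exacts [not_lt.2 m.2 k.2, D.xy m.1 k.1, D.xy k.1 m.1, not_lt.2 m.2 k.2]
      · exact k.1.1 (Or.inr (b w hw))
      · exact hx (Or.inr (k ▸ b w hw))
    have c1 : IsConn H {w | w ∈ d.X ∧ d.ρ p ≤ d.ρ w} :=
      D.px.seg_conn (fun _ k => k.1) fun _ k _ _ _ m l _ => ⟨m, k.2.trans l.le⟩
    have c2 : IsConn H {w | w ∈ d.Y ∧ d.ρ ql ≤ d.ρ w} :=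
      D.py.seg_conn (fun _ k => k.1) fun _ k _ _ _ m l _ => ⟨m, k.2.trans l.le⟩
    have cR : IsConn H (d.Rt p ql) := c1.union c2
      ⟨d.b, ⟨D.px.hb, D.px.hi _ h.hp⟩, d.b', ⟨D.py.hb, D.py.hi _ h.hl⟩, D.rb⟩
    have pR : p ∈ d.Rt p ql := Or.inl ⟨h.hp, le_rfl⟩
    obtain ⟨z, e1, e2, n⟩ := link_step hP cA (u := x) (p := p) (q := ql) (by
        rintro ((k | k) | k)
        exacts [uI.1 k, hx (Or.inr (k.imp And.left And.left)), k.1.2 rfl])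
      h.up h.ul (fun k => sR pR (Or.inl k)) (fun e => D.xy h.hp (e ▸ h.hl))
      ((cR _ pR _ (Or.inr ⟨h.hl, le_rfl⟩)).up sR)
    refine ⟨z, (mZ z).2 ⟨?_, e1.ne', fun k => n (Or.inr k)⟩, e1⟩
    rintro (k | k)
    · exact n (Or.inl (Or.inr (Or.inl ⟨k.1, lt_of_le_of_ne k.2 fun e =>
        e2.ne' (D.px.inj _ k.1 _ h.hp e)⟩)))
    · exact n (Or.inl (Or.inr (Or.inr ⟨k.1, lt_of_le_of_ne k.2 fun e =>
        h.nd hq (D.py.inj _ k.1 _ h.hl e ▸ e2)⟩)))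

/-- The cut exists. -/
theorem Hub.cut (hP : Pl H Set.univ) (h : Hub H d u p ql qj) :
    ∃ dL dR K, Cut H d u p ql qj dL dR K := by
  have D := h.disc
  obtain ⟨L, eL⟩ := h.lft hP
  obtain ⟨R, eR⟩ := h.rv.lft hP
  have R' := R.rv
  rw [rv_rv] at R'
  have eR' : (rvD (cutL H (rvD d) u p qj)).I = Rg H d u (d.Rt p qj) := by
    rw [← rv_Lf]
    exact eR
  have lj := h.lj
  refine ⟨_, _, Rg H d u (YM d ql qj), h, L, R', fun x => ?_, ?_, ?_, ?_, fun k => k.1.2 rfl,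
    fun x hx z e => Rg.nb hx e, h.cr hP⟩
  · rw [eL, eR']
    constructor
    · intro hx
      by_cases k : x = u
      exacts [Or.inl k, Or.inr (h.cov hP ⟨hx, k⟩)]
    · rintro (rfl | k | k | k)
      exacts [h.hu, k.1.1, k.1.1, k.1.1]
  · rw [eL, eR']
    intro x hx
    by_cases hq : ql = qj
    · refine Rg.dis2 hP D h.hu (Or.inl h.hp) (Or.inr h.hl) h.up h.ul (h.nd hq) ?_ hx
      rintro z ⟨k | k, m | m⟩
      · exact Or.inl (D.px.inj _ k.1 _ h.hp (le_antisymm k.2 m.2))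
      · exact absurd m.1 (D.xy k.1)
      · exact absurd k.1 (D.xy m.1)
      · exact Or.inr (D.py.inj _ k.1 _ h.hl (le_antisymm k.2 (lj.trans m.2)))
    · refine Rg.dis1 D h.up ?_ hx
      rintro z ⟨k | k, m | m⟩
      · exact D.px.inj _ k.1 _ h.hp (le_antisymm k.2 m.2)
      · exact absurd m.1 (D.xy k.1)
      · exact absurd k.1 (D.xy m.1)
      · exact absurd (D.py.inj _ h.hl _ h.hj (le_antisymm lj (m.2.trans k.2))) hq
  · rw [eL]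
    intro x hx
    refine Rg.dis1 D h.ul ?_ hx
    rintro z ⟨k | k, m⟩
    · exact absurd m.1 (D.xy k.1)
    · exact D.py.inj _ k.1 _ h.hl (le_antisymm k.2 m.2.1)
  · rw [eR']
    intro x hx
    refine Rg.dis1 D h.uj ?_ hx
    rintro z ⟨k | k, m⟩
    · exact absurd m.1 (D.xy k.1)
    · exact D.py.inj _ k.1 _ h.hj (le_antisymm m.2.2 k.2)

/-- the extreme neighbours exist -/
theorem exists_hub (D : Disc H d) (hu : u ∈ d.I) (hp : p ∈ d.X) (up : H.Adj u p) {q : W}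
    (hq : q ∈ d.Y) (uq : H.Adj u q) (nd : (∀ y ∈ d.Y, H.Adj u y → y = q) → ¬ H.Adj p q) :
    ∃ ql qj, Hub H d u p ql qj := by
  have fin : {y | y ∈ d.Y ∧ H.Adj u y}.Finite := D.py.fin.subset fun _ hy => hy.1
  obtain ⟨ql, hl, hmin⟩ := Set.exists_min_image _ d.ρ fin ⟨q, hq, uq⟩
  obtain ⟨qj, hj, hmax⟩ := Set.exists_max_image _ d.ρ fin ⟨q, hq, uq⟩
  refine ⟨ql, qj, D, hu, hp, up, hl.1, hj.1, hl.2, hj.2,
    fun y hy e => ⟨hmin y ⟨hy, e⟩, hmax y ⟨hy, e⟩⟩, ?_⟩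
  rintro rfl
  have k : ∀ y ∈ d.Y, H.Adj u y → y = ql := fun y hy e =>
    D.py.inj _ hy _ hl.1 (le_antisymm (hmax y ⟨hy, e⟩) (hmin y ⟨hy, e⟩))
  obtain rfl := k q hq uq
  exact nd k

end Pool.Agent.P.MP_08fd93_co.FB
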