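import Pool.Agent.P.MP_08fd93_co.FB.C2

/-! Facts about a cut: neighbours, the fan region. -/

set_option autoImplicit false

namespace Pool.Agent.P.MP_08fd93_co.FB

open OV FU

variable {W : Type} {H : SimpleGraph W} {d dL dR : DD W} {u p ql qj : W} {K : Set W}

theorem nb_I (D : Disc H d) {x z : W} (hx : x ∈ d.I) (e : H.Adj x z) :
    z ∈ d.X ∨ z ∈ d.Y ∨ z ∈ d.I := (d.cases z).resolve_left (D.iz hx e)

theorem X_I {x : W} (hx : x ∈ d.X) : x ∉ d.I := fun k => k (Or.inr (Or.inl hx))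
theorem Y_I {x : W} (hx : x ∈ d.Y) : x ∉ d.I := fun k => k (Or.inr (Or.inr hx))
theorem Z_I {x : W} (hx : x ∈ d.Z) : x ∉ d.I := fun k => k (Or.inl hx)

namespace Cut

theorem sL (h : Cut H d u p ql qj dL dR K) : dL.I ⊆ d.I :=
  fun x k => (h.cov x).2 (Or.inr (Or.inl k))
theorem sR (h : Cut H d u p ql qj dL dR K) : dR.I ⊆ d.I :=
  fun x k => (h.cov x).2 (Or.inr (Or.inr (Or.inl k)))
theorem sK (h : Cut H d u p ql qj dL dR K) : K ⊆ d.I :=
  fun x k => (h.cov x).2 (Or.inr (Or.inr (Or.inr k)))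

theorem uL (h : Cut H d u p ql qj dL dR K) : u ∈ dL.Y := (h.l.eY u).2 (Or.inr rfl)
theorem uR (h : Cut H d u p ql qj dL dR K) : u ∈ dR.Y := (h.r.eY u).2 (Or.inr rfl)
theorem lL (h : Cut H d u p ql qj dL dR K) : ql ∈ dL.Y :=
  (h.l.eY ql).2 (Or.inl ⟨h.hub.hl, le_rfl⟩)
theorem jR (h : Cut H d u p ql qj dL dR K) : qj ∈ dR.Y :=
  (h.r.eY qj).2 (Or.inl ⟨h.hub.hj, le_rfl⟩)
theorem pL (h : Cut H d u p ql qj dL dR K) : p ∈ dL.X := (h.l.eX p).2 ⟨h.hub.hp, le_rfl⟩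
theorem pR (h : Cut H d u p ql qj dL dR K) : p ∈ dR.X := (h.r.eX p).2 ⟨h.hub.hp, le_rfl⟩

/-- neighbours of the left interior -/
theorem nL (h : Cut H d u p ql qj dL dR K) {x z : W} (hx : x ∈ dL.I) (e : H.Adj x z) :
    z ∈ dL.I ∨ z = u ∨ (z ∈ d.X ∧ d.ρ z ≤ d.ρ p) ∨ (z ∈ d.Y ∧ d.ρ z ≤ d.ρ ql) := by
  rcases nb_I h.l.disc hx e with k | k | k
  · exact Or.inr (Or.inr (Or.inl ((h.l.eX z).1 k)))
  · rcases (h.l.eY z).1 k with m | m
    exacts [Or.inr (Or.inr (Or.inr m)), Or.inr (Or.inl m)]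
  · exact Or.inl k

theorem nR (h : Cut H d u p ql qj dL dR K) {x z : W} (hx : x ∈ dR.I) (e : H.Adj x z) :
    z ∈ dR.I ∨ z = u ∨ (z ∈ d.X ∧ d.ρ p ≤ d.ρ z) ∨ (z ∈ d.Y ∧ d.ρ qj ≤ d.ρ z) := by
  rcases nb_I h.r.disc hx e with k | k | k
  · exact Or.inr (Or.inr (Or.inl ((h.r.eX z).1 k)))
  · rcases (h.r.eY z).1 k with m | m
    exacts [Or.inr (Or.inr (Or.inr m)), Or.inr (Or.inl m)]
  · exact Or.inl k

theorem nLR (h : Cut H d u p ql qj dL dR K) {x z : W} (hx : x ∈ dL.I) (hz : z ∈ dR.I) :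
    ¬ H.Adj x z := fun e => by
  rcases h.nL hx e with k | rfl | k | k
  exacts [h.lr z k hz, Y_I h.uR hz, X_I k.1 (h.sR hz), Y_I k.1 (h.sR hz)]

theorem nKL (h : Cut H d u p ql qj dL dR K) {x z : W} (hx : x ∈ K) (hz : z ∈ dL.I) :
    ¬ H.Adj x z := fun e => by
  rcases h.nk x hx z e with k | rfl | k
  exacts [h.lk z hz k, Y_I h.uL hz, Y_I k.1 (h.sL hz)]

theorem nKR (h : Cut H d u p ql qj dL dR K) {x z : W} (hx : x ∈ K) (hz : z ∈ dR.I) :
    ¬ H.Adj x z := h.rv.nKL hx hz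

/-- an outer neighbour of a vertex before the cut is an old outer vertex -/
theorem inL (h : Cut H d u p ql qj dL dR K) {v z : W} (hv : v ∈ d.Lo p ql) (e : H.Adj v z)
    (hz : z ∈ dL.Z) : z ∈ d.Z := by
  have D := h.hub.disc
  have lj := h.hub.lj
  have vI : v ∉ d.I := fun k => k (Or.inr (hv.imp And.left And.left))
  rcases d.cases z with k | k | k | k
  · exact k
  · refine absurd hz (h.l.disc.xz ((h.l.eX z).2 ⟨k, ?_⟩))
    rcases hv with m | m
    · have := D.px.nb m.1 k e h.hub.hp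
      have := m.2
      omega
    · have := h.cr z k v m.1 e.symm
      have := m.2
      omega
  · refine absurd hz (h.l.disc.yz ((h.l.eY z).2 (Or.inl ⟨k, ?_⟩)))
    rcases hv with m | m
    · have := h.cr v m.1 z k e
      have := m.2
      omega
    · have := D.py.nb m.1 k e h.hub.hl
      have := m.2
      omega
  · exfalso
    rcases (h.cov z).1 k with rfl | m | m | m
    · exact h.l.disc.yz h.uL hz
    · exact Z_I hz m
    · rcases h.nR m e.symm with r | rfl | r | r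
      · exact vI (h.sR r)
      · exact vI h.hub.hu
      · rcases hv with g | g
        exacts [not_lt.2 r.2 g.2, D.xy r.1 g.1]
      · rcases hv with g | g
        exacts [D.xy g.1 r.1, not_lt.2 (lj.trans r.2) g.2]
    · rcases h.nk z m v e.symm with r | rfl | r
      · exact vI (h.sK r)
      · exact vI h.hub.hu
      · rcases hv with g | g
        exacts [D.xy g.1 r.1, not_lt.2 r.2.1 g.2]

theorem inR (h : Cut H d u p ql qj dL dR K) {v z : W} (hv : v ∈ d.Hi p qj) (e : H.Adj v z)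
    (hz : z ∈ dR.Z) : z ∈ d.Z := by
  refine h.rv.inL (v := v) ?_ e hz
  refine hv.imp (And.imp_right fun k => ?_) (And.imp_right fun k => ?_)
  all_goals
    change 0 - _ < 0 - _
    omega

/-- neighbours of a vertex strictly inside the fan -/
theorem nN (h : Cut H d u p ql qj dL dR K) {y z : W} (hy : y ∈ YN d ql qj) (e : H.Adj y z) :
    z ∈ d.Z ∨ z ∈ K ∨ z = u ∨ z ∈ YM d ql qj := by
  have D := h.hub.disc
  obtain ⟨h1, h2, h3⟩ := hy
  rcases d.cases z with k | k | k | k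
  · exact Or.inl k
  · have := h.cr z k y h1 e.symm
    omega
  · have := D.py.nb h1 k e h.hub.hj
    have := D.py.nb k h1 e.symm h.hub.hl
    exact Or.inr (Or.inr (Or.inr ⟨k, by omega, by omega⟩))
  · rcases (h.cov z).1 k with m | m | m | m
    · exact Or.inr (Or.inr (Or.inl m))
    · rcases h.nL m e.symm with r | rfl | r | r
      exacts [absurd (h.sL r) (Y_I h1), absurd h.hub.hu (Y_I h1), absurd h1 (D.xy r.1),
        absurd r.2 (by omega)]
    · rcases h.nR m e.symm with r | rfl | r | r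
      exacts [absurd (h.sR r) (Y_I h1), absurd h.hub.hu (Y_I h1), absurd h1 (D.xy r.1),
        absurd r.2 (by omega)]
    · exact Or.inr (Or.inl m)

theorem ym_cases (h : Cut H d u p ql qj dL dR K) {y : W} (hy : y ∈ YM d ql qj) :
    y = ql ∨ y = qj ∨ y ∈ YN d ql qj := by
  have D := h.hub.disc
  by_cases k1 : y = ql
  · exact Or.inl k1
  by_cases k2 : y = qj
  · exact Or.inr (Or.inl k2)
  have := D.py.lt_or hy.1 h.hub.hl k1
  have := D.py.lt_or hy.1 h.hub.hj k2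
  have := hy.2
  exact Or.inr (Or.inr ⟨hy.1, by omega, by omega⟩)

theorem ym_short (h : Cut H d u p ql qj dL dR K) (hq : ql = qj ∨ H.Adj ql qj) {y : W}
    (hy : y ∈ YM d ql qj) : y = ql ∨ y = qj := by
  rcases h.ym_cases hy with k | k | k
  · exact Or.inl k
  · exact Or.inr k
  · rcases hq with rfl | e
    exacts [absurd k.2.1 (lt_asymm k.2.2), absurd k.2 (h.hub.disc.py.nb h.hub.hl h.hub.hj e k.1)]

theorem k0 (h : Cut H d u p ql qj dL dR K) (hq : ql = qj) : K = ∅ := by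
  by_contra hc
  refine h.hub.disc.nj K h.sK (h.hub.disc.fin.subset h.sK) (Set.nonempty_iff_ne_empty.2 hc) u ql
    (Or.inr h.hub.ul) ?_
  rintro z ⟨x, hx, e⟩
  rcases h.nk x hx z e.symm with k | k | k
  · exact Or.inl k
  · exact Or.inr (Or.inl k)
  · exact Or.inr (Or.inr ((h.ym_short (Or.inl hq) k).elim id fun m => m.trans hq.symm))

theorem tri (hP : Pl H Set.univ) (T : TA H) (h : Cut H d u p ql qj dL dR K) (e : H.Adj ql qj) :
    Tri H K u ql qj := by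
  have D := h.hub.disc
  have hl := h.hub.hl
  have hj := h.hub.hj
  have hu := h.hub.hu
  refine pk_Tri1 W H hP _ (T.tn _) (d.Z ∪ (d.X ∪ (d.Y \ {ql, qj}))) d.I K u ql qj h.hub.ul e
    h.hub.uj ?_ ?_ ?_ ?_ ?_ D.fin D.nj ?_ (Nat.lt_succ_self _)
  · refine IsConn.union_nb D.zc ?_
    rintro x (k | k)
    exacts [D.tz (Or.inl k), D.tz (Or.inr k.1)]
  · rintro x (rfl | rfl | rfl)
    · exact ⟨p, Or.inr (Or.inl h.hub.hp), h.hub.up⟩
    · obtain ⟨y, hy, a⟩ := D.tz (Or.inr hl)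
      exact ⟨y, Or.inl hy, a⟩
    · obtain ⟨y, hy, a⟩ := D.tz (Or.inr hj)
      exact ⟨y, Or.inl hy, a⟩
  · refine Set.disjoint_left.2 ?_
    rintro x (k | k | k) (q | rfl | rfl | rfl)
    exacts [Z_I k (h.sK q), Z_I k hu, D.yz hl k, D.yz hj k, X_I k (h.sK q), X_I k hu,
      D.xy k hl, D.xy k hj, Y_I k.1 (h.sK q), Y_I k.1 hu, k.2 (Or.inl rfl), k.2 (Or.inr rfl)]
  · refine Set.disjoint_left.2 ?_
    rintro x q (rfl | rfl | rfl)
    exacts [h.uk q, Y_I hl (h.sK q), Y_I hj (h.sK q)]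
  · intro x hx
    refine DD.mem_I.2 ⟨fun k => hx (Or.inl (Or.inl k)), fun k => hx (Or.inl (Or.inr (Or.inl k))),
      fun k => hx (Or.inl (Or.inr (Or.inr ⟨k, ?_⟩)))⟩
    rintro (m | m)
    exacts [hx (Or.inr (Or.inr (Or.inl m))), hx (Or.inr (Or.inr (Or.inr m)))]
  · rintro z ⟨x, hx, a⟩
    rcases h.nk x hx z a.symm with k | k | k
    · exact Or.inl k
    · exact Or.inr (Or.inl k)
    · exact Or.inr (Or.inr (h.ym_short (Or.inr e) k))

/-- strict extension to a short fan -/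
theorem tri' (hP : Pl H Set.univ) (T : TA H) (h : Cut H d u p ql qj dL dR K)
    (hq : ql = qj ∨ H.Adj ql qj) (c : W → Col) (hc : ql ≠ qj → ¬ (c u = c ql ∧ c ql = c qj)) :
    ∃ c', Rec H K ∅ c c' := by
  rcases hq with e | e
  · rw [h.k0 e]
    exact ⟨c, Rec.empty c _⟩
  · exact h.tri hP T e c (hc e.ne)

theorem kc (hP : Pl H Set.univ) (h : Cut H d u p ql qj dL dR K) (n : ¬ H.Adj ql qj) {x : W}
    (hx : x ∈ K) : ∃ y ∈ YN d ql qj, Conn H (K ∪ YN d ql qj) x y := by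
  by_contra hc
  refine n (tri3 hP h.hub.disc (E := {y | Conn H K x y}) (fun y hy => h.sK (Conn.mem hy hx))
    ⟨x, Conn.rfl'⟩ (isConn_comp _ _) (Or.inr h.hub.hl) (Or.inr h.hub.hj) h.hub.hu
    (fun k => h.uk (Conn.mem k hx)) h.hub.ul h.hub.uj ?_)
  rintro z ⟨y, hy, e⟩
  have yK : y ∈ K := Conn.mem hy hx
  rcases h.nk y yK z e.symm with k | k | k
  · exact Or.inl (Conn.snoc hy yK k e.symm)
  · exact Or.inr (Or.inr (Or.inr k))
  · rcases h.ym_cases k with m | m | m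
    · exact Or.inr (Or.inl m)
    · exact Or.inr (Or.inr (Or.inl m))
    · exact (hc ⟨z, m, (Conn.up hy Set.subset_union_left).snoc (Or.inl yK) (Or.inr m) e.symm⟩).elim

/-- the part outside the fan reaches the old boundary -/
theorem outK (hP : Pl H Set.univ) (h : Cut H d u p ql qj dL dR K) {A : Set W}
    (h1 : dL.I ⊆ A) (h2 : dR.I ⊆ A) (h3 : d.X ⊆ A) {x : W} (hx : x ∈ dL.I ∨ x ∈ dR.I) :
    ∃ y ∈ d.X, Conn H A x y := by
  rcases hx with k | k
  · obtain ⟨y, cy, z, hz, e⟩ := h.l.disc.toX hP k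
    have m := ((h.l.eX z).1 hz).1
    exact ⟨z, m, (cy.up h1).snoc (h1 (cy.mem k)) (h3 m) e⟩
  · obtain ⟨y, cy, z, hz, e⟩ := h.r.disc.toX hP k
    have m := ((h.r.eX z).1 hz).1
    exact ⟨z, m, (cy.up h2).snoc (h2 (cy.mem k)) (h3 m) e⟩

/-- the fan as a disc, for any division of its boundary into two paths -/
theorem kdisc (hP : Pl H Set.univ) (h : Cut H d u p ql qj dL dR K) {d' : DD W}
    (px : Pth H d'.X d'.ρ d'.a d'.b) (py : Pth H d'.Y d'.ρ d'.a' d'.b')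
    (dxy : Disjoint d'.X d'.Y) (ra : H.Adj d'.a d'.a') (rb : H.Adj d'.b d'.b')
    (hZ : ∀ x, x ∈ d'.Z ↔ x ∉ d'.X ∧ x ∉ d'.Y ∧ x ∉ K)
    (hC : ∀ x, x ∈ d'.X ∪ d'.Y ↔ x = u ∨ x ∈ YM d ql qj) : Disc H d' ∧ d'.I = K := by
  have D := h.hub.disc
  have mZ : ∀ x, x ∈ d'.Z ↔ x ≠ u ∧ x ∉ YM d ql qj ∧ x ∉ K := fun x => by
    have := hC x
    rw [Set.mem_union] at this
    rw [hZ]
    tauto
  have xZ : d.X ⊆ d'.Z := fun x k =>
    (mZ x).2 ⟨fun e => X_I k (e ▸ h.hub.hu), fun m => D.xy k m.1, fun m => X_I k (h.sK m)⟩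
  refine sub_disc D px py dxy ra rb hZ h.sK (fun x k => ?_) (fun x k y e m => ?_)
    (fun x k m => ?_) fun x k m => ?_
  · rcases (hC x).1 k with rfl | m
    exacts [⟨fun r => Z_I r h.hub.hu, h.uk⟩, ⟨D.yz m.1, fun r => Y_I m.1 (h.sK r)⟩]
  · obtain ⟨m1, m2, m3⟩ := (mZ y).1 m
    rcases h.nk x k y e with r | r | r
    exacts [m3 r, m1 r, m2 r]
  · obtain ⟨m1, -, m3⟩ := (mZ x).1 m
    obtain ⟨y, hy, cy⟩ := h.outK hP (A := d'.Z)
      (fun w r => (mZ w).2 ⟨fun e => Y_I h.uL (e ▸ r), fun g => Y_I g.1 (h.sL r), h.lk w r⟩)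
      (fun w r => (mZ w).2 ⟨fun e => Y_I h.uR (e ▸ r), fun g => Y_I g.1 (h.sR r), h.rk w r⟩) xZ
      (x := x) (by have := (h.cov x).1 k; tauto)
    exact ⟨y, cy, X_I hy⟩
  · rcases (hC x).1 k with rfl | r
    exacts [⟨p, xZ h.hub.hp, h.hub.up⟩, absurd m (Y_I r.1)]

theorem ym_pth (h : Cut H d u p ql qj dL dR K) : Pth H (YM d ql qj) d.ρ ql qj :=
  h.hub.disc.py.sub h.hub.hl h.hub.hj h.hub.lj fun _ => Iff.rfl

/-- the fan as a disc over the single vertex `u` -/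
theorem fan (hP : Pl H Set.univ) (h : Cut H d u p ql qj dL dR K) :
    Disc H ⟨({u} ∪ YM d ql qj ∪ K)ᶜ, {u}, YM d ql qj, d.ρ, u, u, ql, qj⟩ ∧
      (DD.mk ({u} ∪ YM d ql qj ∪ K)ᶜ {u} (YM d ql qj) d.ρ u u ql qj).I = K :=
  h.kdisc hP (Pth.single _ _) h.ym_pth
    (Set.disjoint_singleton_left.2 fun k => Y_I k.1 h.hub.hu) h.hub.ul h.hub.uj
    (fun x => by simp only [Set.mem_compl_iff, Set.mem_union, not_or, and_assoc]) fun _ => Iff.rfl

theorem kn (hP : Pl H Set.univ) (h : Cut H d u p ql qj dL dR K) (ne : ql ≠ qj)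
    (n : ¬ H.Adj ql qj) : u ∈ Nb H (K ∪ YN d ql qj) := by
  have D := h.hub.disc
  have sA : ∀ x, x ∈ (K ∪ YM d ql qj ∪ {u})ᶜ ↔ x ∉ K ∧ x ∉ YM d ql qj ∧ x ≠ u := fun x => by
    simp only [Set.mem_compl_iff, Set.mem_union, Set.mem_singleton_iff, not_or, and_assoc, ne_eq]
  have cA : IsConn H (K ∪ YM d ql qj ∪ {u})ᶜ := by
    have := (h.fan hP).1.zc
    rwa [show ({u} ∪ YM d ql qj ∪ K) = K ∪ YM d ql qj ∪ {u} by ext; simp only [Set.mem_union]; tauto]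
      at this
  have lM : ql ∈ YM d ql qj := h.ym_pth.ha
  obtain ⟨z, e1, e2, m⟩ := link_step hP cA (u := u) (p := ql) (q := qj) (fun k => k (Or.inr rfl))
    h.hub.ul h.hub.uj (fun k => k (Or.inl (Or.inr lM))) ne
    ((h.ym_pth.conn _ lM _ h.ym_pth.hb).up (by
      rintro w hw (k | rfl)
      exacts [k (Or.inl (Or.inr hw)), Y_I hw.1 h.hub.hu]))
  rcases not_not.1 m with (k | k) | k
  · exact ⟨z, Or.inl k, e1⟩
  · rcases h.ym_cases k with rfl | rfl | r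
    exacts [absurd rfl e2.ne, absurd e2 n, ⟨z, Or.inr r, e1⟩]
  · exact absurd k e1.ne'

end Cut

end Pool.Agent.P.MP_08fd93_co.FB
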