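import Pool.Agent.P.MP_08fd93_co.FB.C3

/-! One-sided shapes: a new path `X'` over the old path `X`, with pockets `P`. -/

set_option autoImplicit false

namespace Pool.Agent.P.MP_08fd93_co.FB

open OV FU

variable {W : Type} {H : SimpleGraph W}

/-- The shape of an output on one side. -/
structure ShX (H : SimpleGraph W) (Z X I : Set W) (ρ : W → ℤ) (a b : W) (X' P : Set W)
    (σ : W → ℤ) (ax : W → W) : Prop where
  px : Pth H X' σ a b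
  xs : X' ⊆ X ∪ I
  ps : P ⊆ X ∪ I
  dis : ∀ x ∈ X', x ∉ P
  xx : X ⊆ X' ∪ P
  rx : ∀ u ∈ X, u ∈ X' → σ u = ρ u
  nx : ∀ u ∈ X', ∀ v ∈ X', H.Adj u v → u ∈ X ∨ v ∈ X
  ap : ∀ v ∈ P, ax v ∈ X' ∧ ax v ∉ X
  pk : ∀ v ∈ P, ∀ z, H.Adj v z →
    z ∈ Z ∨ (z ∈ P ∧ ax z = ax v) ∨ z = ax v ∨ (H.Adj z (ax v) ∧ z ∈ X')
  cn : ∀ v ∈ P, ∃ y ∈ X, Conn H P v y
  tn : ∀ x ∈ X', x ∉ X → x ∈ Nb H P

/-- The shape with the order and the apexes hidden. -/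
def Sh (H : SimpleGraph W) (Z X I : Set W) (ρ : W → ℤ) (a b : W) (X' P : Set W) : Prop :=
  ∃ σ ax, ShX H Z X I ρ a b X' P σ ax

variable {Z X I X' P : Set W} {ρ : W → ℤ} {a b : W}

namespace Sh

theorem xs (h : Sh H Z X I ρ a b X' P) : X' ⊆ X ∪ I := by
  obtain ⟨_, _, h⟩ := h
  exact h.xs

theorem ps (h : Sh H Z X I ρ a b X' P) : P ⊆ X ∪ I := by
  obtain ⟨_, _, h⟩ := h
  exact h.ps

theorem dis (h : Sh H Z X I ρ a b X' P) : ∀ x ∈ X', x ∉ P := by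
  obtain ⟨_, _, h⟩ := h
  exact h.dis

theorem xx (h : Sh H Z X I ρ a b X' P) : X ⊆ X' ∪ P := by
  obtain ⟨_, _, h⟩ := h
  exact h.xx

theorem ha (h : Sh H Z X I ρ a b X' P) : a ∈ X' := by
  obtain ⟨_, _, h⟩ := h
  exact h.px.ha

theorem hb (h : Sh H Z X I ρ a b X' P) : b ∈ X' := by
  obtain ⟨_, _, h⟩ := h
  exact h.px.hb

/-- neighbours of pockets -/
theorem nP (h : Sh H Z X I ρ a b X' P) {v z : W} (hv : v ∈ P) (e : H.Adj v z) :
    z ∈ Z ∨ z ∈ P ∨ z ∈ X' := by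
  obtain ⟨_, _, h⟩ := h
  rcases h.pk v hv z e with k | k | k | k
  exacts [Or.inl k, Or.inr (Or.inl k.1), Or.inr (Or.inr (k ▸ (h.ap v hv).1)), Or.inr (Or.inr k.2)]

theorem triv (h : Pth H X ρ a b) : Sh H Z X I ρ a b X ∅ :=
  ⟨ρ, id, h, Set.subset_union_left, Set.empty_subset _, fun _ _ k => k, Set.subset_union_left,
    fun _ _ _ => rfl, fun _ k _ _ _ => Or.inl k, fun _ k => k.elim, fun _ k => k.elim,
    fun _ k => k.elim, fun _ k n => absurd k n⟩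

theorem rv (h : Sh H Z X I ρ a b X' P) : Sh H Z X I (fun x => 0 - ρ x) b a X' P := by
  obtain ⟨σ, ax, h⟩ := h
  exact ⟨fun x => 0 - σ x, ax, h.px.rev 0, h.xs, h.ps, h.dis, h.xx,
    fun u k k' => by rw [h.rx u k k'], h.nx, h.ap, h.pk, h.cn, h.tn⟩

theorem congr (h : Sh H Z X I ρ a b X' P) {ρ0 : W → ℤ} (e : ∀ x ∈ X, ρ x = ρ0 x) :
    Sh H Z X I ρ0 a b X' P := by
  obtain ⟨σ, ax, h⟩ := h
  exact ⟨σ, ax, h.px, h.xs, h.ps, h.dis, h.xx, fun u k k' => (h.rx u k k').trans (e u k), h.nx,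
    h.ap, h.pk, h.cn, h.tn⟩

/-- a shape in a part of a disc is a shape in the disc -/
theorem up (h : Sh H Z X I ρ a b X' P) {Z0 : Set W} (hI : ∀ v ∈ I, ∀ z, H.Adj v z → z ∉ Z)
    (hX : ∀ v ∈ X, v ≠ a → v ≠ b → ∀ z, H.Adj v z → z ∈ Z → z ∈ Z0) :
    Sh H Z0 X I ρ a b X' P := by
  obtain ⟨σ, ax, h⟩ := h
  refine ⟨σ, ax, h.px, h.xs, h.ps, h.dis, h.xx, h.rx, h.nx, h.ap,
    fun v hv z e => (h.pk v hv z e).imp_left fun k => ?_, h.cn, h.tn⟩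
  rcases h.ps hv with m | m
  · exact hX v m (fun r => h.dis _ h.px.ha (r ▸ hv)) (fun r => h.dis _ h.px.hb (r ▸ hv)) z e k
  · exact absurd k (hI v m z e)

theorem upI (h : Sh H Z X I ρ a b X' P) {I0 : Set W} (hI : I ⊆ I0) : Sh H Z X I0 ρ a b X' P := by
  obtain ⟨σ, ax, h⟩ := h
  exact ⟨σ, ax, h.px, fun _ k => (h.xs k).imp_right (@hI _), fun _ k => (h.ps k).imp_right (@hI _),
    h.dis, h.xx, h.rx, h.nx, h.ap, h.pk, h.cn, h.tn⟩

/-- two shapes, one after the other -/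
theorem join {X1 X2 I1 I2 Y1 Y2 P1 P2 : Set W} {p p' : W} (h1 : Sh H Z X1 I1 ρ a p Y1 P1)
    (h2 : Sh H Z X2 I2 ρ p' b Y2 P2) (hp : p ∈ X1) (hp' : p' ∈ X2)
    (hbc : p = p' ∨ (ρ p < ρ p' ∧ H.Adj p p'))
    (eq : ∀ x ∈ X1 ∪ I1, x ∈ X2 ∪ I2 → x = p ∧ x = p')
    (ad : ∀ x ∈ Y1, ∀ y ∈ Y2, H.Adj x y → (x = p ∧ y = p') ∨ (p = p' ∧ (x = p ∨ y = p'))) :
    Sh H Z (X1 ∪ X2) (I1 ∪ I2) ρ a b (Y1 ∪ Y2) (P1 ∪ P2) := by
  classical
  obtain ⟨σ1, a1, h1⟩ := h1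
  obtain ⟨σ2, a2, h2⟩ := h2
  have r1 := h1.rx p hp h1.px.hb
  have r2 := h2.rx p' hp' h2.px.ha
  have n1 : ∀ x ∈ P1, x ∉ X2 ∪ I2 := fun x k m =>
    h1.dis _ h1.px.hb ((eq x (h1.ps k) m).1 ▸ k)
  have n2 : ∀ x ∈ P2, x ∉ X1 ∪ I1 := fun x k m =>
    h2.dis _ h2.px.ha ((eq x m (h2.ps k)).2 ▸ k)
  let σ : W → ℤ := fun x => if x ∈ Y1 then σ1 x else σ2 x
  let ax : W → W := fun x => if x ∈ P1 then a1 x else a2 x
  have s1 : ∀ x ∈ Y1, σ x = σ1 x := fun x k => if_pos k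
  have s2 : ∀ x ∈ Y2, σ x = σ2 x := fun x k => by
    by_cases m : x ∈ Y1
    · obtain ⟨e1, e2⟩ := eq x (h1.xs m) (h2.xs k)
      rw [s1 x m]
      subst e1
      subst e2
      rw [r1, r2]
    · exact if_neg m
  have b1 : ∀ x ∈ P1, ax x = a1 x := fun x k => if_pos k
  have b2 : ∀ x ∈ P2, ax x = a2 x := fun x k => if_neg fun m => n1 x m (h2.ps k)
  refine ⟨σ, ax, (h1.px.congr s1).join (h2.px.congr s2) ?_ ad,
    ?_, ?_, ?_, ?_, ?_, ?_, ?_, ?_, ?_, ?_⟩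
  · rw [s1 p h1.px.hb, s2 p' h2.px.ha, r1, r2]
    exact hbc
  · rintro x (k | k)
    exacts [(h1.xs k).imp Or.inl Or.inl, (h2.xs k).imp Or.inr Or.inr]
  · rintro x (k | k)
    exacts [(h1.ps k).imp Or.inl Or.inl, (h2.ps k).imp Or.inr Or.inr]
  · rintro x (k | k) (m | m)
    exacts [h1.dis x k m, n2 x m (h1.xs k), n1 x m (h2.xs k), h2.dis x k m]
  · rintro x (k | k)
    exacts [(h1.xx k).imp Or.inl Or.inl, (h2.xx k).imp Or.inr Or.inr]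
  · rintro x (k | k) (m | m)
    · rw [s1 x m, h1.rx x k m]
    · obtain ⟨-, rfl⟩ := eq x (Or.inl k) (h2.xs m)
      rw [s2 x m, r2]
    · obtain ⟨rfl, -⟩ := eq x (h1.xs m) (Or.inl k)
      rw [s1 x m, r1]
    · rw [s2 x m, h2.rx x k m]
  · have mix : ∀ x ∈ Y1, ∀ y ∈ Y2, H.Adj x y → x ∈ X1 ∪ X2 ∨ y ∈ X1 ∪ X2 := by
      intro x k y m e
      rcases ad x k y m e with r | ⟨-, r | r⟩
      exacts [Or.inl (Or.inl (r.1 ▸ hp)), Or.inl (Or.inl (r ▸ hp)), Or.inr (Or.inr (r ▸ hp'))]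
    rintro x (k | k) y (m | m) e
    exacts [(h1.nx x k y m e).imp Or.inl Or.inl, mix x k y m e, (mix y m x k e.symm).symm,
      (h2.nx x k y m e).imp Or.inr Or.inr]
  · rintro v (k | k)
    · rw [b1 v k]
      obtain ⟨m1, m2⟩ := h1.ap v k
      exact ⟨Or.inl m1, fun r => r.elim m2 fun r => m2 ((eq _ (h1.xs m1) (Or.inl r)).1 ▸ hp)⟩
    · rw [b2 v k]
      obtain ⟨m1, m2⟩ := h2.ap v k
      exact ⟨Or.inr m1, fun r => r.elim (fun r => m2 ((eq _ (Or.inl r) (h2.xs m1)).2 ▸ hp')) m2⟩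
  · rintro v (k | k) z e
    · rw [b1 v k]
      rcases h1.pk v k z e with m | m | m | m
      exacts [Or.inl m, Or.inr (Or.inl ⟨Or.inl m.1, (b1 z m.1).trans m.2⟩),
        Or.inr (Or.inr (Or.inl m)), Or.inr (Or.inr (Or.inr ⟨m.1, Or.inl m.2⟩))]
    · rw [b2 v k]
      rcases h2.pk v k z e with m | m | m | m
      exacts [Or.inl m, Or.inr (Or.inl ⟨Or.inr m.1, (b2 z m.1).trans m.2⟩),
        Or.inr (Or.inr (Or.inl m)), Or.inr (Or.inr (Or.inr ⟨m.1, Or.inr m.2⟩))]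
  · rintro v (k | k)
    · obtain ⟨y, hy, c⟩ := h1.cn v k
      exact ⟨y, Or.inl hy, c.up Set.subset_union_left⟩
    · obtain ⟨y, hy, c⟩ := h2.cn v k
      exact ⟨y, Or.inr hy, c.up Set.subset_union_right⟩
  · rintro x (k | k) n
    · obtain ⟨y, hy, e⟩ := h1.tn x k fun m => n (Or.inl m)
      exact ⟨y, Or.inl hy, e⟩
    · obtain ⟨y, hy, e⟩ := h2.tn x k fun m => n (Or.inr m)
      exact ⟨y, Or.inr hy, e⟩

/-- the last vertex is dropped if the vertex before it is not hidden -/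
theorem drop {X0 : Set W} {q : W} (h : Sh H Z X I ρ a b X' P) (hX : ∀ x, x ∈ X ↔ x ∈ X0 ∨ x = b)
    (hb : b ∉ X0) (hq0 : q ∈ X0) (hq : q ∈ X') (e : H.Adj q b) :
    Sh H Z X0 I ρ a q (X' \ {b}) P := by
  obtain ⟨σ, ax, h⟩ := h
  have bX : b ∈ X := (hX b).2 (Or.inr rfl)
  have lq := h.px.lt_hi hq e.ne
  have bP : b ∉ P := h.dis b h.px.hb
  have sub : ∀ x, x ∈ X ∪ I → x ≠ b → x ∈ X0 ∪ I := fun x k n =>
    k.imp_left fun m => ((hX x).1 m).resolve_right n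
  refine ⟨σ, ax, h.px.sub h.px.ha hq (h.px.lo q hq) fun x => ⟨fun k => ⟨k.1, h.px.lo x k.1, ?_⟩,
    fun k => ⟨k.1, ?_⟩⟩, fun x k => sub x (h.xs k.1) k.2,
    fun x k => sub x (h.ps k) fun r => bP (r ▸ k), fun x k => h.dis x k.1, fun x k => ?_,
    fun x k m => h.rx x ((hX x).2 (Or.inl k)) m.1, fun x k y m a => ?_, fun v k => ?_,
    fun v k z a => ?_, fun v k => ?_, fun x k n => h.tn x k.1 fun m => ?_⟩
  · have := h.px.nb hq h.px.hb e k.1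
    have := h.px.lt_hi k.1 k.2
    omega
  · rintro rfl
    omega
  · exact (h.xx ((hX x).2 (Or.inl k))).imp_left fun m => ⟨m, fun r => hb (r ▸ k)⟩
  · exact (h.nx x k.1 y m.1 a).imp (fun r => ((hX x).1 r).resolve_right k.2)
      fun r => ((hX y).1 r).resolve_right m.2
  · obtain ⟨m1, m2⟩ := h.ap v k
    exact ⟨⟨m1, fun r => m2 (r ▸ bX)⟩, fun r => m2 ((hX _).2 (Or.inl r))⟩
  · refine (h.pk v k z a).imp_right (Or.imp_right (Or.imp_right fun m => ⟨m.1, m.2, ?_⟩))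
    rintro rfl
    obtain ⟨m1, m2⟩ := h.ap v k
    exact m2 (h.px.dn_eq h.px.hb m1 hq m.1 e.symm (h.px.lt_hi m1 m.1.ne') lq ▸
      (hX q).2 (Or.inl hq0))
  · obtain ⟨y, hy, c⟩ := h.cn v k
    exact ⟨y, ((hX y).1 hy).resolve_right fun r => bP (r ▸ c.mem k), c⟩
  · exact n (((hX x).1 m).resolve_right k.2)

/-- the first vertex is dropped if the vertex after it is not hidden -/
theorem drop' {X0 : Set W} {q : W} (h : Sh H Z X I ρ a b X' P) (hX : ∀ x, x ∈ X ↔ x ∈ X0 ∨ x = a)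
    (ha : a ∉ X0) (hq0 : q ∈ X0) (hq : q ∈ X') (e : H.Adj q a) :
    Sh H Z X0 I ρ q b (X' \ {a}) P :=
  (h.rv.drop hX ha hq0 hq e).rv.congr fun _ _ => by omega

/-- a cap: the apex `u` hides everything between `a` and `b` -/
theorem cap {u : W} (h : Pth H X ρ a b) (ua : H.Adj u a) (ub : H.Adj u b) (ne : a ≠ b)
    (n : ¬ H.Adj a b) (hu : u ∈ I) (uX : u ∉ X) (uP : u ∉ P) (ps : P ⊆ X ∪ I)
    (hP : ∀ x ∈ X, x ∈ P ↔ x ≠ a ∧ x ≠ b)
    (pk : ∀ v ∈ P, ∀ z, H.Adj v z → z ∈ Z ∨ z ∈ P ∨ z = u ∨ z ∈ X)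
    (cn : ∀ v ∈ P, ∃ y ∈ X, Conn H P v y) (tn : u ∈ Nb H P) :
    Sh H Z X I ρ a b {a, u, b} P := by
  classical
  let σ : W → ℤ := fun x => if x = u then ρ a + 1 else ρ x
  have su : σ u = ρ a + 1 := if_pos rfl
  have so : ∀ x ∈ X, σ x = ρ x := fun x k => if_neg fun r : x = u => uX (r ▸ k)
  have l : ρ a + 1 < ρ b := by
    obtain ⟨v, hv, l, e, -⟩ := h.succ h.ha ne
    have := h.lt_hi hv fun r => n (r ▸ e)
    omega
  have px : Pth H ({a, u} ∪ {u, b}) σ a b := by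
    refine (Pth.pair ua.symm (by rw [su, so a h.ha]; omega)).join
      (Pth.pair ub (by rw [su, so b h.hb]; omega)) (Or.inl rfl) ?_
    rintro x (rfl | rfl) y (rfl | rfl) e
    exacts [Or.inr ⟨rfl, Or.inr rfl⟩, absurd e n, Or.inl ⟨rfl, rfl⟩, Or.inr ⟨rfl, Or.inl rfl⟩]
  rw [show ({a, u} ∪ {u, b} : Set W) = {a, u, b} by
    ext
    simp only [Set.mem_union, Set.mem_insert_iff, Set.mem_singleton_iff]
    tauto] at px
  have old : ∀ x ∈ X, x ∈ P ∨ x = a ∨ x = b := fun x k => by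
    have := hP x k
    tauto
  refine ⟨σ, fun _ => u, px, ?_, ps, ?_, fun x k => ?_, fun x k _ => so x k, ?_,
    fun _ _ => ⟨Or.inr (Or.inl rfl), uX⟩, fun v k z e => ?_, cn, ?_⟩
  · rintro x (rfl | rfl | rfl)
    exacts [Or.inl h.ha, Or.inr hu, Or.inl h.hb]
  · rintro x (rfl | rfl | rfl)
    exacts [fun k => ((hP _ h.ha).1 k).1 rfl, uP, fun k => ((hP _ h.hb).1 k).2 rfl]
  · rcases old x k with m | m | m
    exacts [Or.inr m, Or.inl (Or.inl m), Or.inl (Or.inr (Or.inr m))]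
  · rintro x (rfl | rfl | rfl) y hy e
    · exact Or.inl h.ha
    · rcases hy with rfl | rfl | rfl
      exacts [Or.inr h.ha, absurd rfl e.ne, Or.inr h.hb]
    · exact Or.inl h.hb
  · rcases pk v k z e with m | m | m | m
    · exact Or.inl m
    · exact Or.inr (Or.inl ⟨m, rfl⟩)
    · exact Or.inr (Or.inr (Or.inl m))
    · rcases old z m with r | rfl | rfl
      exacts [Or.inr (Or.inl ⟨r, rfl⟩), Or.inr (Or.inr (Or.inr ⟨ua.symm, Or.inl rfl⟩)),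
        Or.inr (Or.inr (Or.inr ⟨ub.symm, Or.inr (Or.inr rfl)⟩))]
  · rintro x (rfl | rfl | rfl) m
    exacts [absurd h.ha m, tn, absurd h.hb m]

end Sh

variable {d : DD W} {S : Set (Sym2 W)} {o : OD W}

/-- The pockets of an output that hang on the first path. -/
def PX (d : DD W) (o : OD W) : Set W := {v | v ∈ o.Z ∧ v ∉ d.Z ∧ o.ax v ∈ o.X}

theorem sh_of_shp (D : Disc H d) (h : Shp H d S o) :
    Sh H d.Z d.X d.I d.ρ d.a d.b o.X (PX d o) := by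
  refine ⟨o.ρ, o.ax, h.px, fun x k => ?_, fun x k => ?_, fun x k m => h.xz k m.1, fun x k => ?_,
    h.rx, h.nx, fun v k => ?_, fun v k z e => ?_, fun v k => ?_, fun x k n => ?_⟩
  · by_cases m : x ∈ d.X
    exacts [Or.inl m, Or.inr (h.new_I k m)]
  · rcases d.cases x with m | m | m | m
    exacts [absurd m k.2.1, Or.inl m, absurd (h.swap.hidden D.swap m k.1).1 (h.xy k.2.2), Or.inr m]
  · exact (h.xx k).imp_right fun m => ⟨m, D.xz k, (h.hidden D k m).1⟩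
  · exact (h.ap v k.1 k.2.1).resolve_right fun m => h.xy k.2.2 m.1
  · by_cases r : z ∈ d.Z
    · exact Or.inl r
    rcases h.pk v k.1 k.2.1 z e with m | m | m | m
    · exact Or.inl m
    · exact Or.inr (Or.inl ⟨⟨m.1, r, m.2 ▸ k.2.2⟩, m.2⟩)
    · exact Or.inr (Or.inr (Or.inl m))
    · exact Or.inr (Or.inr (Or.inr ⟨m.1, (m.2.resolve_right fun g => h.xy k.2.2 g.2).1⟩))
  · obtain ⟨y, c, hy, m⟩ := h.pocket D k.1 k.2.1
    exact ⟨y, m.resolve_right fun g => h.xy (hy.2.2 ▸ k.2.2) (h.swap.hidden D.swap g hy.1).1,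
      c.up fun w hw => ⟨hw.1, hw.2.1, hw.2.2 ▸ k.2.2⟩⟩
  · obtain ⟨z, hz, e⟩ := h.disc.tz (Or.inl k)
    have xI := h.new_I k n
    have zZ := D.iz xI e
    refine ⟨z, ⟨hz, zZ, ?_⟩, e⟩
    rcases h.pk z hz zZ x e.symm with m | m | m | m
    exacts [absurd xI (Z_I m), absurd m.1 (h.xz k), m ▸ k,
      (m.2.resolve_right fun g => h.xy k g.1).2]

theorem MX_eq (d : DD W) (o : OD W) : MX d o = d.I \ (o.X ∪ PX d o) := by
  ext x
  exact and_congr_right fun k => not_congr (or_congr_right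
    ⟨fun m => ⟨m.1, fun r => Z_I r k, m.2⟩, fun m => ⟨m.1, m.2.2⟩⟩)

/-- a one-sided shape is the shape of an output that keeps the second path -/
theorem Sh.shp (D : Disc H d) (h : Sh H d.Z d.X d.I d.ρ d.a d.b X' P)
    (hS : ∀ e ∈ S, ∀ x ∈ e, x ∉ d.Z ∧ x ∉ P) :
    ∃ o : OD W, Shp H d S o ∧ o.X = X' ∧ o.Y = d.Y ∧ o.Z = d.Z ∪ P ∧
      (d.upd o).I = d.I \ (X' ∪ P) := by
  classical
  obtain ⟨σ, ax, h⟩ := h
  let o : OD W := ⟨d.Z ∪ P, X', d.Y, fun x => if x ∈ d.Y then d.ρ x else σ x, ax⟩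
  have xY : ∀ x ∈ d.X ∪ d.I, x ∉ d.Y := fun x k m => k.elim (fun r => D.xy r m) (Y_I m)
  have xZ : ∀ x ∈ d.X ∪ d.I, x ∉ d.Z := fun x k m => k.elim (fun r => D.xz r m) (Z_I m)
  have eI : (d.upd o).I = d.I \ (X' ∪ P) := by
    ext x
    have := @h.xx x
    simp only [DD.mem_I, DD.upd, o, Set.mem_sdiff, Set.mem_union] at this ⊢
    tauto
  have sI : (d.upd o).I ⊆ d.I := fun x k => (eI ▸ k : x ∈ d.I \ (X' ∪ P)).1
  refine ⟨o, ⟨⟨h.px.congr fun x k => if_neg (xY x (h.xs k)), D.py.congr fun x k => if_pos k,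
    Set.disjoint_left.2 fun x k => xY x (h.xs k), D.ra, D.rb, ?_, ?_, ?_, ?_, D.fin.subset sI,
    D.nj.mono sI⟩, Set.subset_union_left, fun x k => (h.xx k).imp_right Or.inr,
    Set.subset_union_left, fun x k m => (if_neg (D.xy k)).trans (h.rx x k m),
    fun x k _ => if_pos k, h.nx, fun _ k _ _ _ => Or.inl k,
    fun v k n => Or.inl (h.ap v (k.resolve_left n)), fun v k n z e => ?_,
    fun e k x m r => r.elim (hS e k x m).1 (hS e k x m).2⟩, rfl, rfl, rfl, eI⟩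
  · refine isConn_base D.zc Set.subset_union_left ?_
    rintro x (k | k)
    · exact ⟨x, k, Conn.rfl'⟩
    · obtain ⟨y, hy, c⟩ := h.cn x k
      obtain ⟨z, hz, e⟩ := D.tz (Or.inl hy)
      exact ⟨z, hz, (c.up Set.subset_union_right).snoc (Or.inr (c.mem k)) (Or.inl hz) e⟩
  · refine Set.disjoint_left.2 ?_
    rintro x (k | k) (m | m)
    exacts [xZ x (h.xs m) k, D.yz m k, h.dis x m k, xY x (h.ps k) m]
  · rintro x ⟨z, k | k, e⟩
    · rcases D.cl ⟨z, k, e⟩ with m | m | m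
      · exact Or.inl (Or.inl m)
      · rcases h.xx m with r | r
        exacts [Or.inr (Or.inl r), Or.inl (Or.inr r)]
      · exact Or.inr (Or.inr m)
    · rcases Sh.nP ⟨σ, ax, h⟩ k e.symm with m | m | m
      exacts [Or.inl (Or.inl m), Or.inl (Or.inr m), Or.inr (Or.inl m)]
  · rintro x (k | k)
    · by_cases m : x ∈ d.X
      · obtain ⟨z, hz, e⟩ := D.tz (Or.inl m)
        exact ⟨z, Or.inl hz, e⟩
      · obtain ⟨z, hz, e⟩ := h.tn x k m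
        exact ⟨z, Or.inr hz, e⟩
    · obtain ⟨z, hz, e⟩ := D.tz (Or.inr k)
      exact ⟨z, Or.inl hz, e⟩
  · have vP := k.resolve_left n
    rcases h.pk v vP z e with m | m | m | m
    exacts [Or.inl m, Or.inr (Or.inl ⟨Or.inr m.1, m.2⟩), Or.inr (Or.inr (Or.inl m)),
      Or.inr (Or.inr (Or.inr ⟨m.1, Or.inl ⟨m.2, (h.ap v vP).1⟩⟩))]

end Pool.Agent.P.MP_08fd93_co.FB
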