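import Pool.Agent.P.MP_08fd93_co.FB.C5

/-! Gluing one-sided outputs: splitting at a rung, cutting at a vertex of the upper class. -/

set_option autoImplicit false

namespace Pool.Agent.P.MP_08fd93_co.FB

open OV FU

variable {W : Type} {H : SimpleGraph W} {d dL dR : DD W} {SL SR : Set (Sym2 W)}
  {XL XR PL PR : Set W} {ΨL ΨR Ψ : (W → Col) → Set W → Prop}

theorem two_rec (DL : Disc H dL) (DR : Disc H dR) (OL : OutX H dL SL XL PL ΨL)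
    (OR : OutX H dR SR XR PR ΨR) (lr : ∀ x ∈ dL.I, x ∈ dR.Z) (rl : ∀ x ∈ dR.I, x ∈ dL.Z)
    {c c0 : W → Col} {ω : W → W} {A1 A2 : Set W} (x1 : ∀ x ∈ XL, (c x).1 = false)
    (x2 : ∀ x ∈ XR, (c x).1 = false) (y1 : ∀ y ∈ dL.Y ∪ dR.Y, (c0 y).1 = true)
    (y2 : ∀ y ∈ dL.Y ∪ dR.Y, c y = c0 y) (p1 : Paid (PE H (dL.X ∩ XL) \ SL) c ω)
    (p2 : Paid (PE H (dR.X ∩ XR) \ SR) c ω) (q1 : ΨL c0 A1) (q2 : ΨR c0 A2)
    (dis : ∀ x ∈ Pay (PE H (dL.X ∩ XL) \ SL) c ω ∪ (A1 ∩ dL.Y),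
      x ∉ Pay (PE H (dR.X ∩ XR) \ SR) c ω ∪ (A2 ∩ dR.Y)) :
    ∃ c', Rec H (dL.I \ (XL ∪ PL) ∪ dR.I \ (XR ∪ PR))
      (Pay (PE H (dL.X ∩ XL) \ SL) c ω ∪ (A1 ∩ dL.Y) ∪
        (Pay (PE H (dR.X ∩ XR) \ SR) c ω ∪ (A2 ∩ dR.Y))) c c' := by
  obtain ⟨c2, r2⟩ := OL.ext c c0 ω A1 x1 (fun y k => y1 y (Or.inl k)) (fun y k => y2 y (Or.inl k))
    p1 q1
  have e2 : ∀ x, x ∉ dR.Z → c2 x = c x := fun x k => r2.off x fun m => k (lr x m.1)
  have eX : ∀ e ∈ PE H (dR.X ∩ XR) \ SR, ∀ x ∈ e, x ∈ dR.X := fun e k x m => (PE.ends k.1 m).1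
  have e3 : ∀ x ∈ dR.X, c2 x = c x := fun x k => e2 x (DR.xz k)
  obtain ⟨c3, r3⟩ := OR.ext c2 c0 ω A2
    (fun x k => by
      rw [e2 x ((OR.sh.xs k).elim DR.xz fun m r => Z_I r m)]
      exact x2 x k)
    (fun y k => y1 y (Or.inr k)) (fun y k => (e2 y (DR.yz k)).trans (y2 y (Or.inr k)))
    (paid_congr eX e3 (fun _ _ => rfl) p2) q2
  have r4 := r3.mono (Al' := Pay (PE H (dR.X ∩ XR) \ SR) c ω ∪ (A2 ∩ dR.Y))
    fun x _ k => k.imp_left fun m => pay_congr eX e3 (fun _ _ => rfl) m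
  refine ⟨c3, r2.union r4 (Set.disjoint_left.2 fun x k m => Z_I (lr x k.1) m.1) ?_
    fun x _ _ k => dis x k⟩
  rintro ⟨x, k, y, m, e⟩
  exact DL.iz k.1 e (rl y m.1)

/-- Two parts that divide the first path at `p`; `N` is the rest of the interior. -/
structure Two (H : SimpleGraph W) (d dL dR : DD W) (p : W) (N : Set W) : Prop where
  disc : Disc H d
  dl : Disc H dL
  dr : Disc H dR
  hp : p ∈ d.X
  lX : ∀ x, x ∈ dL.X ↔ x ∈ d.X ∧ d.ρ x ≤ d.ρ p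
  rX : ∀ x, x ∈ dR.X ↔ x ∈ d.X ∧ d.ρ p ≤ d.ρ x
  lρ : ∀ x ∈ dL.X, dL.ρ x = d.ρ x
  rρ : ∀ x ∈ dR.X, dR.ρ x = d.ρ x
  la : dL.a = d.a
  lb : dL.b = p
  ra : dR.a = p
  rb : dR.b = d.b
  cov : ∀ x, x ∈ d.I ↔ x ∈ N ∨ x ∈ dL.I ∨ x ∈ dR.I
  nl : ∀ x ∈ N, x ∉ dL.I
  nr : ∀ x ∈ N, x ∉ dR.I
  lr : ∀ x ∈ dL.I, x ∈ dR.Z
  rl : ∀ x ∈ dR.I, x ∈ dL.Z
  lY : dL.Y ⊆ d.Y ∪ N
  rY : dR.Y ⊆ d.Y ∪ N
  inL : ∀ v ∈ d.X, d.ρ v < d.ρ p → ∀ z, H.Adj v z → z ∈ dL.Z → z ∈ d.Z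
  inR : ∀ v ∈ d.X, d.ρ p < d.ρ v → ∀ z, H.Adj v z → z ∈ dR.Z → z ∈ d.Z
  nN : ∀ x ∈ N, x ∈ dL.Y ∪ dR.Y ∨ ∀ z, H.Adj x z → z ∈ N ∪ d.Y

variable {p : W} {N : Set W}

theorem Two.eq (h : Two H d dL dR p N) : ∀ x ∈ dL.X ∪ dL.I, x ∈ dR.X ∪ dR.I → x = p := by
  rintro x (k | k) (m | m)
  · exact h.disc.px.inj _ ((h.lX x).1 k).1 _ h.hp
      (le_antisymm ((h.lX x).1 k).2 ((h.rX x).1 m).2)
  · exact absurd (h.rl x m) (h.dl.xz k)
  · exact absurd (h.lr x k) (h.dr.xz m)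
  · exact absurd m (Z_I (h.lr x k))

theorem Two.sh (h : Two H d dL dR p N) (s1 : Sh H dL.Z dL.X dL.I dL.ρ dL.a dL.b XL PL)
    (s2 : Sh H dR.Z dR.X dR.I dR.ρ dR.a dR.b XR PR) :
    Sh H d.Z d.X d.I d.ρ d.a d.b (XL ∪ XR) (PL ∪ PR) := by
  have D := h.disc
  have t1 := (s1.up (Z0 := d.Z) (fun v k z e => h.dl.iz k e) fun v k _ n z e m => h.inL v
    ((h.lX v).1 k).1 (lt_of_le_of_ne ((h.lX v).1 k).2 fun r => n
      ((D.px.inj _ ((h.lX v).1 k).1 _ h.hp r).trans h.lb.symm)) z e m).congr h.lρ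
  have t2 := (s2.up (Z0 := d.Z) (fun v k z e => h.dr.iz k e) fun v k n _ z e m => h.inR v
    ((h.rX v).1 k).1 (lt_of_le_of_ne ((h.rX v).1 k).2 fun r => n
      ((D.px.inj _ ((h.rX v).1 k).1 _ h.hp r.symm).trans h.ra.symm)) z e m).congr h.rρ
  rw [h.la, h.lb] at t1
  rw [h.ra, h.rb] at t2
  have nI : ∀ x ∈ d.X, x ∉ d.Y ∪ N := fun x k m =>
    m.elim (D.xy k) fun r => X_I k ((h.cov x).2 (Or.inl r))
  have t := t1.join t2 ((h.lX p).2 ⟨h.hp, le_rfl⟩) ((h.rX p).2 ⟨h.hp, le_rfl⟩) (Or.inl rfl)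
    (fun x k m => ⟨h.eq x k m, h.eq x k m⟩) ?_
  · rw [show dL.X ∪ dR.X = d.X by
      ext x
      rw [Set.mem_union, h.lX, h.rX, ← and_or_left, and_iff_left (le_total _ _)]] at t
    exact t.upI fun x k => (h.cov x).2 (Or.inr k)
  · rintro x k y m e
    refine Or.inr ⟨rfl, ?_⟩
    rcases s1.xs k with k | k <;> rcases s2.xs m with m | m
    · have k' := (h.lX x).1 k
      have m' := (h.rX y).1 m
      have := D.px.nb k'.1 m'.1 e h.hp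
      by_cases r : d.ρ x = d.ρ p
      exacts [Or.inl (D.px.inj _ k'.1 _ h.hp r), Or.inr (D.px.inj _ m'.1 _ h.hp (by omega))]
    · rcases nb_I h.dr m e.symm with r | r | r
      exacts [Or.inl (h.eq x (Or.inl k) (Or.inl r)), absurd (h.rY r) (nI x ((h.lX x).1 k).1),
        Or.inl (h.eq x (Or.inl k) (Or.inr r))]
    · rcases nb_I h.dl k e with r | r | r
      exacts [Or.inr (h.eq y (Or.inl r) (Or.inl m)), absurd (h.lY r) (nI y ((h.rX y).1 m).1),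
        Or.inr (h.eq y (Or.inr r) (Or.inl m))]
    · exact absurd (h.rl y m) (h.dl.iz k e)

/-- The data that colour the middle part `N` and distribute the tokens. -/
structure Mid (H : SimpleGraph W) (Y YL YR N : Set W) (c c1 : W → Col) (A A1 A2 : Set W) :
    Prop where
  old : ∀ y ∈ Y, c1 y = c y
  cls : ∀ y ∈ YL ∪ YR, (c1 y).1 = true
  dis : ∀ x ∈ YL, x ∈ YR → x ∈ A1 → x ∉ A2
  one : ∀ x ∈ N, OneIn H c1 (N ∪ Y) x
  tok : ∀ x ∈ N, x ∈ A1 ∩ YL ∪ A2 ∩ YR → ∀ y ∈ N ∪ Y, H.Adj x y → c1 y ≠ c1 x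
  use : ∀ x ∈ Y, ∀ y ∈ N, H.Adj x y → c1 y = c1 x → x ∈ A ∧ x ∉ A1 ∩ YL ∪ A2 ∩ YR
  un : ∀ x ∈ Y, OneIn H c1 N x
  sub : ∀ x ∈ Y, x ∈ A1 ∩ YL ∪ A2 ∩ YR → x ∈ A

theorem Two.glue (h : Two H d dL dR p N) (OL : OutX H dL SL XL PL ΨL) (OR : OutX H dR SR XR PR ΨR)
    (hc : ∀ c A, (∀ y ∈ d.Y, (c y).1 = true) → Ψ c A →
      ∃ c1 A1 A2, Mid H d.Y dL.Y dR.Y N c c1 A A1 A2 ∧ ΨL c1 A1 ∧ ΨR c1 A2) :
    OutX H d (SL ∪ SR) (XL ∪ XR) (PL ∪ PR) Ψ := by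
  classical
  have D := h.disc
  have S := h.sh OL.sh OR.sh
  have sL : dL.X ⊆ d.X := fun x k => ((h.lX x).1 k).1
  have sR : dR.X ⊆ d.X := fun x k => ((h.rX x).1 k).1
  have sN : N ⊆ d.I := fun x k => (h.cov x).2 (Or.inl k)
  have noe : ∀ e ∈ PE H dL.X, e ∉ PE H dR.X := by
    rintro _ ⟨x, k, y, m, e, rfl⟩ r
    exact e.ne ((h.eq x (Or.inl k) (Or.inl (mem_PE.1 r).1)).trans
      (h.eq y (Or.inl m) (Or.inl (mem_PE.1 r).2.1)).symm)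
  have l1 : PE H (dL.X ∩ XL) \ SL ⊆ PE H (d.X ∩ (XL ∪ XR)) \ (SL ∪ SR) := fun e k =>
    ⟨PE.mono (Set.inter_subset_inter sL Set.subset_union_left) k.1, fun m => m.elim k.2 fun r =>
      noe e (PE.mono Set.inter_subset_left k.1) (OR.sub r)⟩
  have l2 : PE H (dR.X ∩ XR) \ SR ⊆ PE H (d.X ∩ (XL ∪ XR)) \ (SL ∪ SR) := fun e k =>
    ⟨PE.mono (Set.inter_subset_inter sR Set.subset_union_right) k.1, fun m => m.elim (fun r =>
      noe e (OL.sub r) (PE.mono Set.inter_subset_left k.1)) k.2⟩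
  have nX : ∀ x ∈ N, x ∉ XL ∪ XR ∪ (PL ∪ PR) := by
    have a1 : ∀ x ∈ N, x ∉ dL.X ∪ dL.I := fun x k m =>
      m.elim (fun r => X_I (sL r) (sN k)) (h.nl x k)
    have a2 : ∀ x ∈ N, x ∉ dR.X ∪ dR.I := fun x k m =>
      m.elim (fun r => X_I (sR r) (sN k)) (h.nr x k)
    rintro x k ((m | m) | (m | m))
    exacts [a1 x k (OL.sh.xs m), a2 x k (OR.sh.xs m), a1 x k (OL.sh.ps m), a2 x k (OR.sh.ps m)]
  have eM : d.I \ (XL ∪ XR ∪ (PL ∪ PR)) = N ∪ (dL.I \ (XL ∪ PL) ∪ dR.I \ (XR ∪ PR)) := by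
    ext x
    constructor
    · rintro ⟨k, m⟩
      rcases (h.cov x).1 k with r | r | r
      · exact Or.inl r
      · exact Or.inr (Or.inl ⟨r, fun g => m (g.imp Or.inl Or.inl)⟩)
      · exact Or.inr (Or.inr ⟨r, fun g => m (g.imp Or.inr Or.inr)⟩)
    · rintro (k | ⟨k, m⟩ | ⟨k, m⟩)
      · exact ⟨sN k, nX x k⟩
      · have a : x ∉ dR.X ∪ dR.I := fun g => g.elim (fun r => h.dr.xz r (h.lr x k)) (Z_I (h.lr x k))
        refine ⟨(h.cov x).2 (Or.inr (Or.inl k)), ?_⟩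
        rintro ((r | r) | (r | r))
        exacts [m (Or.inl r), a (OR.sh.xs r), m (Or.inr r), a (OR.sh.ps r)]
      · have a : x ∉ dL.X ∪ dL.I := fun g => g.elim (fun r => h.dl.xz r (h.rl x k)) (Z_I (h.rl x k))
        refine ⟨(h.cov x).2 (Or.inr (Or.inr k)), ?_⟩
        rintro ((r | r) | (r | r))
        exacts [a (OL.sh.xs r), m (Or.inl r), a (OL.sh.ps r), m (Or.inr r)]
  refine ⟨S, Set.union_subset (OL.sub.trans (PE.mono sL)) (OR.sub.trans (PE.mono sR)), ?_,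
    fun c c0 ω A h1 h2 h3 h4 h5 => ?_⟩
  · rintro e (k | k) x m
    exacts [Or.inl (OL.st e k x m), Or.inr (OR.st e k x m)]
  obtain ⟨c1, A1, A2, M, q1, q2⟩ := hc c0 A h2 h5
  let c2 : W → Col := fun x => if x ∈ N then c1 x else c x
  have o1 : ∀ x, x ∉ N → c2 x = c x := fun x k => if_neg k
  have o2 : ∀ x ∈ N ∪ d.Y, c2 x = c1 x := by
    rintro x (k | k)
    · exact if_pos k
    · rw [o1 x fun m => Y_I k (sN m), h3 x k, M.old x k]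
  have o3 : ∀ x ∈ d.X, c2 x = c x := fun x k => o1 x fun m => X_I k (sN m)
  have o4 : ∀ x ∈ XL ∪ XR, (c2 x).1 = false := fun x k => by
    rw [o1 x fun m => nX x m (Or.inl k)]
    exact h1 x k
  have eX : ∀ e ∈ PE H (d.X ∩ (XL ∪ XR)) \ (SL ∪ SR), ∀ x ∈ e, x ∈ d.X :=
    fun e k x m => (PE.ends k.1 m).1
  have h4' := paid_congr eX o3 (fun _ _ => rfl) h4
  have yy : ∀ x ∈ d.X, x ∉ dL.Y ∪ dR.Y := fun x k m =>
    (m.elim (@h.lY x) (@h.rY x)).elim (D.xy k) fun r => X_I k (sN r)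
  have pX : ∀ x ∈ Pay (PE H (dL.X ∩ XL) \ SL) c2 ω ∪ Pay (PE H (dR.X ∩ XR) \ SR) c2 ω,
      x ∈ Pay (PE H (d.X ∩ (XL ∪ XR)) \ (SL ∪ SR)) c ω ∧ x ∈ d.X := fun x k => by
    have m : x ∈ Pay (PE H (d.X ∩ (XL ∪ XR)) \ (SL ∪ SR)) c2 ω :=
      k.elim (fun r => Pay.mono l1 r) fun r => Pay.mono l2 r
    exact ⟨pay_congr eX o3 (fun _ _ => rfl) m, eX _ m.1 x (Sym2.mem_mk_left _ _)⟩
  obtain ⟨c3, r⟩ := two_rec h.dl h.dr OL OR h.lr h.rl (c := c2) (c0 := c1) (ω := ω) (A1 := A1)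
    (A2 := A2) (fun x k => o4 x (Or.inl k)) (fun x k => o4 x (Or.inr k)) M.cls
    (fun y k => o2 y (k.elim (@h.lY y) (@h.rY y)).symm) (h4'.mono l1) (h4'.mono l2) q1 q2 (by
      rintro x (k | k) (m | m)
      · exact noe _ (PE.mono Set.inter_subset_left k.1.1) (PE.mono Set.inter_subset_left m.1.1)
      · exact yy x (pX x (Or.inl k)).2 (Or.inr m.2)
      · exact yy x (pX x (Or.inr m)).2 (Or.inl k.2)
      · exact M.dis x k.2 m.2 k.1 m.1)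
  have spl : ∀ x, x ∈ Pay (PE H (dL.X ∩ XL) \ SL) c2 ω ∪ (A1 ∩ dL.Y) ∪
      (Pay (PE H (dR.X ∩ XR) \ SR) c2 ω ∪ (A2 ∩ dR.Y)) →
      (x ∈ Pay (PE H (d.X ∩ (XL ∪ XR)) \ (SL ∪ SR)) c ω ∧ x ∈ d.X) ∨
        x ∈ A1 ∩ dL.Y ∪ A2 ∩ dR.Y := by
    rintro x ((k | k) | (k | k))
    exacts [Or.inl (pX x (Or.inl k)), Or.inr (Or.inl k), Or.inl (pX x (Or.inr k)),
      Or.inr (Or.inr k)]
  -- a neighbour of the same colour outside the two parts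
  have key : ∀ x ∈ N, ∀ y, y ∉ dL.I \ (XL ∪ PL) ∪ dR.I \ (XR ∪ PR) → H.Adj x y → c2 y = c2 x →
      y ∈ N ∪ d.Y := by
    intro x k y m e g
    rcases h.nN x k with r | r
    swap
    · exact r y e
    by_contra n
    have a : y ∈ XL ∪ XR ∪ (PL ∪ PR) := by
      rcases nb_I D (sN k) e with t | t | t
      · exact S.xx t
      · exact absurd (Or.inr t) n
      · by_contra t'
        rcases (eM ▸ ⟨t, t'⟩ : y ∈ N ∪ (dL.I \ (XL ∪ PL) ∪ dR.I \ (XR ∪ PR))) with s | s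
        exacts [n (Or.inl s), m s]
    rcases a with a | a
    · have b := o4 y a
      rw [g, o2 x (Or.inl k), M.cls x r] at b
      exact absurd b (by decide)
    · rcases S.nP a e.symm with t | t | t
      exacts [Z_I t (sN k), nX x k (Or.inr t), nX x k (Or.inl t)]
  rw [eM]
  refine ⟨c3, rec_add o1 r (fun x k m => m.elim (fun g => h.nl x k g.1) fun g => h.nr x k g.1)
    (fun x k y my z mz ey ez cy cz => ?_) (fun x k m y my e g => ?_) (fun x n m y k e g => ?_)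
    (fun x n m y ky z kz ey ez cy cz => ?_) fun x n _ k => ?_⟩
  · have a := key x k y my ey cy
    have b := key x k z mz ez cz
    rw [o2 x (Or.inl k)] at cy cz
    exact M.one x k y a z b ey ez (o2 y a ▸ cy) (o2 z b ▸ cz)
  · have a := key x k y my e g
    rw [o2 x (Or.inl k), o2 y a] at g
    exact M.tok x k ((spl x m).resolve_left fun t => X_I t.2 (sN k)) y a e g
  · have a := (key y k x m e.symm g.symm).resolve_left n
    rw [o2 x (Or.inr a), o2 y (Or.inl k)] at g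
    obtain ⟨b1, b2⟩ := M.use x a y k e g
    exact ⟨Or.inr ⟨b1, a⟩, fun t => (spl x t).elim (fun s => D.xy s.2 a) b2⟩
  · have a := (key y ky x m ey.symm cy.symm).resolve_left n
    rw [o2 x (Or.inr a)] at cy cz
    exact M.un x a y ky z kz ey ez (o2 y (Or.inl ky) ▸ cy) (o2 z (Or.inl kz) ▸ cz)
  · rcases spl x k with t | t
    · exact Or.inl t.1
    · have a : x ∈ d.Y :=
        (t.elim (fun s => h.lY s.2) fun s => h.rY s.2).resolve_right n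
      exact Or.inr ⟨M.sub x a t, a⟩

theorem spl_two {u v : W} {IL IR : Set W} (P : Spl H d u v IL IR) :
    Two H d (d.left u v IL) (d.right u v IR) u ∅ := by
  obtain ⟨g, g'⟩ := PkSpl2P.geo P P.nc
  have D := P.disc
  have out : ∀ {e e' : DD W}, PkSpl2P.Geo H d e e' u v → ∀ x ∈ e.I, x ∈ e'.Z := by
    intro e e' g x k
    by_contra n
    have m := DD.mem_I.1 k
    rcases g.ov x m.1 n with rfl | rfl
    exacts [m.2.1 (PkSpl2P.ueX g), m.2.2 (PkSpl2P.veY g)]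
  have inn : ∀ {e e' : DD W}, PkSpl2P.Geo H d e e' u v → ∀ x ∈ e.X, x ≠ u → ∀ z, H.Adj x z →
      z ∈ e.Z → z ∈ d.Z := by
    intro e e' g x k n z a m
    by_contra r
    exact g.na x z (g.de.xz k) ((g.cov z r).resolve_left fun t => t m) n
      (fun t => g.de.xy k (t ▸ PkSpl2P.veY g)) (fun t => g.de.xz (PkSpl2P.ueX g) (t ▸ m))
      (fun t => g.de.yz (PkSpl2P.veY g) (t ▸ m)) a
  have sub : ∀ {e e' : DD W}, PkSpl2P.Geo H d e e' u v → ∀ x, x ∉ e.Z → (x ∈ e.I ↔ x ∈ d.I) := by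
    intro e e' g x k
    have := @g.zz x
    rw [DD.mem_I, DD.mem_I, g.hx, g.hy]
    tauto
  refine ⟨D, P.dl, P.dr, P.hu, fun _ => Iff.rfl, fun _ => Iff.rfl, fun _ _ => rfl, fun _ _ => rfl,
    rfl, rfl, rfl, rfl, fun x => ⟨fun k => Or.inr ?_, ?_⟩, fun _ k => k.elim, fun _ k => k.elim,
    out g, out g', fun _ k => Or.inl k.1, fun _ k => Or.inl k.1,
    fun x k l => inn g x ⟨k, l.le⟩ fun r => by rw [r] at l; exact lt_irrefl _ l,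
    fun x k l => inn g' x ⟨k, l.le⟩ fun r => by rw [r] at l; exact lt_irrefl _ l,
    fun _ k => k.elim⟩
  · exact (g.cov x (DD.mem_I.1 k).1).imp (fun m => (sub g x m).2 k) fun m => (sub g' x m).2 k
  · rintro (k | k | k)
    exacts [k.elim, (sub g x (DD.mem_I.1 k).1).1 k, (sub g' x (DD.mem_I.1 k).1).1 k]

/-- splitting at a rung: the token of the upper end `v` goes to at most one side -/
theorem spl_glue {u v : W} {IL IR : Set W} (P : Spl H d u v IL IR)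
    (OL : OutX H (d.left u v IL) SL XL PL ΨL) (OR : OutX H (d.right u v IR) SR XR PR ΨR)
    (hc : ∀ c A, (∀ y ∈ d.Y, (c y).1 = true) → Ψ c A →
      ∃ A1 A2, ΨL c A1 ∧ ΨR c A2 ∧ (v ∈ A1 → v ∉ A2) ∧
        (∀ y ∈ d.Y, d.ρ y ≤ d.ρ v → y ∈ A1 → y ∈ A) ∧ ∀ y ∈ d.Y, d.ρ v ≤ d.ρ y → y ∈ A2 → y ∈ A) :
    OutX H d (SL ∪ SR) (XL ∪ XR) (PL ∪ PR) Ψ := by
  refine (spl_two P).glue OL OR fun c A h1 h2 => ?_
  obtain ⟨A1, A2, k1, k2, k3, k4, k5⟩ := hc c A h1 h2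
  refine ⟨c, A1, A2, ⟨fun _ _ => rfl, fun y k => h1 y (k.elim And.left And.left),
    fun x k m => ?_, fun _ k => k.elim, fun _ k => k.elim, fun _ _ _ k => k.elim,
    fun _ _ _ k => k.elim, ?_⟩, k1, k2⟩
  · rwa [P.disc.py.inj x k.1 v P.hv (le_antisymm k.2 m.2)]
  · rintro x hx (k | k)
    exacts [k4 x hx k.2.2 k.1, k5 x hx k.2.2 k.1]

variable {u ql qj : W} {K : Set W}

theorem Cut.lr' (h : Cut H d u p ql qj dL dR K) : ∀ x ∈ dL.I, x ∈ dR.Z := by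
  intro x k
  rcases dR.cases x with m | m | m | m
  · exact m
  · exact absurd (h.sL k) (X_I ((h.r.eX x).1 m).1)
  · rcases (h.r.eY x).1 m with r | rfl
    exacts [absurd (h.sL k) (Y_I r.1), absurd k (Y_I h.uL)]
  · exact absurd m (h.lr x k)

theorem Cut.rl' (h : Cut H d u p ql qj dL dR K) : ∀ x ∈ dR.I, x ∈ dL.Z := h.rv.lr'

theorem Cut.two (h : Cut H d u p ql qj dL dR K) : Two H d dL dR p (K ∪ {u}) := by
  have nu : ∀ x ∈ d.X, x ≠ u := fun x k r => X_I k (r ▸ h.hub.hu)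
  refine ⟨h.hub.disc, h.l.disc, h.r.disc, h.hub.hp, h.l.eX, h.r.eX,
    fun x k => h.l.eρ x (nu x ((h.l.eX x).1 k).1), fun x k => h.r.eρ x (nu x ((h.r.eX x).1 k).1),
    h.l.ea, h.l.eb, h.r.ea, h.r.eb, fun x => ?_, ?_, ?_, h.lr', h.rl', fun y k => ?_,
    fun y k => ?_, fun v k l z => h.inL (Or.inl ⟨k, l⟩), fun v k l z => h.inR (Or.inl ⟨k, l⟩), ?_⟩
  · rw [h.cov, Set.mem_union, Set.mem_singleton_iff]
    tauto
  · rintro x (k | rfl)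
    exacts [fun m => h.lk x m k, Y_I h.uL]
  · rintro x (k | rfl)
    exacts [fun m => h.rk x m k, Y_I h.uR]
  · exact ((h.l.eY y).1 k).imp And.left Or.inr
  · exact ((h.r.eY y).1 k).imp And.left Or.inr
  · rintro x (k | rfl)
    · refine Or.inr fun z e => ?_
      rcases h.nk x k z e with m | m | m
      exacts [Or.inl (Or.inl m), Or.inl (Or.inr m), Or.inr m.1]
    · exact Or.inl (Or.inl h.uL)

/-- cutting at a vertex that gets the class of the second path -/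
theorem Cut.top (h : Cut H d u p ql qj dL dR K) (OL : OutX H dL SL XL PL ΨL)
    (OR : OutX H dR SR XR PR ΨR)
    (hc : ∀ c A, (∀ y ∈ d.Y, (c y).1 = true) → Ψ c A →
      ∃ c1 A1 A2, Mid H d.Y dL.Y dR.Y (K ∪ {u}) c c1 A A1 A2 ∧ ΨL c1 A1 ∧ ΨR c1 A2) :
    OutX H d (SL ∪ SR) (XL ∪ XR) (PL ∪ PR) Ψ := h.two.glue OL OR hc

end Pool.Agent.P.MP_08fd93_co.FB
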