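import Pool.Agent.P.MP_08fd93_co.FB.C6

/-! Cutting at a vertex of the upper class with a short fan; cutting at a vertex of the lower
class (cap, ear, single lower neighbour). -/

set_option autoImplicit false

namespace Pool.Agent.P.MP_08fd93_co.FB

open OV FU

variable {W : Type} {H : SimpleGraph W} {d dL dR : DD W} {SL SR : Set (Sym2 W)}
  {XL XR PL PR K : Set W} {ΨL ΨR Ψ : (W → Col) → Set W → Prop} {u p t ql qj : W}

theorem Cut.both (h : Cut H d u p ql qj dL dR K) {x : W} (k : x ∈ dL.Y) (m : x ∈ dR.Y) :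
    x = u ∨ (x = ql ∧ ql = qj) := by
  have lj := h.hub.lj
  rcases (h.l.eY x).1 k with k | k
  · rcases (h.r.eY x).1 m with m | m
    · have := k.2
      have := m.2
      exact Or.inr ⟨h.hub.disc.py.inj _ k.1 _ h.hub.hl (by omega),
        h.hub.disc.py.inj _ h.hub.hl _ h.hub.hj (by omega)⟩
    · exact Or.inl m
  · exact Or.inl k

theorem Cut.uY (h : Cut H d u p ql qj dL dR K) (hq : ql = qj ∨ H.Adj ql qj) {y : W} (k : y ∈ d.Y)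
    (e : H.Adj u y) : y = ql ∨ y = qj := h.ym_short hq ⟨k, h.hub.ex y k e⟩

/-- `u` gets the colour `k` of the upper class; its fan is an edge or a triangle -/
theorem Cut.top_short (hP : Pl H Set.univ) (T : TA H) (h : Cut H d u p ql qj dL dR K)
    (hq : ql = qj ∨ H.Adj ql qj) (OL : OutX H dL SL XL PL ΨL) (OR : OutX H dR SR XR PR ΨR)
    (hc : ∀ c A, (∀ y ∈ d.Y, (c y).1 = true) → Ψ c A → ∃ (k : Col) (A1 A2 : Set W), k.1 = true ∧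
      (ql ≠ qj → ¬ (c ql = k ∧ c qj = k)) ∧
      (c ql = k → ql ∈ A ∧ ql ∉ A1 ∧ (ql = qj → ql ∉ A2) ∧ u ∉ A1 ∧ u ∉ A2) ∧
      (c qj = k → qj ∈ A ∧ qj ∉ A2 ∧ (ql = qj → qj ∉ A1) ∧ u ∉ A1 ∧ u ∉ A2) ∧
      (u ∈ A1 → u ∉ A2) ∧ (ql = qj → ql ∈ A1 → ql ∉ A2) ∧
      (∀ y ∈ d.Y, d.ρ y ≤ d.ρ ql → y ∈ A1 → y ∈ A) ∧ (∀ y ∈ d.Y, d.ρ qj ≤ d.ρ y → y ∈ A2 → y ∈ A) ∧
      ∀ c1 : W → Col, c1 u = k → (∀ y ∈ d.Y, c1 y = c y) → ΨL c1 A1 ∧ ΨR c1 A2) :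
    OutX H d (SL ∪ SR) (XL ∪ XR) (PL ∪ PR) Ψ := by
  classical
  refine h.top OL OR fun c A h1 h2 => ?_
  obtain ⟨k, A1, A2, k0, k1, k2, k3, k4, k5, k6, k7, k8⟩ := hc c A h1 h2
  have nu : ∀ y ∈ d.Y, y ≠ u := fun y m r => Y_I m (r ▸ h.hub.hu)
  have nK : ∀ y ∈ d.Y, y ∉ K := fun y m r => Y_I m (h.sK r)
  obtain ⟨c1, r⟩ := h.tri' hP T hq (Function.update c u k) fun ne m => k1 ne (by
    rw [Function.update_self, Function.update_of_ne h.hub.ul.ne',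
      Function.update_of_ne h.hub.uj.ne'] at m
    exact ⟨m.1.symm, m.2.symm.trans m.1.symm⟩)
  have cu : c1 u = k := by rw [r.off u h.uk, Function.update_self]
  have cy : ∀ y ∈ d.Y, c1 y = c y := fun y m => by
    rw [r.off y (nK y m), Function.update_of_ne (nu y m)]
  have same : ∀ y ∈ K ∪ {u} ∪ d.Y, H.Adj u y → c1 y = c1 u → (y = ql ∨ y = qj) ∧ c y = k := by
    rintro y ((m | rfl) | m) e g
    · exact (r.al u h.uk y m e g).elim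
    · exact absurd rfl e.ne
    · exact ⟨h.uY hq m e, by rw [← cy y m, g, cu]⟩
  refine ⟨c1, A1, A2, ⟨cy, fun y m => ?_, fun x m m' => ?_, ?_, ?_, ?_, ?_, ?_⟩, k8 c1 cu cy⟩
  · rcases m.elim (fun s => ((h.l.eY y).1 s).imp_left And.left)
      fun s => ((h.r.eY y).1 s).imp_left And.left with s | rfl
    exacts [by rw [cy y s]; exact h1 y s, by rw [cu]; exact k0]
  · rcases h.both m m' with rfl | ⟨rfl, s⟩
    exacts [k4, k5 s]
  · rintro x (m | rfl)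
    · exact fun y _ z _ => r.one x m y z
    · intro y my z mz ey ez gy gz
      obtain ⟨a1, a2⟩ := same y my ey gy
      obtain ⟨b1, b2⟩ := same z mz ez gz
      by_contra n
      rcases a1 with rfl | rfl <;> rcases b1 with rfl | rfl
      exacts [n rfl, k1 n ⟨a2, b2⟩, k1 (Ne.symm n) ⟨b2, a2⟩, n rfl]
  · rintro x (m | rfl) s y my e g
    · rcases s.elim (fun s => h.two.lY s.2) fun s => h.two.rY s.2 with a | a
      · exact nK x a m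
      · rcases s.elim (fun s => ((h.l.eY x).1 s.2).imp_left And.left)
          fun s => ((h.r.eY x).1 s.2).imp_left And.left with b | rfl
        exacts [nK x b m, h.uk m]
    · obtain ⟨a1 | a1, a2⟩ := same y my e g
      · obtain ⟨-, -, -, b1, b2⟩ := k2 (a1 ▸ a2)
        exact s.elim (fun s => b1 s.1) fun s => b2 s.1
      · obtain ⟨-, -, -, b1, b2⟩ := k3 (a1 ▸ a2)
        exact s.elim (fun s => b1 s.1) fun s => b2 s.1
  · rintro x m y (s | rfl) e g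
    · exact (r.al x (nK x m) y s e g).elim
    · obtain ⟨rfl | rfl, a2⟩ := same x (Or.inr m) e.symm g.symm
      · obtain ⟨b0, b1, b2, -⟩ := k2 a2
        exact ⟨b0, fun s => s.elim (fun s => b1 s.1) fun s =>
          b2 ((h.both h.lL s.2).resolve_left (nu _ m)).2 s.1⟩
      · obtain ⟨b0, b1, b2, -⟩ := k3 a2
        exact ⟨b0, fun s => s.elim (fun s =>
          b2 ((h.both s.2 h.jR).resolve_left (nu _ m)).2 s.1) fun s => b1 s.1⟩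
  · rintro x m y (s | rfl) z (s' | rfl) ey ez gy gz
    exacts [(r.al x (nK x m) y s ey gy).elim, (r.al x (nK x m) y s ey gy).elim,
      (r.al x (nK x m) z s' ez gz).elim, rfl]
  · rintro x m (s | s)
    exacts [k6 x m (((h.l.eY x).1 s.2).resolve_right (nu x m)).2 s.1,
      k7 x m (((h.r.eY x).1 s.2).resolve_right (nu x m)).2 s.1]

theorem Sh.last {Z X I X' P : Set W} {ρ : W → ℤ} {a b q y : W} (h : Sh H Z X I ρ a b X' P)
    (hq : q ∈ X') (e : H.Adj b q) (hy : y ∈ X') (e' : H.Adj b y) : y = q := by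
  obtain ⟨σ, ax, h⟩ := h
  exact h.px.dn_eq h.px.hb hy hq e' e (h.px.lt_hi hy e'.ne') (h.px.lt_hi hq e.ne')

section Bottom

theorem Cut.shL (h : Cut H d.swap u t ql qj dL dR K) (s : Sh H dL.Z dL.Y dL.swap.I dL.ρ dL.a' dL.b' XL PL)
    (hl : ql ∈ XL) : Sh H d.Z {y | y ∈ d.X ∧ d.ρ y ≤ d.ρ ql} dL.I d.ρ d.a ql (XL \ {u}) PL := by
  have nu : ∀ y ∈ d.X, y ≠ u := fun y m r => Y_I (d := d.swap) m (r ▸ h.hub.hu)
  rw [DD.swap_I, h.l.ea', h.l.eb'] at s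
  refine ((s.drop (X0 := {y | y ∈ d.X ∧ d.ρ y ≤ d.ρ ql}) h.l.eY (fun k => nu u k.1 rfl)
    ⟨h.hub.hl, le_rfl⟩ hl h.hub.ul.symm).up (fun v k z e => h.l.disc.iz k e)
      fun v k _ n z => h.inL (Or.inr ⟨k.1, lt_of_le_of_ne k.2 fun r =>
        n (h.hub.disc.py.inj _ k.1 _ h.hub.hl r)⟩)).congr fun x k => h.l.eρ x (nu x k.1)

theorem Cut.shR (h : Cut H d.swap u t ql qj dL dR K) (s : Sh H dR.Z dR.Y dR.swap.I dR.ρ dR.a' dR.b' XR PR)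
    (hj : qj ∈ XR) : Sh H d.Z {y | y ∈ d.X ∧ d.ρ qj ≤ d.ρ y} dR.I d.ρ qj d.b (XR \ {u}) PR := by
  have nu : ∀ y ∈ d.X, y ≠ u := fun y m r => Y_I (d := d.swap) m (r ▸ h.hub.hu)
  rw [DD.swap_I, h.r.ea', h.r.eb'] at s
  refine ((s.drop' (X0 := {y | y ∈ d.X ∧ d.ρ qj ≤ d.ρ y}) h.r.eY (fun k => nu u k.1 rfl)
    ⟨h.hub.hj, le_rfl⟩ hj h.hub.uj.symm).up (fun v k z e => h.r.disc.iz k e)
      fun v k n _ z => h.inR (Or.inr ⟨k.1, lt_of_le_of_ne k.2 fun r =>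
        n (h.hub.disc.py.inj _ k.1 _ h.hub.hj r.symm)⟩)).congr fun x k => h.r.eρ x (nu x k.1)

/-- an edge of the lower path of the left part -/
theorem Cut.edgeL (h : Cut H d u p ql qj dL dR K) {e : Sym2 W} (k : e ∈ PE H dL.Y) :
    e = s(ql, u) ∨ ((∀ x ∈ e, x ≠ u) ∧ e ∉ PE H dR.Y) := by
  obtain ⟨x, kx, y, ky, a, rfl⟩ := k
  have one : ∀ z ∈ dL.Y, H.Adj u z → z = ql := fun z m g => by
    have m' := ((h.l.eY z).1 m).resolve_right g.ne'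
    exact h.hub.disc.py.inj _ m'.1 _ h.hub.hl (le_antisymm m'.2 (h.hub.ex z m'.1 g).1)
  by_cases nx : x = u
  · subst nx
    exact Or.inl (by rw [one y ky a, Sym2.eq_swap])
  by_cases ny : y = u
  · subst ny
    exact Or.inl (by rw [one x kx a.symm])
  refine Or.inr ⟨fun z m => ?_, fun m => a.ne ?_⟩
  · rcases Sym2.mem_iff.1 m with rfl | rfl
    exacts [nx, ny]
  · exact ((h.both kx (mem_PE.1 m).1).resolve_left nx).1.trans
      ((h.both ky (mem_PE.1 m).2.1).resolve_left ny).1.symm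

theorem Cut.edgeR (h : Cut H d u p ql qj dL dR K) {e : Sym2 W} (k : e ∈ PE H dR.Y) :
    e = s(qj, u) ∨ ((∀ x ∈ e, x ≠ u) ∧ e ∉ PE H dL.Y) := h.rv.edgeL k

/-- the two parts are extended one after the other -/
theorem Cut.bot_rec (h : Cut H d.swap u t ql qj dL dR K) (OL : OutX H dL.swap SL XL PL ΨL)
    (OR : OutX H dR.swap SR XR PR ΨR) (hq : ql = qj → s(ql, u) ∈ SL ∨ s(ql, u) ∈ SR)
    {c c0 : W → Col} {ω : W → W} {A A1 A2 : Set W} (x1 : ∀ x ∈ XL ∪ XR, (c x).1 = false)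
    (y1 : ∀ y ∈ d.Y, (c0 y).1 = true) (y2 : ∀ y ∈ d.Y, c y = c0 y)
    (p1 : Paid (PE H (dL.Y ∩ XL) \ SL) c ω) (p2 : Paid (PE H (dR.Y ∩ XR) \ SR) c ω)
    (q : ΨL c0 A1 ∧ ΨR c0 A2 ∧ (t ∈ A1 → t ∉ A2) ∧ (∀ y ∈ d.Y, d.ρ y ≤ d.ρ t → y ∈ A1 → y ∈ A) ∧
      ∀ y ∈ d.Y, d.ρ t ≤ d.ρ y → y ∈ A2 → y ∈ A) :
    ∃ c', Rec H (dL.I \ (XL ∪ PL) ∪ dR.I \ (XR ∪ PR))
      (Pay (PE H (dL.Y ∩ XL) \ SL) c ω ∪ Pay (PE H (dR.Y ∩ XR) \ SR) c ω ∪ (A ∩ d.Y)) c c' := by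
  obtain ⟨q1, q2, q3, q4, q5⟩ := q
  have D := h.hub.disc
  have sY : ∀ y ∈ dL.X ∪ dR.X, y ∈ d.Y := fun y k =>
    k.elim (fun m => ((h.l.eX y).1 m).1) fun m => ((h.r.eX y).1 m).1
  have nY : ∀ y ∈ dL.Y ∪ dR.Y, y ∉ d.Y := fun y k m => by
    rcases k.elim (fun s => ((h.l.eY y).1 s).imp_left And.left)
      fun s => ((h.r.eY y).1 s).imp_left And.left with s | rfl
    exacts [D.xy m s, X_I (d := d.swap) m h.hub.hu]
  obtain ⟨c', r⟩ := two_rec h.l.disc.swap h.r.disc.swap OL OR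
    (by rw [DD.swap_I]; exact h.lr') (by rw [DD.swap_I]; exact h.rl') (c := c) (c0 := c0) (ω := ω)
    (A1 := A1) (A2 := A2) (fun x k => x1 x (Or.inl k)) (fun x k => x1 x (Or.inr k))
    (fun y k => y1 y (sY y k)) (fun y k => y2 y (sY y k)) p1 p2 q1 q2 (by
      rintro x (k | k) (m | m)
      · have a := PE.mono Set.inter_subset_left k.1.1
        have b := PE.mono Set.inter_subset_left m.1.1
        have a' := (h.edgeL a).resolve_right fun g => g.2 b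
        have b' := (h.edgeR b).resolve_right fun g => g.2 a
        have e : ql = qj := Sym2.congr_left.1 (a'.symm.trans b')
        exact (hq e).elim (fun g => k.1.2 (a' ▸ g)) fun g => m.1.2 (a' ▸ g)
      · exact nY x (Or.inl (mem_PE.1 k.1.1).1.1) (sY x (Or.inr m.2))
      · exact nY x (Or.inr (mem_PE.1 m.1.1).1.1) (sY x (Or.inl k.2))
      · have e : x = t := h.two.eq x (Or.inl k.2) (Or.inl m.2)
        exact q3 (e ▸ k.1) (e ▸ m.1))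
  rw [DD.swap_I, DD.swap_I] at r
  refine ⟨c', r.mono ?_⟩
  rintro x - ((k | k) | (k | k))
  · exact Or.inl (Or.inl k)
  · have m := (h.l.eX x).1 k.2
    exact Or.inr ⟨q4 x m.1 m.2 k.1, m.1⟩
  · exact Or.inl (Or.inr k)
  · have m := (h.r.eX x).1 k.2
    exact Or.inr ⟨q5 x m.1 m.2 k.1, m.1⟩

/-- old edges of a part are edges of the whole -/
theorem Cut.subL (h : Cut H d.swap u t ql qj dL dR K) (sR : SR ⊆ PE H dR.Y) {X' : Set W}
    (hX : XL \ {u} ⊆ X') {e : Sym2 W} (k : e ∈ PE H (dL.Y ∩ XL) \ SL) :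
    e = s(ql, u) ∨ e ∈ PE H (d.X ∩ X') \ ((SL ∪ SR) ∩ PE H d.X) := by
  refine (h.edgeL (PE.mono Set.inter_subset_left k.1)).imp_right fun m => ⟨?_, fun g =>
    g.1.elim k.2 fun r => m.2 (sR r)⟩
  obtain ⟨⟨x, kx, y, ky, a, rfl⟩, -⟩ := k
  have n1 := m.1 x (Sym2.mem_mk_left _ _)
  have n2 := m.1 y (Sym2.mem_mk_right _ _)
  exact mem_PE.2 ⟨⟨(((h.l.eY x).1 kx.1).resolve_right n1).1, hX ⟨kx.2, n1⟩⟩,
    ⟨(((h.l.eY y).1 ky.1).resolve_right n2).1, hX ⟨ky.2, n2⟩⟩, a⟩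

theorem Cut.subR (h : Cut H d.swap u t ql qj dL dR K) (sL : SL ⊆ PE H dL.Y) {X' : Set W}
    (hX : XR \ {u} ⊆ X') {e : Sym2 W} (k : e ∈ PE H (dR.Y ∩ XR) \ SR) :
    e = s(qj, u) ∨ e ∈ PE H (d.X ∩ X') \ ((SL ∪ SR) ∩ PE H d.X) := by
  rw [Set.union_comm]
  exact Cut.subL (d := rvD d) h.rv sL hX k

theorem Cut.eM (h : Cut H d.swap u t ql qj dL dR K) (x1 : XL ∪ PL ⊆ dL.Y ∪ dL.I)
    (x2 : XR ∪ PR ⊆ dR.Y ∪ dR.I) (x : W) :
    x ∈ dL.I \ (XL ∪ PL) ∪ dR.I \ (XR ∪ PR) ↔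
      x ∈ d.I ∧ x ≠ u ∧ x ∉ K ∧ x ∉ XL ∪ PL ∧ x ∉ XR ∪ PR := by
  have cov := h.cov x
  rw [DD.swap_I] at cov
  constructor
  · rintro (k | k)
    · exact ⟨cov.2 (Or.inr (Or.inl k.1)), fun r => Y_I h.uL (r ▸ k.1), h.lk x k.1, k.2,
        fun m => (x2 m).elim (fun r => h.r.disc.yz r (h.lr' x k.1)) (h.lr x k.1)⟩
    · exact ⟨cov.2 (Or.inr (Or.inr (Or.inl k.1))), fun r => Y_I h.uR (r ▸ k.1), h.rk x k.1,
        fun m => (x1 m).elim (fun r => h.l.disc.yz r (h.rl' x k.1)) fun r => h.lr x r k.1, k.2⟩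
  · rintro ⟨k1, k2, k3, k4, k5⟩
    rcases cov.1 k1 with m | m | m | m
    exacts [absurd m k2, Or.inl ⟨m, k4⟩, Or.inr ⟨m, k5⟩, absurd m k3]

theorem OutX.xp (O : OutX H d.swap SL XL PL ΨL) : XL ∪ PL ⊆ d.Y ∪ d.I := by
  rw [← DD.swap_I]
  exact Set.union_subset O.sh.xs O.sh.ps

theorem Cut.sepX (h : Cut H d.swap u t ql qj dL dR K) {x y : W}
    (k : x ∈ {y | y ∈ d.X ∧ d.ρ y ≤ d.ρ ql} ∪ dL.I) (m : y ∈ {y | y ∈ d.X ∧ d.ρ qj ≤ d.ρ y} ∪ dR.I) :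
    (x = y → x = ql ∧ ql = qj) ∧
      (H.Adj x y → (x = ql ∧ y = qj) ∨ (ql = qj ∧ (x = ql ∨ y = qj))) := by
  have D := h.hub.disc
  have lj : d.ρ ql ≤ d.ρ qj := h.hub.lj
  have nu : ∀ y ∈ d.X, y ≠ u := fun y m r => Y_I (d := d.swap) m (r ▸ h.hub.hu)
  have eq : ∀ z ∈ d.X, d.ρ z ≤ d.ρ ql → d.ρ qj ≤ d.ρ z → z = ql ∧ ql = qj := fun z a b c =>
    (h.both ((h.l.eY z).2 (Or.inl ⟨a, b⟩)) ((h.r.eY z).2 (Or.inl ⟨a, c⟩))).resolve_left (nu z a)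
  rcases k with k | k <;> rcases m with m | m
  · refine ⟨fun e => eq x k.1 k.2 (e ▸ m.2), fun e => ?_⟩
    have b1 : ¬ (d.ρ x < d.ρ ql ∧ d.ρ ql < d.ρ y) := D.py.nb k.1 m.1 e h.hub.hl
    have b2 : ¬ (d.ρ x < d.ρ qj ∧ d.ρ qj < d.ρ y) := D.py.nb k.1 m.1 e h.hub.hj
    have b3 := k.2
    have b4 := m.2
    have i1 : d.ρ x = d.ρ ql → x = ql := D.py.inj _ k.1 _ h.hub.hl
    have i2 : d.ρ y = d.ρ qj → y = qj := D.py.inj _ m.1 _ h.hub.hj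
    have i3 : d.ρ ql = d.ρ qj → ql = qj := D.py.inj _ h.hub.hl _ h.hub.hj
    by_cases g : d.ρ ql = d.ρ qj
    · by_cases g' : d.ρ x = d.ρ ql
      exacts [Or.inr ⟨i3 g, Or.inl (i1 g')⟩, Or.inr ⟨i3 g, Or.inr (i2 (by omega))⟩]
    · exact Or.inl ⟨i1 (by omega), i2 (by omega)⟩
  · refine ⟨fun e => absurd (h.sR (e ▸ m)) (Y_I (d := d.swap) k.1), fun e => ?_⟩
    rcases h.nR m e.symm with r | r | r | r
    · exact absurd (h.sR r) (Y_I (d := d.swap) k.1)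
    · exact absurd r (nu x k.1)
    · exact absurd k.1 (D.xy r.1)
    · exact Or.inr ⟨(eq x k.1 k.2 r.2).2, Or.inl (eq x k.1 k.2 r.2).1⟩
  · refine ⟨fun e => absurd (h.sL (e ▸ k)) (Y_I (d := d.swap) m.1), fun e => ?_⟩
    rcases h.nL k e with r | r | r | r
    · exact absurd (h.sL r) (Y_I (d := d.swap) m.1)
    · exact absurd r (nu y m.1)
    · exact absurd m.1 (D.xy r.1)
    · obtain ⟨a, b⟩ := eq y m.1 r.2 m.2
      exact Or.inr ⟨b, Or.inr (a.trans b)⟩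
  · exact ⟨fun e => absurd (e ▸ m) (h.lr x k), fun e => absurd e (h.nLR k m)⟩

end Bottom

end Pool.Agent.P.MP_08fd93_co.FB
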