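import Pool.Agent.P.MP_08fd93_co.FB.C7

/-! Cutting at a vertex of the lower class: cap, ear, single lower neighbour. -/

set_option autoImplicit false

namespace Pool.Agent.P.MP_08fd93_co.FB

open OV FU

variable {W : Type} {H : SimpleGraph W} {d dL dR : DD W} {SL SR : Set (Sym2 W)}
  {XL XR PL PR K : Set W} {ΨL ΨR Ψ : (W → Col) → Set W → Prop} {u t ql qj : W}

/-- The tokens of the upper path are divided at `t`. -/
def Div (d : DD W) (t : W) (Ψ ΨL ΨR : (W → Col) → Set W → Prop) : Prop :=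
  ∀ c A, (∀ y ∈ d.Y, (c y).1 = true) → Ψ c A → ∃ A1 A2, ΨL c A1 ∧ ΨR c A2 ∧ (t ∈ A1 → t ∉ A2) ∧
    (∀ y ∈ d.Y, d.ρ y ≤ d.ρ t → y ∈ A1 → y ∈ A) ∧ ∀ y ∈ d.Y, d.ρ t ≤ d.ρ y → y ∈ A2 → y ∈ A

theorem Cut.stB (h : Cut H d.swap u t ql qj dL dR K) (OL : OutX H dL.swap SL XL PL ΨL)
    (OR : OutX H dR.swap SR XR PR ΨR) :
    ∀ e ∈ (SL ∪ SR) ∩ PE H d.X, ∀ x ∈ e, x ∈ XL \ {u} ∪ XR \ {u} := by
  rintro e ⟨k, m⟩ x r
  have n : x ≠ u := fun g => Y_I (d := d.swap) (PE.ends m r) (g ▸ h.hub.hu)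
  exact k.imp (fun k => ⟨OL.st e k x r, n⟩) fun k => ⟨OR.st e k x r, n⟩

/-- `u` becomes the apex of a cap over the vertices between `ql` and `qj` -/
theorem Cut.bot_long (hP : Pl H Set.univ) (h : Cut H d.swap u t ql qj dL dR K) (ne : ql ≠ qj)
    (n : ¬ H.Adj ql qj) (OL : OutX H dL.swap SL XL PL ΨL) (OR : OutX H dR.swap SR XR PR ΨR)
    (s1 : s(ql, u) ∈ SL) (s2 : s(qj, u) ∈ SR) (hc : Div d t Ψ ΨL ΨR) :
    OutX H d ((SL ∪ SR) ∩ PE H d.X) (XL ∪ XR) (PL ∪ (K ∪ YN d.swap ql qj) ∪ PR) Ψ := by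
  have D := h.hub.disc
  have lj : d.ρ ql ≤ d.ρ qj := h.hub.lj
  have hl := OL.st _ s1 ql (Sym2.mem_mk_left _ _)
  have hu := OL.st _ s1 u (Sym2.mem_mk_right _ _)
  have hj := OR.st _ s2 qj (Sym2.mem_mk_left _ _)
  have xI : ∀ y ∈ d.X, y ∉ d.swap.I := fun y m => Y_I (d := d.swap) m
  have sc : Sh H d.Z (YM d.swap ql qj) (K ∪ {u}) d.ρ ql qj {ql, u, qj} (K ∪ YN d.swap ql qj) := by
    refine Sh.cap h.ym_pth h.hub.ul h.hub.uj ne n (Or.inr rfl) (fun k => xI u k.1 h.hub.hu)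
      (fun k => k.elim h.uk fun m => xI u m.1 h.hub.hu) ?_ (fun x k => ⟨?_, fun m => ?_⟩) ?_ ?_
      (h.kn hP ne n)
    · rintro x (k | k)
      exacts [Or.inr (Or.inl k), Or.inl ⟨k.1, k.2.1.le, k.2.2.le⟩]
    · rintro (m | m)
      · exact absurd (h.sK m) (xI x k.1)
      · exact ⟨fun r => lt_irrefl _ (r ▸ m.2.1), fun r => lt_irrefl _ (r ▸ m.2.2)⟩
    · exact Or.inr (((h.ym_cases k).resolve_left m.1).resolve_left m.2)
    · rintro v (k | k) z e
      · rcases h.nk v k z e with m | m | m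
        exacts [Or.inr (Or.inl (Or.inl m)), Or.inr (Or.inr (Or.inl m)), Or.inr (Or.inr (Or.inr m))]
      · rcases h.nN k e with m | m | m | m
        exacts [Or.inl m, Or.inr (Or.inl (Or.inl m)), Or.inr (Or.inr (Or.inl m)),
          Or.inr (Or.inr (Or.inr m))]
    · rintro v (k | k)
      · obtain ⟨y, hy, c⟩ := h.kc hP n k
        exact ⟨y, ⟨hy.1, hy.2.1.le, hy.2.2.le⟩, c⟩
      · exact ⟨v, ⟨k.1, k.2.1.le, k.2.2.le⟩, Conn.rfl'⟩
  have kI : ∀ y ∈ K ∪ {u}, y ∈ d.swap.I := fun y k => k.elim (fun m => h.sK m) fun m => m ▸ h.hub.hu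
  have sl := h.shL OL.sh hl
  have sr := h.shR OR.sh hj
  have lastL : ∀ x ∈ XL, H.Adj u x → x = ql := fun x k e => by
    have s := OL.sh
    rw [show dL.swap.b = u from h.l.eb'] at s
    exact s.last hl h.hub.ul k e
  have lastR : ∀ x ∈ XR, H.Adj u x → x = qj := fun x k e => by
    have s := OR.sh.rv
    rw [show dR.swap.a = u from h.r.ea'] at s
    exact s.last hj h.hub.uj k e
  have lL : ql ∈ {y | y ∈ d.X ∧ d.ρ y ≤ d.ρ ql} := ⟨h.hub.hl, le_rfl⟩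
  have jR : qj ∈ {y | y ∈ d.X ∧ d.ρ qj ≤ d.ρ y} := ⟨h.hub.hj, le_rfl⟩
  have j1 := sl.join sc lL h.ym_pth.ha (Or.inl rfl) (by
      rintro x (k | k) (m | m)
      · have e := D.py.inj _ k.1 _ h.hub.hl (le_antisymm k.2 m.2.1)
        exact ⟨e, e⟩
      · exact absurd (kI x m) (xI x k.1)
      · exact absurd (h.sL k) (xI x m.1)
      · exact absurd k (h.two.nl x m)) (by
      rintro x k y (rfl | rfl | rfl) e
      · exact Or.inr ⟨rfl, Or.inr rfl⟩
      · exact Or.inr ⟨rfl, Or.inl (lastL x k.1 e.symm)⟩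
      · rcases (h.sepX (sl.xs k) (Or.inl jR)).2 e with m | m
        exacts [absurd (m.1 ▸ e) n, absurd m.1 ne])
  have j2 := j1.join sr (Or.inr h.ym_pth.hb) jR (Or.inl rfl) (by
      rintro x ((k | k) | (k | k)) m
      · exact absurd ((h.sepX (Or.inl k) m).1 rfl).2 ne
      · have m' := m.resolve_right fun r => xI x k.1 (h.sR r)
        have e := D.py.inj _ k.1 _ h.hub.hj (le_antisymm k.2.2 m'.2)
        exact ⟨e, e⟩
      · exact absurd ((h.sepX (Or.inr k) m).1 rfl).2 ne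
      · exact (m.elim (fun r => xI x r.1 (kI x k)) (h.two.nr x k)).elim) (by
      have key : ∀ x ∈ XL \ {u}, ∀ y ∈ XR \ {u}, ¬ H.Adj x y := fun x k y m e => by
        rcases (h.sepX (sl.xs k) (sr.xs m)).2 e with r | r
        exacts [n (r.1 ▸ r.2 ▸ e), ne r.1]
      rintro x (k | rfl | rfl | rfl) y m e
      · exact absurd e (key x k y m)
      · exact absurd e (key x ⟨hl, h.hub.ul.ne'⟩ y m)
      · exact Or.inr ⟨rfl, Or.inr (lastR y m.1 e)⟩
      · exact Or.inr ⟨rfl, Or.inl rfl⟩)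
  have eX : {y | y ∈ d.X ∧ d.ρ y ≤ d.ρ ql} ∪ YM d.swap ql qj ∪ {y | y ∈ d.X ∧ d.ρ qj ≤ d.ρ y} =
      d.X := by
    ext x
    refine ⟨fun k => k.elim (fun m => m.elim And.left And.left) And.left, fun k => ?_⟩
    rcases le_total (d.ρ x) (d.ρ ql) with a | a
    · exact Or.inl (Or.inl ⟨k, a⟩)
    · rcases le_total (d.ρ x) (d.ρ qj) with b | b
      exacts [Or.inl (Or.inr ⟨k, a, b⟩), Or.inr ⟨k, b⟩]
  have eN : XL \ {u} ∪ {ql, u, qj} ∪ XR \ {u} = XL ∪ XR := by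
    ext x
    constructor
    · rintro ((k | rfl | rfl | rfl) | k)
      exacts [Or.inl k.1, Or.inl hl, Or.inl hu, Or.inr hj, Or.inr k.1]
    · intro k
      by_cases m : x = u
      · exact Or.inl (Or.inr (Or.inr (Or.inl m)))
      · exact k.imp (fun r => Or.inl ⟨r, m⟩) fun r => ⟨r, m⟩
  rw [eX, eN] at j2
  have l1 : PE H (dL.Y ∩ XL) \ SL ⊆ PE H (d.X ∩ (XL ∪ XR)) \ ((SL ∪ SR) ∩ PE H d.X) := fun e k =>
    (h.subL OR.sub (fun _ m => Or.inl m.1) k).resolve_left fun m => k.2 (m ▸ s1)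
  have l2 : PE H (dR.Y ∩ XR) \ SR ⊆ PE H (d.X ∩ (XL ∪ XR)) \ ((SL ∪ SR) ∩ PE H d.X) := fun e k =>
    (h.subR OL.sub (fun _ m => Or.inr m.1) k).resolve_left fun m => k.2 (m ▸ s2)
  refine ⟨j2.upI ?_, Set.inter_subset_right,
    fun e k x m => (h.stB OL OR e k x m).imp And.left And.left, fun c c0 ω A h1 h2 h3 h4 h5 => ?_⟩
  · rw [← DD.swap_I d]
    rintro x ((k | k) | k)
    exacts [h.sL k, kI x k, h.sR k]
  obtain ⟨A1, A2, q⟩ := hc c0 A h2 h5
  obtain ⟨c', r⟩ := h.bot_rec OL OR (fun e => absurd e ne) h1 h2 h3 (h4.mono l1) (h4.mono l2) q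
  refine ⟨c', ?_⟩
  rw [show d.I \ (XL ∪ XR ∪ (PL ∪ (K ∪ YN d.swap ql qj) ∪ PR)) =
    dL.I \ (XL ∪ PL) ∪ dR.I \ (XR ∪ PR) from ?_]
  · exact r.mono fun x _ k => k.imp_left fun m => m.elim (fun g => Pay.mono l1 g)
      fun g => Pay.mono l2 g
  · ext x
    rw [h.eM OL.xp OR.xp]
    have a : x = u → x ∈ XL := fun e => e ▸ hu
    have b : x ∈ YN d.swap ql qj → x ∉ d.I := fun k => X_I k.1
    simp only [Set.mem_sdiff, Set.mem_union] at a b ⊢
    tauto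

/-- `u` is coloured from the cell; it sees one vertex or one edge of the lower path -/
theorem Cut.bot_short (hP : Pl H Set.univ) (T : TA H) (h : Cut H d.swap u t ql qj dL dR K)
    (hq : ql = qj ∨ H.Adj ql qj) (OL : OutX H dL.swap SL XL PL ΨL)
    (OR : OutX H dR.swap SR XR PR ΨR) (hl : ql ∈ XL) (hj : qj ∈ XR)
    (hs : (s(ql, u) ∈ SL ∧ s(qj, u) ∈ SR) ∨ (ql = qj ∧ (s(ql, u) ∈ SL ∨ s(qj, u) ∈ SR)))
    (hc : Div d t Ψ ΨL ΨR) :
    OutX H d ((SL ∪ SR) ∩ PE H d.X) (XL \ {u} ∪ XR \ {u}) (PL ∪ PR) Ψ := by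
  classical
  have D := h.hub.disc
  have lj : d.ρ ql ≤ d.ρ qj := h.hub.lj
  have xI : ∀ y ∈ d.X, y ∉ d.swap.I := fun y m => Y_I (d := d.swap) m
  have uI : u ∈ d.I := DD.swap_I d ▸ h.hub.hu
  have kI : ∀ y ∈ K, y ∈ d.I := fun y k => DD.swap_I d ▸ h.sK k
  have sl := h.shL OL.sh hl
  have sr := h.shR OR.sh hj
  have lastL : ∀ x ∈ XL, H.Adj u x → x = ql := fun x k e => by
    have s := OL.sh
    rw [show dL.swap.b = u from h.l.eb'] at s
    exact s.last hl h.hub.ul k e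
  have lastR : ∀ x ∈ XR, H.Adj u x → x = qj := fun x k e => by
    have s := OR.sh.rv
    rw [show dR.swap.a = u from h.r.ea'] at s
    exact s.last hj h.hub.uj k e
  have j := sl.join sr ⟨h.hub.hl, le_rfl⟩ ⟨h.hub.hj, le_rfl⟩
    (hq.imp_right fun e => ⟨lt_of_le_of_ne lj fun r => e.ne (D.py.inj _ h.hub.hl _ h.hub.hj r), e⟩)
    (fun x k m => by
      obtain ⟨a, b⟩ := (h.sepX k m).1 rfl
      exact ⟨a, a.trans b⟩)
    fun x k y m => (h.sepX (sl.xs k) (sr.xs m)).2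
  have eX : {y | y ∈ d.X ∧ d.ρ y ≤ d.ρ ql} ∪ {y | y ∈ d.X ∧ d.ρ qj ≤ d.ρ y} = d.X := by
    ext x
    refine ⟨fun k => k.elim And.left And.left, fun k => ?_⟩
    rcases le_total (d.ρ x) (d.ρ ql) with a | a
    · exact Or.inl ⟨k, a⟩
    · rcases le_total (d.ρ x) (d.ρ qj) with b | b
      · rcases h.ym_short hq (y := x) ⟨k, a, b⟩ with rfl | rfl
        exacts [Or.inl ⟨k, le_rfl⟩, Or.inr ⟨k, le_rfl⟩]
      · exact Or.inr ⟨k, b⟩
  rw [eX] at j
  have nK : ∀ x ∈ K, x ∉ XL ∪ PL ∧ x ∉ XR ∪ PR := fun x k =>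
    ⟨fun m => (OL.xp m).elim (fun r => ((h.l.eY x).1 r).elim (fun g => xI x g.1 (h.sK k))
        fun g => h.uk (g ▸ k)) fun r => h.lk x r k,
      fun m => (OR.xp m).elim (fun r => ((h.r.eY x).1 r).elim (fun g => xI x g.1 (h.sK k))
        fun g => h.uk (g ▸ k)) fun r => h.rk x r k⟩
  have uL : u ∈ XL := (show dL.swap.b = u from h.l.eb') ▸ OL.sh.hb
  have uR : u ∈ XR := (show dR.swap.a = u from h.r.ea') ▸ OR.sh.ha
  have uP : u ∉ PL ∪ PR := fun k => k.elim (OL.sh.dis u uL) (OR.sh.dis u uR)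
  have eM : d.I \ (XL \ {u} ∪ XR \ {u} ∪ (PL ∪ PR)) =
      K ∪ {u} ∪ (dL.I \ (XL ∪ PL) ∪ dR.I \ (XR ∪ PR)) := by
    ext x
    rw [Set.mem_union (a := K ∪ {u}), h.eM OL.xp OR.xp]
    constructor
    · rintro ⟨k, m⟩
      by_cases g : x ∈ K ∪ {u}
      · exact Or.inl g
      · have n : x ≠ u := fun e => g (Or.inr e)
        exact Or.inr ⟨k, n, fun e => g (Or.inl e),
          fun e => m (e.imp (fun e => Or.inl ⟨e, n⟩) Or.inl),
          fun e => m (e.imp (fun e => Or.inr ⟨e, n⟩) Or.inr)⟩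
    · rintro ((k | rfl) | ⟨k1, -, -, k2, k3⟩)
      · refine ⟨kI x k, ?_⟩
        rintro ((m | m) | (m | m))
        exacts [(nK x k).1 (Or.inl m.1), (nK x k).2 (Or.inl m.1), (nK x k).1 (Or.inr m),
          (nK x k).2 (Or.inr m)]
      · exact ⟨uI, fun m => m.elim (fun m => m.elim (fun m => m.2 rfl) fun m => m.2 rfl) uP⟩
      · refine ⟨k1, ?_⟩
        rintro ((m | m) | (m | m))
        exacts [k2 (Or.inl m.1), k3 (Or.inl m.1), k2 (Or.inr m), k3 (Or.inr m)]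
  have J := j.upI (I0 := d.I) (by
    rw [← DD.swap_I d]
    exact Set.union_subset h.sL h.sR)
  refine ⟨J, Set.inter_subset_right, h.stB OL OR, fun c c0 ω A h1 h2 h3 h4 h5 => ?_⟩
  obtain ⟨A1, A2, q⟩ := hc c0 A h2 h5
  set L := PE H (d.X ∩ (XL \ {u} ∪ XR \ {u})) \ ((SL ∪ SR) ∩ PE H d.X) with hL
  have eL : ∀ e ∈ L, ∀ x ∈ e, x ∈ d.X := fun e k x m => (PE.ends k.1 m).1
  have nu : ∀ y ∈ d.X, y ≠ u := fun y m r => X_I m (r ▸ uI)
  have lX : ql ∈ XL \ {u} ∪ XR \ {u} := Or.inl ⟨hl, h.hub.ul.ne'⟩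
  have jX : qj ∈ XL \ {u} ∪ XR \ {u} := Or.inr ⟨hj, h.hub.uj.ne'⟩
  have mid : ql ≠ qj → s(ql, qj) ∉ PE H dL.Y ∧ s(ql, qj) ∉ PE H dR.Y := fun ne =>
    ⟨fun m => (h.both (mem_PE.1 m).2.1 h.jR).elim h.hub.uj.ne' fun g => ne g.2,
      fun m => (h.both h.lL (mem_PE.1 m).1).elim h.hub.ul.ne' fun g => ne g.2⟩
  -- the colour of `u`
  obtain ⟨k, k0, k1, k2⟩ : ∃ k : Col, k.1 = false ∧ ¬ (c ql = k ∧ c qj = k) ∧
      ∀ r, r = ql ∨ r = qj → c r = k → ql ≠ qj ∧ s(r, ω r) = s(ql, qj) ∧ r ∈ Pay L c ω := by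
    by_cases e : c ql = c qj
    · obtain ⟨k, a, b⟩ : ∃ k : Col, k.1 = false ∧ c ql ≠ k :=
        ⟨(false, !(c ql).2), rfl, fun g => by simpa using congrArg Prod.snd g⟩
      refine ⟨k, a, fun g => b g.1, ?_⟩
      rintro r (rfl | rfl) g
      exacts [absurd g b, absurd (e.trans g) b]
    · have ne : ql ≠ qj := fun g => e (g ▸ rfl)
      have a := hq.resolve_left ne
      have m : s(ql, qj) ∈ L := ⟨mem_PE.2 ⟨⟨h.hub.hl, lX⟩, ⟨h.hub.hj, jX⟩, a⟩, fun g =>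
        g.1.elim (fun g => (mid ne).1 (OL.sub g)) fun g => (mid ne).2 (OR.sub g)⟩
      rcases (h4 ql qj m).resolve_left e with g | g
      · refine ⟨c ql, h1 _ lX, fun s => e s.2.symm, ?_⟩
        rintro r (rfl | rfl) s
        exacts [⟨ne, by rw [g], by rwa [g], by rw [g]; exact Ne.symm e⟩, absurd s.symm e]
      · refine ⟨c qj, h1 _ jX, fun s => e s.1, ?_⟩
        rintro r (rfl | rfl) s
        exacts [absurd s e, ⟨ne, by rw [g, Sym2.eq_swap], by rwa [g, Sym2.eq_swap],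
          by rw [g]; exact e⟩]
  obtain ⟨c1, r1⟩ := h.tri' hP T hq (Function.update c u k) fun _ m => k1 (by
    rw [Function.update_self, Function.update_of_ne h.hub.ul.ne',
      Function.update_of_ne h.hub.uj.ne'] at m
    exact ⟨m.1.symm, m.2.symm.trans m.1.symm⟩)
  have cu : c1 u = k := by rw [r1.off u h.uk, Function.update_self]
  have off : ∀ x, x ∉ K ∪ {u} → c1 x = c x := fun x n => by
    rw [r1.off x fun m => n (Or.inl m), Function.update_of_ne fun m => n (Or.inr m)]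
  have oX : ∀ x ∈ d.X, c1 x = c x := fun x m => off x fun g =>
    g.elim (fun g => X_I m (kI x g)) (nu x m)
  let ω1 : W → W := fun x => if x = u then ql else if ω x = u then x else ω x
  have wu : ω1 u = ql := if_pos rfl
  have paid : Paid L c1 ω1 := fun a b m => by
    have ma := eL _ m a (Sym2.mem_mk_left _ _)
    have mb := eL _ m b (Sym2.mem_mk_right _ _)
    rw [oX a ma, oX b mb]
    refine (h4 a b m).imp_right (Or.imp (fun g => ?_) fun g => ?_)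
    · simp only [ω1, if_neg (nu a ma), g, if_neg (nu b mb)]
    · simp only [ω1, if_neg (nu b mb), g, if_neg (nu a ma)]
  have cs : ∀ e ∈ (PE H (dL.Y ∩ XL) \ SL) ∪ (PE H (dR.Y ∩ XR) \ SR),
      e ∈ L ∨ (e = s(ql, u) ∧ ql = qj) := by
    rintro e (m | m)
    · refine (h.subL OR.sub Set.subset_union_left m).symm.imp_right fun g => ⟨g, ?_⟩
      exact hs.elim (fun s => absurd (g ▸ s.1) m.2) And.left
    · refine (h.subR OL.sub Set.subset_union_right m).symm.imp_right fun g => ?_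
      have e := hs.elim (fun s => absurd (g ▸ s.2) m.2) And.left
      exact ⟨e ▸ g, e⟩
  have paid' : Paid ((PE H (dL.Y ∩ XL) \ SL) ∪ (PE H (dR.Y ∩ XR) \ SR)) c1 ω1 := fun a b m => by
    rcases cs _ m with g | g
    · exact paid a b g
    · rcases Sym2.eq_iff.1 g.1 with ⟨g1, g2⟩ | ⟨g1, g2⟩
      exacts [Or.inr (Or.inr (by rw [g1, g2, wu])), Or.inr (Or.inl (by rw [g1, g2, wu]))]
  have cX : ∀ x ∈ XL ∪ XR, (c1 x).1 = false := fun x m => by
    by_cases g : x = u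
    · rw [g, cu, k0]
    · rw [off x fun s => s.elim (fun s => m.elim (fun m => (nK x s).1 (Or.inl m))
        fun m => (nK x s).2 (Or.inl m)) g]
      exact h1 x (m.imp (fun m => ⟨m, g⟩) fun m => ⟨m, g⟩)
  have oY : ∀ y ∈ d.Y, c1 y = c y := fun y m => off y fun g =>
    g.elim (fun g => Y_I m (kI y g)) fun g => Y_I m (g ▸ uI)
  obtain ⟨c2, r2⟩ := h.bot_rec OL OR (fun e => hs.elim (fun g => Or.inl g.1)
    fun g => g.2.imp_right fun g => e ▸ g) cX h2 (fun y m => (oY y m).trans (h3 y m))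
    (paid'.mono Set.subset_union_left) (paid'.mono Set.subset_union_right) q
  have pay : ∀ x ∈ Pay (PE H (dL.Y ∩ XL) \ SL) c1 ω1 ∪ Pay (PE H (dR.Y ∩ XR) \ SR) c1 ω1,
      s(x, ω1 x) ∈ (PE H (dL.Y ∩ XL) \ SL) ∪ (PE H (dR.Y ∩ XR) \ SR) ∧ c1 (ω1 x) ≠ c1 x :=
    fun x m => m.elim (fun m => ⟨Or.inl m.1, m.2⟩) fun m => ⟨Or.inr m.1, m.2⟩
  have wo : ∀ x, x ≠ u → c1 (ω1 x) ≠ c1 x → ω1 x = ω x ∧ ω x ≠ u := fun x n g => by
    by_cases s : ω x = u
    · exact absurd (by simp only [ω1, if_neg n, if_pos s]) g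
    · exact ⟨by simp only [ω1, if_neg n, if_neg s], s⟩
  -- a neighbour of `u` with the colour of `u`
  have same : ∀ y, y ∉ dL.I \ (XL ∪ PL) ∪ dR.I \ (XR ∪ PR) → H.Adj u y → c1 y = c1 u →
      (y = ql ∨ y = qj) ∧ c y = k := by
    intro y n e g
    have a : y = ql ∨ y = qj := by
      rcases nb_I D h.hub.hu e with m | m | m
      · have b := h2 y m
        rw [← h3 y m, ← oY y m, g, cu, k0] at b
        exact absurd b (by decide)
      · exact h.uY hq m e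
      · by_contra s
        refine n ((h.eM OL.xp OR.xp y).2 ⟨DD.swap_I d ▸ m, e.ne', fun b => r1.al u h.uk y b e g,
          fun b => b.elim (fun b => s (Or.inl (lastL y b e))) fun b => ?_,
          fun b => b.elim (fun b => s (Or.inr (lastR y b e))) fun b => ?_⟩)
        · rcases J.nP (Or.inl b) e.symm with f | f | f
          exacts [Z_I f uI, uP f, f.elim (fun f => f.2 rfl) fun f => f.2 rfl]
        · rcases J.nP (Or.inr b) e.symm with f | f | f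
          exacts [Z_I f uI, uP f, f.elim (fun f => f.2 rfl) fun f => f.2 rfl]
    refine ⟨a, ?_⟩
    rw [← oX y (a.elim (fun a => a ▸ h.hub.hl) fun a => a ▸ h.hub.hj), g, cu]
  rw [eM]
  refine ⟨c2, rec_add off r2 ?_ ?_ ?_ ?_ ?_ ?_⟩
  · rintro x (m | rfl) g
    exacts [((h.eM OL.xp OR.xp x).1 g).2.2.1 m, ((h.eM OL.xp OR.xp x).1 g).2.1 rfl]
  · rintro x (m | rfl)
    · exact fun y _ z _ => r1.one x m y z
    · intro y my z mz ey ez gy gz
      obtain ⟨a1, a2⟩ := same y my ey gy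
      obtain ⟨b1, b2⟩ := same z mz ez gz
      rcases a1 with rfl | rfl <;> rcases b1 with rfl | rfl
      exacts [rfl, absurd ⟨a2, b2⟩ k1, absurd ⟨b2, a2⟩ k1, rfl]
  · rintro x (m | rfl) (s | s) y my e g
    · rcases (pay x s).1 with f | f
      exacts [(nK x m).1 (Or.inl (mem_PE.1 f.1).1.2), (nK x m).2 (Or.inl (mem_PE.1 f.1).1.2)]
    · exact Y_I s.2 (kI x m)
    · obtain ⟨a1, a2⟩ := same y my e g
      rcases cs _ (pay x s).1 with f | f
      exacts [nu x (eL _ f x (Sym2.mem_mk_left _ _)) rfl, (k2 y a1 a2).1 f.2]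
    · exact Y_I s.2 uI
  · rintro x n m y (s | rfl) e g
    · exact (r1.al x (fun f => n (Or.inl f)) y s e g).elim
    · obtain ⟨a1, a2⟩ := same x m e.symm g.symm
      obtain ⟨b1, b2, b3⟩ := k2 x a1 a2
      refine ⟨Or.inl b3, ?_⟩
      rintro (f | f)
      · obtain ⟨f1, f2⟩ := pay x f
        rw [(wo x e.ne f2).1, b2] at f1
        exact f1.elim (fun f => (mid b1).1 (PE.mono Set.inter_subset_left f.1))
          fun f => (mid b1).2 (PE.mono Set.inter_subset_left f.1)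
      · exact D.xy f.2 (eL _ b3.1 x (Sym2.mem_mk_left _ _))
  · rintro x n - y (s | rfl) z (s' | rfl) ey ez gy gz
    exacts [(r1.al x (fun f => n (Or.inl f)) y s ey gy).elim,
      (r1.al x (fun f => n (Or.inl f)) y s ey gy).elim,
      (r1.al x (fun f => n (Or.inl f)) z s' ez gz).elim, rfl]
  · rintro x n - (s | s)
    · obtain ⟨f1, f2⟩ := pay x s
      have nx : x ≠ u := fun f => n (Or.inr f)
      obtain ⟨w1, w2⟩ := wo x nx f2
      rw [w1] at f1 f2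
      rcases cs _ f1 with f | f
      · rw [oX _ (eL _ f _ (Sym2.mem_mk_left _ _)), oX _ (eL _ f _ (Sym2.mem_mk_right _ _))] at f2
        exact Or.inl ⟨f, f2⟩
      · rcases Sym2.eq_iff.1 f.1 with f | f
        exacts [absurd f.2 w2, absurd f.1 nx]
    · exact Or.inr s

end Pool.Agent.P.MP_08fd93_co.FB
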