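import Pool.Agent.P.MP_08fd93_co.FB.C8

/-! Short second paths; the lemma on a second path `s v s'` whose middle vertex has no rung. -/

set_option autoImplicit false

namespace Pool.Agent.P.MP_08fd93_co.FB

open OV FU OV.PkIndP

variable {W : Type} {H : SimpleGraph W} {d : DD W} {S S0 : Set (Sym2 W)} {o : OD W} {v : W}

/-- an output whose strict edges cover the inner vertices of the second path -/
theorem out_keep {Ψ : (W → Col) → Set W → Prop} (D : Disc H d) (h : Out H d S o)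
    (hY : ∀ y ∈ d.Y, y = d.a' ∨ y = d.b' ∨ ∃ e ∈ S, y ∈ e) (s : S0 ⊆ S) (s' : S0 ⊆ PE H d.X)
    (k : ∀ c A, Ψ c A → Tok (PE H d.Y \ S) c A) : OutX H d S0 o.X (PX d o) Ψ := by
  refine ((outX_out D h fun y hy => ?_).mono (Set.subset_inter s s')).imp' fun c A _ => k c A
  rcases hY y hy with rfl | rfl | ⟨e, he, m⟩
  exacts [h.shp.yz h.shp.py.ha, h.shp.yz h.shp.py.hb, h.shp.st e he y m]

/-- the second path is a vertex -/
theorem out_top1 (D : Disc H d) (h : Out H d S o) (hY : d.a' = d.b') (s : S0 ⊆ S)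
    (s' : S0 ⊆ PE H d.X) : OutX H d S0 o.X (PX d o) fun _ _ => True := by
  have e : d.Y = {d.b'} := Pth.eq_single (ρ := d.ρ) (by have := D.py; rwa [hY] at this)
  refine out_keep D h (fun y k => Or.inr (Or.inl (by simpa [e] using k))) s s' fun c A _ =>
    (tok_empty c A).mono ?_
  rintro _ ⟨⟨x, kx, y, ky, a, rfl⟩, -⟩
  rw [e] at kx ky
  exact a.ne (kx.trans ky.symm)

theorem pe2 {a b : W} {e : Sym2 W} (k : e ∈ PE H {a, b}) : e = s(a, b) := by
  obtain ⟨x, rfl | rfl, y, rfl | rfl, g, rfl⟩ := k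
  exacts [absurd rfl g.ne, rfl, Sym2.eq_swap, absurd rfl g.ne]

/-- the second path is an edge -/
theorem out_top2 (D : Disc H d) (h : Out H d S o) (hY : H.Adj d.a' d.b') (s : S0 ⊆ S)
    (s' : S0 ⊆ PE H d.X) : OutX H d S0 o.X (PX d o)
      fun c A => s(d.a', d.b') ∈ S ∨ c d.a' = c d.b' ∨ d.a' ∈ A ∨ d.b' ∈ A := by
  have e := D.py.eq_pair hY
  have l : PE H d.Y \ S ⊆ {s(d.a', d.b')} := fun f k => pe2 (e ▸ k.1)
  refine out_keep D h (fun y k => ?_) s s' fun c A k => ?_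
  · rw [e] at k
    exact k.imp_right Or.inl
  · rcases k with k | k | k | k
    · exact (tok_empty c A).mono fun f m => m.2 ((l m : f = _) ▸ k)
    · exact (tok_one (Or.inl k)).mono l
    · exact (tok_one (Or.inr k)).mono l
    · exact (tok_one (b := d.a') (Or.inr k)).mono (Sym2.eq_swap (a := d.a') ▸ l)

/-- The second path has two edges; `v` is its middle vertex. -/
structure Bump (H : SimpleGraph W) (d : DD W) (v : W) : Prop where
  disc : Disc H d
  hv : v ∈ d.Y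
  e1 : H.Adj d.a' v
  e2 : H.Adj v d.b'
  ne : d.a' ≠ d.b'

theorem Bump.rv (h : Bump H d v) : Bump H (rvD d) v :=
  ⟨disc_rv h.disc, h.hv, h.e2.symm, h.e1.symm, h.ne.symm⟩

theorem Bump.l1 (h : Bump H d v) : d.ρ d.a' < d.ρ v := h.disc.py.lo_lt h.hv h.e1.ne'

theorem Bump.l2 (h : Bump H d v) : d.ρ v < d.ρ d.b' := h.disc.py.lt_hi h.hv h.e2.ne

theorem Bump.n (h : Bump H d v) : ¬ H.Adj d.a' d.b' := fun e =>
  h.disc.py.nb h.disc.py.ha h.disc.py.hb e h.hv ⟨h.l1, h.l2⟩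

theorem Bump.cases (h : Bump H d v) {y : W} (k : y ∈ d.Y) : y = d.a' ∨ y = v ∨ y = d.b' := by
  have P := h.disc.py
  have := P.nb P.ha h.hv h.e1 k
  have := P.nb h.hv P.hb h.e2 k
  have := P.lo y k
  have := P.hi y k
  by_cases a : d.ρ y = d.ρ d.a'
  · exact Or.inl (P.inj _ k _ P.ha a)
  by_cases b : d.ρ y = d.ρ v
  · exact Or.inr (Or.inl (P.inj _ k _ h.hv b))
  · exact Or.inr (Or.inr (P.inj _ k _ P.hb (by omega)))

theorem Bump.eY (h : Bump H d v) : d.Y = {d.a', v, d.b'} := by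
  ext y
  refine ⟨h.cases, ?_⟩
  rintro (rfl | rfl | rfl)
  exacts [h.disc.py.ha, h.hv, h.disc.py.hb]

theorem Bump.pe (h : Bump H d v) {e : Sym2 W} (k : e ∈ PE H d.Y) :
    e = s(v, d.a') ∨ e = s(v, d.b') := by
  obtain ⟨x, kx, y, ky, g, rfl⟩ := k
  rcases h.cases kx with rfl | rfl | rfl <;> rcases h.cases ky with r | r | r <;> rw [r] at g ⊢
  exacts [absurd rfl g.ne, Or.inl Sym2.eq_swap, absurd g h.n, Or.inl rfl, absurd rfl g.ne,
    Or.inr rfl, absurd g.symm h.n, Or.inr Sym2.eq_swap, absurd rfl g.ne]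

theorem Bump.m1 (h : Bump H d v) : s(v, d.a') ∈ PE H d.Y :=
  mem_PE.2 ⟨h.hv, h.disc.py.ha, h.e1.symm⟩

theorem Bump.m2 (h : Bump H d v) : s(v, d.b') ∈ PE H d.Y := mem_PE.2 ⟨h.hv, h.disc.py.hb, h.e2⟩

/-- the first edge of the second path is strict -/
theorem Bump.out1 (h : Bump H d v) (O : Out H d S o) (m : s(v, d.a') ∈ S) (s : S0 ⊆ S)
    (s' : S0 ⊆ PE H d.X) : OutX H d S0 o.X (PX d o)
      fun c A => s(v, d.b') ∈ S ∨ c v = c d.b' ∨ v ∈ A ∨ d.b' ∈ A := by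
  have l : PE H d.Y \ S ⊆ {s(v, d.b')} := fun f k =>
    (h.pe k.1).resolve_left fun r => k.2 (r ▸ m)
  refine out_keep h.disc O (fun y k => ?_) s s' fun c A k => ?_
  · rcases h.cases k with r | r | r
    exacts [Or.inl r, Or.inr (Or.inr ⟨_, m, r ▸ Sym2.mem_mk_left _ _⟩), Or.inr (Or.inl r)]
  · rcases k with k | k | k | k
    · exact (tok_empty c A).mono fun f m => m.2 ((l m : f = _) ▸ k)
    · exact (tok_one (Or.inl k)).mono l
    · exact (tok_one (Or.inr k)).mono l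
    · exact (tok_one (b := v) (Or.inr k)).mono (Sym2.eq_swap (a := v) ▸ l)

theorem out_rv' (O : Out H d S o) : Out H (rvD d) S (rvO o) := out_rv (by rwa [rv_rv])

/-- the last edge of the second path is strict -/
theorem Bump.out2 (h : Bump H d v) (O : Out H d S o) (m : s(v, d.b') ∈ S) (s : S0 ⊆ S)
    (s' : S0 ⊆ PE H d.X) : OutX H d S0 o.X (PX d o)
      fun c A => s(v, d.a') ∈ S ∨ c v = c d.a' ∨ v ∈ A ∨ d.a' ∈ A :=
  (h.rv.out1 (out_rv' O) m s s').rv'

/-- the middle vertex may be hidden; the last vertex pays -/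
theorem Bump.unh (U : S_Unh) (hP : Pl H Set.univ) (T : TA H) (h : Bump H d v) (O : Out H d S o)
    (s : S ⊆ PE H d.X) : OutX H d S o.X (PX d o)
      fun c A => c v ≠ c d.b' ∧ d.b' ∈ A ∧ (c v = c d.a' ∨ v ∈ A) :=
  outX_unh U hP T h.disc O s h.eY h.e1 h.e2 h.ne h.n

/-- the middle vertex may be hidden; the first vertex pays -/
theorem Bump.unh' (U : S_Unh) (hP : Pl H Set.univ) (T : TA H) (h : Bump H d v) (O : Out H d S o)
    (s : S ⊆ PE H d.X) : OutX H d S o.X (PX d o)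
      fun c A => c v ≠ c d.a' ∧ d.a' ∈ A ∧ (c v = c d.b' ∨ v ∈ A) :=
  (h.rv.unh U hP T (out_rv' O) s).rv'

/-- a colour of the same class that differs from `k` -/
theorem oth (k : Col) : ∃ k' : Col, k'.1 = k.1 ∧ k ≠ k' :=
  ⟨(k.1, !k.2), rfl, fun g => by simpa using congrArg Prod.snd g⟩

end Pool.Agent.P.MP_08fd93_co.FB
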