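import Pool.Agent.P.MP_08fd93_co.FP.P1
import Pool.Agent.P.MP_08fd93_co.FT.T2
import Pool.Agent.P.MP_08fd93_co.FA.F1

/-! Short tails: a good frame whose neck sees both ends of the right top edge. -/

set_option autoImplicit false

namespace Pool.Agent.P.MP_08fd93_co.FP

open OV FB FN FK FZ FA FP2 TT

variable {J : Type} {G : TD J} {φ : Vx J → Vx J} {v z la lb lc ld x y t e g s s' r : Vx J}
  {S : Set J} {j : ℤ} {b : ℤ × ℤ}

/-- Sources `x`, `r` and sinks `t`, `l` on the two rows of a period. -/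
def EW (x t l r : Vx J) (S : Set J) : EJ J := ⟨{x.1, r.1}, {t.1, l.1}, S, ∅⟩

/-- The head pays the left edge, the neck is idle. -/
def YW (G : TD J) (E : EJ J) : TX J :=
  ⟨⟨True, False, True, True⟩, .b, .no, AS (FT G) (ed E).Src (ed E).Snk, ∅, ∅, ∅⟩

section

variable (h : TQ G v z la lb lc ld)
include h

/-- even and odd rows have no orbit in common -/
theorem par (hs : s ∈ G.L j) (hs' : s' ∈ G.L j) (hx : x ∈ G.L 0) (hy : y ∈ G.L 1)
    (e : s.1 = x.1) : s'.1 ≠ y.1 := fun e' => by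
  have R := h.rows
  have a := R.uw.lf _ _ hs
  have a' := R.uw.lf _ _ hs'
  rw [orb_eq e, R.wp.per, R.uw.lf _ _ hx] at a
  rw [orb_eq e', R.wp.per, R.uw.lf _ _ hy] at a'
  obtain ⟨k, hk⟩ := R.wp.ev (s.2 - x.2)
  obtain ⟨k', hk'⟩ := R.wp.ev (s'.2 - y.2)
  omega

theorem par' (hx : x ∈ G.L 0) (hy : y ∈ G.L 1) : x.1 ≠ y.1 := fun e => by
  have R := h.rows
  have a := R.uw.lf _ _ hx
  rw [orb_eq e, R.wp.per, R.uw.lf _ _ hy] at a
  obtain ⟨k, hk⟩ := R.wp.ev (x.2 - y.2)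
  omega

theorem nchd (hy : y ∈ G.L 1) (e : g.1 = y.1) : ¬ Chd G g := fun k =>
  par' h h.feet.1.1 hy ((h.chd_iff.1 k).2.symm.trans e)

variable (c : LC G v z la) (T : TPR G v z lc ld)
include c T

/-- the three special top edges lie in different orbits -/
theorem w2_ne : la.1 ≠ lc.1 ∧ la.1 ≠ ld.1 ∧ lc.1 ≠ ld.1 := by
  have S := h.st.tf
  refine ⟨fun e => c.rung ?_, fun e => c.rung ?_, fun e => h.ne ?_⟩
  · rw [orb_eq e, S.atr, h.hc.2]
    exact S.vtr _ _ h.vV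
  · rw [orb_eq e, S.atr, T.1]
    exact S.vtr _ _ h.zV
  · rw [← h.hc.2, orb_eq e, S.atr, T.1]
    rfl

variable (hφ : PH (FT G) G.Pr φ) (hx : x ∈ G.L 0) (px : φ x = la)
include hφ hx px

omit h c T hx in
theorem w2_pin (hg : g ∈ G.LA) (m : g.1 ∈ (EW x t la ld S).Pn) (n : (φ g).1 ≠ la.1) :
    g.1 = ld.1 ∨ g.1 ∈ S := by
  rcases m with (m | m) | m
  exacts [absurd (px ▸ hφ.fst hg m) n, Or.inl m, Or.inr m]

omit c T hx in
/-- the strict edges under an ordinary edge -/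
theorem w2_ss (he : e ∈ G.LA) (n : e.1 ≠ la.1 ∧ e.1 ≠ lc.1 ∧ e.1 ≠ ld.1) {A : Set (Sym2 (Vx J))}
    (k : ∀ g ∈ G.LA, φ g = e → g.1 = ld.1 ∨ g.1 ∈ S → s(g, G.nx g) ∈ A) :
    SST G (Pin G (EW x t la ld S)) (YW G (EW x t la ld S)).x e ⊆ A :=
  ss_sub h hφ he (fun g a m _ q => k g a q (w2_pin hφ px a m (q ▸ n.1)))
    (fun _ _ q => absurd (by rw [q]; rfl) n.1) False.elim
    (fun _ _ q => absurd (by rw [q]; rfl) n.2.1) fun _ _ q => absurd (by rw [q]; rfl) n.2.2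

theorem w2_tk (hb : G.η b = 2) (nc : ¬ Chd G x) (ht : t ∈ G.L 0) (n : x.1 ≠ t.1)
    (hS : S ⊆ {la.1})
    (tl : ∀ A ⊆ {s(z, G.xl z), s(x, G.nx x)},
      Spt G φ (EW x t la ld S) (YW G (EW x t la ld S)) A la)
    (t0 : ∀ e ∈ G.LA, e.1 ≠ la.1 ∧ e.1 ≠ lc.1 ∧ e.1 ≠ ld.1 →
      Top G φ (EW x t la ld S) (YW G (EW x t la ld S)) e) :
    TK G φ z (EW x t la ld S) (YW G (EW x t la ld S)) := by
  have hF := h.st.lay
  have R := h.rows
  have hP := hF.fine.pl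
  obtain ⟨a1, -, c1, d1, -⟩ := h.ord
  obtain ⟨n1, n2, n3⟩ := w2_ne h c T
  obtain ⟨b', H⟩ := lb_ex hF hφ (fun j => by have := h.n4 j; show 3 ≤ G.nn j; omega) R.wp.ev
  have lev : ∀ g ∈ G.LA, φ g ∈ G.L 1 → g.1 ∈ (EW x t la ld S).Pn → g.1 = x.1 := fun g a m k => by
    have q := hφ.lev hF a
    rw [hF.lf _ _ m] at q
    have g0 : g ∈ G.L 0 := (show (FT G).f g = 0 by omega) ▸ a
    rcases k with (k | k) | k
    exacts [k, absurd k (par' h g0 d1), absurd (hS k) (par' h g0 a1)]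
  have mv : ∀ {i j : ℤ} {s y y' : Vx J}, s ∈ G.L j → y ∈ G.L i → y' ∈ G.L i → s.1 = y.1 →
      ∃ g ∈ G.L j, g.1 = y'.1 := fun {i j s y y'} a a' a'' q => by
    refine ⟨tr (s.2 - y.2) y', ?_, rfl⟩
    have m := (hF.ltr (s.2 - y.2) _ _).2 a'
    rw [← orb_eq q] at m
    rw [← hF.lf _ _ a, hF.lf _ _ m]
    exact (hF.ltr _ _ _).2 a''
  refine ⟨?_, fun _ m => m.elim, fun _ m => m.elim, fun j => Or.inl ?_, ori_std hF ?_,
    Or.inl trivial, Or.inr (Or.inl rfl), Or.inl trivial, Or.inl trivial,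
    fun q => ⟨?_, nofun, nofun, fun k => k.elim nofun nofun⟩, keepL_a trivial, keepR_d trivial,
    fun e he => ?_⟩
  · rintro _ (rfl | rfl)
    · exact ⟨fun k => k.elim n (par' h hx a1), fun k => par' h hx a1 (hS k)⟩
    · exact ⟨fun k => k.elim (par' h ht d1).symm n2.symm, fun k => n2.symm (hS k)⟩
  · obtain ⟨k, rfl | rfl⟩ := Int.even_or_odd' j
    · refine ⟨tr (k • b) t, ?_, Or.inl rfl, id⟩
      have := (hF.ltr (k • b) _ _).2 ht
      rwa [map_zsmul, show (FT G).η b = 2 from hb, smul_eq_mul, zero_add, mul_comm] at this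
    · refine ⟨tr (k • b) la, ?_, Or.inr rfl, id⟩
      have := (hF.ltr (k • b) _ _).2 a1
      rwa [map_zsmul, show (FT G).η b = 2 from hb, smul_eq_mul, add_comm, mul_comm] at this
  · rintro j s hs s' hs' (m | m) (m' | m') l
    · obtain ⟨g, g1, g2⟩ := mv hs ht hx m
      obtain ⟨y, y1, y2, y3⟩ := H.btw hs hs' g1 (m.trans m'.symm)
        (fun o => n (g2.symm.trans (o.trans m))) l
      exact ⟨y, y1, Or.inl (y2.trans g2), y3⟩
    · exact absurd m' (par h hs hs' ht a1 m)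
    · exact absurd m (par h hs' hs ht a1 m')
    · obtain ⟨g, g1, g2⟩ := mv hs a1 d1 m
      obtain ⟨y, y1, y2, y3⟩ := H.btw hs hs' g1 (m.trans m'.symm)
        (fun o => n2 (m.symm.trans (o.symm.trans g2))) l
      exact ⟨y, y1, Or.inr (y2.trans g2), y3⟩
  · rintro (k | k)
    exacts [nc (h.chd_iff.2 ⟨q, k.symm⟩), par' h h.feet.1.1 d1 k]
  have z0 : ∀ {a : ℤ × ℤ} {y : Vx J}, y = tr a y → a = 0 := fun q => tr_eq_self q.symm
  by_cases e1 : e.1 = la.1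
  · refine Or.inr (Or.inr (Or.inr (Or.inr ⟨la.2 - e.2, ?_⟩)))
    rw [← FK.eq_tr e1]
    refine tl _ (ss_sub h hφ (R.la a1) (fun g a m _ q => Or.inr ?_) (fun _ a q => Or.inl ?_)
      False.elim (fun _ _ q => absurd (by rw [q]; rfl) n1) fun _ _ q => absurd (by rw [q]; rfl) n2)
    · rw [hφ.inj1 a (lev g a (q ▸ a1) m) (q.trans px.symm)]
      rfl
    · rw [z0 q, tr_zero, tr_zero]
  by_cases e2 : e.1 = lc.1
  · obtain ⟨a, rfl⟩ : ∃ a, e = tr a lc := ⟨_, orb_eq e2⟩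
    have q : G.nx (tr a lc) = tr a ld := by rw [R.nx_tr a c1, T.2.2.2]
    refine Top.gen (gen_fanC h (h.st.isC_tr a h.hc.1) ?_ ?_ ?_) <;> rw [q]
    · rw [h.st.tf.atr, h.st.tf.nk_tr, T.1, h.nkc]
    · exact (vt_pin (E := EW x t la ld S) ((hF.la_tr a ld).2 (R.la d1))
        (pin_pn (Or.inl (Or.inr rfl)))).1
    · rw [h.st.tf.atr, h.hc.2]
      exact hF.fine.inv a _ _ T.2.2.1
  by_cases e3 : e.1 = ld.1
  · refine Or.inr (Or.inr (Or.inr (Or.inr ⟨ld.2 - e.2, ?_⟩)))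
    rw [← FK.eq_tr e3]
    refine spt_free (sta_pn (Or.inl (Or.inr rfl))) (ss_sub h hφ (R.la d1) (fun g a m _ q => ?_)
      (fun _ _ q => absurd (by rw [q]; rfl) n2.symm) False.elim
      (fun _ _ q => absurd (by rw [q]; rfl) n3.symm) fun _ a q => Or.inl ?_)
      (oxV hP (all_T _ _ hP) (h.st.bd_disc (R.la d1)) (h.st.bd_st (R.la d1))
        (Or.inl (show G.Γ.Adj (G.an ld) (G.nx ld) from T.1 ▸ T.2.1.symm)) h.pe.2.2.2 h.pe.2.2.2)
    · exact absurd (by rw [← q, ← px]; exact (hφ.fst a (lev g a (q ▸ d1) m)).symm) n2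
    · rw [z0 q, tr_zero, tr_zero]
  exact t0 e he ⟨e1, e2, e3⟩

end

/-- the edge at the left foot and the last edge of the row lie in the span of one vertex -/
theorem LC.span (h : TQ G v z la lb lc ld) (c : LC G v z la) (k : G.Γ.Adj la v ∨ NT G v z la)
    (hy : y ∈ G.L 0) (e : G.nx y = G.xl z) : SpanT G la s(z, G.xl z) s(y, G.nx y) := by
  have lt := c.lt
  have n := (h.rows.nx_mem hy).2.1
  rw [e] at n
  have q := c.tq h hy (by omega) (by omega)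
  have D := q.disc
  have m := q.sub (Or.inl rfl)
  have en : ∀ x, x ∈ s(z, G.xl z) ∨ x ∈ s(y, G.nx y) → x ∈ (Bd G la).X := fun x o =>
    o.elim (PE.ends h.pe.1) (PE.ends m)
  refine ⟨h.pe.1, m, ?_⟩
  rcases k with k | ⟨⟨u, hu, uv, p, hp, p1, p2, up⟩, -⟩
  · exact ⟨la, Or.inr D.py.ha, _, D.px.ha, _, D.px.hb, D.ra.symm, c.b h ▸ k,
      fun x o => ⟨D.px.lo x (en x o), D.px.hi x (en x o)⟩⟩
  obtain ⟨a, a'⟩ := c.row h hp p1 p2.le
  refine ⟨u, Or.inl hu, p, a, _, D.px.hb, up, c.b h ▸ uv, fun x o => ⟨?_, D.px.hi x (en x o)⟩⟩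
  have r1 := (c.nz h).2
  have r2 := (c.row h h.feet.1.1 lt.le le_rfl).2
  have r3 := (c.row h hy (by omega) (by omega)).2
  rw [e] at o
  simp only [Sym2.mem_iff] at o
  rcases o with (rfl | rfl) | rfl | rfl <;> omega

theorem g2_of (col : ∀ (J : Type) [Fintype J] (G : TD J) (φ : Vx J → Vx J)
    (v z la lb lc ld : Vx J) (E : EJ J) (Y : TX J), TQ G v z la lb lc ld → PH (FT G) G.Pr φ →
      TK G φ z E Y → ∃ c, Col1 G.Γ ∅ c) (hI : S_I) (hII : S_II) : S_G2 := by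
  rintro J _ G φ v z la lb lc ld h s hφ ⟨g, T⟩
  refine good hI hII h s hφ g fun ⟨b, hb⟩ w e _ ex => ?_
  obtain ⟨c, k, -⟩ := g
  have hF := h.st.lay
  have R := h.rows
  have lt := c.lt
  obtain ⟨a1, -, -, d1, -⟩ := h.ord
  obtain ⟨y, y0, y1, y2, y3⟩ := y_ex h
  obtain ⟨py, ny⟩ := c.phi h hφ y0 (by omega) (by omega)
  have la' := hφ.la hF (R.la a1)
  have al : (φ la).1 = y.1 := (R.nx_orb la' (R.la y0)).1 (y1 ▸ e)
  have pa : ∀ {x t : Vx J} {S : Set J}, Pd G (EW x t la ld S) la := Or.inl (Or.inr rfl)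
  have one : ∀ t ∈ G.L 0, y.1 ≠ t.1 → (∀ g ∈ G.LA, g.1 = ld.1 → (φ g).1 = t.1 ∨ ∃ r ∈ G.LA,
      r.1 = ld.1 ∧ φ r = φ la ∧ ¬ ExT G (φ la) s(r, G.nx r)) → ∃ c, Col1 G.Γ ∅ c := by
    intro t ht n o
    refine col J G φ v z la lb lc ld _ _ h hφ (w2_tk h c T hφ y0 py hb ny ht n
      (S := ∅) (Set.empty_subset _) (fun A m => spt_sp h.st pa
        (Or.inl ⟨1, sta_pn (Or.inl (Or.inl al))⟩) m (c.span h k y0 y1)) fun e he ne => ?_)
    by_cases q : ∃ g ∈ G.LA, g.1 = ld.1 ∧ φ g = e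
    swap
    · exact Or.inl (w2_ss h hφ py he ne fun g a m m' => q ⟨g, a, m'.resolve_right id, m⟩)
    obtain ⟨g, g1, g2, g3⟩ := q
    have key : ∀ e ∈ G.LA, e.1 ≠ la.1 ∧ e.1 ≠ lc.1 ∧ e.1 ≠ ld.1 → ∀ g, g.1 = ld.1 → φ g = e →
        SST G (Pin G (EW y t la ld ∅)) (YW G (EW y t la ld ∅)).x e ⊆ {s(g, G.nx g)} :=
      fun e he ne g g2 g3 => w2_ss h hφ py he ne fun x a m m' => by
        rw [hφ.inj1 a ((m'.resolve_right id).trans g2.symm) (m.trans g3.symm)]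
        rfl
    rcases o g g1 g2 with m | ⟨r, r1, r2, r3, r4⟩
    · exact Or.inr (Or.inl ⟨_, key e he ne g g2 g3, Or.inl (Or.inl (g3 ▸ m))⟩)
    have q : e.1 = (φ la).1 := by rw [← g3, ← r3]; exact hφ.fst g1 (g2.trans r2.symm)
    refine Or.inr (Or.inr (Or.inr (Or.inr ⟨(φ la).2 - e.2, ?_⟩)))
    rw [← FK.eq_tr q]
    exact spt_k1 h.st la' (sta_pn (Or.inl (Or.inl al))) (key _ la' (q ▸ ne) r r2 r3)
      (pe_row h.st hφ r1 r3 (nchd h d1 r2)) r4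
  have ld' := hφ.la hF (R.la d1)
  by_cases be : (φ ld).1 = (φ la).1
  swap
  · have m := (h.phi hφ y0).1
    refine one (tr (-b) (φ ld)) ?_ (fun o => be (o.symm.trans al.symm)) fun g a q =>
      Or.inl (hφ.fst a q)
    have := (hF.ltr (-b) _ _).2 (hφ.mem (R.la d1))
    rwa [map_neg, show (FT G).η b = 2 from hb, hF.lf _ _ d1] at this
  obtain ⟨r, r1, r2, r3⟩ : ∃ r ∈ G.LA, r.1 = ld.1 ∧ φ r = φ la :=
    ⟨tr ((φ la).2 - (φ ld).2) ld, (hF.la_tr _ _).2 (R.la d1), rfl, by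
      rw [hφ.eqv _ _ (R.la d1), ← FK.eq_tr be]⟩
  have x0 := c.a0 h
  have xy : (G.an la).1 ≠ y.1 := fun o => y3 (o.symm.trans w)
  by_cases er : ExT G (φ la) s(r, G.nx r)
  swap
  · exact one _ x0 xy.symm fun _ _ _ => Or.inr ⟨r, r1, r2, r3, er⟩
  obtain ⟨px, nx⟩ := c.phi h hφ x0 le_rfl lt
  refine col J G φ v z la lb lc ld _ _ h hφ (w2_tk h c T hφ x0 px hb nx y0 xy
    (S := {la.1}) subset_rfl (fun A m => ?_) fun e he ne => ?_)
  · exact Or.inr (Or.inr (Or.inr (Or.inr (Or.inr (Or.inl ⟨⟨_, h.pe.1, _,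
      pe_row h.st hφ (R.la x0) px nx, m⟩, Or.inl ⟨sta_pn (Or.inr rfl), Or.inr rfl,
        nchd h a1 rfl, id, id⟩⟩)))))
  by_cases q : e.1 = (φ la).1
  swap
  · refine Or.inl (w2_ss h hφ px he ne fun g a m m' => q ?_)
    rw [← m]
    exact m'.elim (fun o => (hφ.fst a o).trans be) (hφ.fst a)
  refine Or.inr (Or.inr (Or.inr (Or.inr ⟨(φ la).2 - e.2, ?_⟩)))
  rw [← FK.eq_tr q]
  refine spt_sp h.st (Or.inl (Or.inl al)) (Or.inl ⟨1, sta_pn (Or.inr ?_)⟩)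
    (w2_ss h hφ px la' (q ▸ ne) fun g a m m' => ?_) (h.st.span la'
      (pe_row h.st hφ (R.la a1) rfl (nchd h a1 rfl)) (pe_row h.st hφ r1 r3 (nchd h d1 r2)) ex er)
  · exact (hφ.fst la' al).trans (congrArg Prod.fst py)
  · rcases m' with o | o
    · rw [hφ.inj1 a (o.trans r2.symm) (m.trans r3.symm)]
      exact Or.inr rfl
    · rw [hφ.inj1 a o m]
      exact Or.inl rfl

end Pool.Agent.P.MP_08fd93_co.FP
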